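import Pool.Agent.KOB.Defs

/-!
# Auxiliary definitions for the hiding games
-/

set_option autoImplicit false

open Finset MeasureTheory

noncomputable section

namespace Pool.Agent.KOB

/-- the number `0` or `1` -/
def bit (b : Bool) : ℝ := if b then 1 else 0

/-- The column player gets the bonus `1/2` in the columns `J` and plays `A` as a zero-sum game. -/
def bonus {R C : Type} [DecidableEq C] (A : R → C → ℝ) (J : Finset C) : R → C → ℝ :=
  fun i j => (if j ∈ J then 1 / 2 else 0) + 1 / 2 * (1 - A i j)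

/-- the patterns with `a` ones on `P` and `b` ones on `Q` -/
def pat {R : Type} [Fintype R] [DecidableEq R] (P Q : Finset R) (a b : ℕ) :
    Finset (R → Bool) :=
  univ.filter fun v => (P.filter fun i => v i = true).card = a ∧
    (Q.filter fun i => v i = true).card = b

/-- the matrix for the row player in the composed game -/
def compA {R₁ R₂ C₁ C₂ : Type} (A₁ : R₁ → C₁ → ℝ) (A₂ : R₂ → C₂ → ℝ) :
    R₁ ⊕ R₂ → C₁ ⊕ C₂ → ℝ
  | .inl i, .inl j => 1 / 2 * A₁ i j
  | .inl _, .inr _ => 1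
  | .inr _, .inl _ => 1
  | .inr i, .inr j => 1 / 2 * A₂ i j

/-- the matrix for the column player in the composed game -/
def compB {R₁ R₂ C₁ C₂ : Type} (B₁ : R₁ → C₁ → ℝ) (B₂ : R₂ → C₂ → ℝ) :
    R₁ ⊕ R₂ → C₁ ⊕ C₂ → ℝ
  | .inl i, .inl j => 1 / 2 + 1 / 2 * B₁ i j
  | .inl _, .inr _ => 0
  | .inr _, .inl _ => 0
  | .inr i, .inr j => 1 / 2 + 1 / 2 * B₂ i j

/-- The row strategy is hidden: for every probability measure `μ` there is a matrix `B` such that
`μ` gives measure at most `δ` to the set of the `w` which are up to a factor between `1/4` and `1`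
the row strategy of an `e`-equilibrium of `(A, B)`. -/
def RowHide {N : ℕ} (A : Fin N → Fin N → ℝ) (e δ : ℝ) : Prop :=
  ∀ (μ : Measure (Fin N → ℝ)) [IsProbabilityMeasure μ], ∃ B : Fin N → Fin N → ℝ,
    (∀ i j, B i j = 0 ∨ B i j = 1 / 2 ∨ B i j = 1) ∧
    μ {w | ∃ α : ℝ, 1 / 4 ≤ α ∧ α ≤ 1 ∧ ∃ y, IsNE A B e (fun i => w i / α) y} ≤
      ENNReal.ofReal δ

/-- The column strategy is hidden. -/
def ColHide {N : ℕ} (A : Fin N → Fin N → ℝ) (e δ : ℝ) : Prop :=
  ∀ (ν : Measure (Fin N → ℝ)) [IsProbabilityMeasure ν], ∃ B : Fin N → Fin N → ℝ,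
    (∀ i j, B i j = 0 ∨ B i j = 1 / 2 ∨ B i j = 1) ∧
    ν {w | ∃ β : ℝ, 1 / 4 ≤ β ∧ β ≤ 1 ∧ ∃ x, IsNE A B e x (fun j => w j / β)} ≤
      ENNReal.ofReal δ

end Pool.Agent.KOB
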