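import Mathlib

/-!
# A lower bound for binomial coefficients near the middle
-/

set_option autoImplicit false

noncomputable section

namespace Pool.Agent.KOB

/-- `C(2q, q) ≥ 4^q / (2 √q)`, squared.

Proof. Induction: `q = 1`: `16 ≤ 4 * 4`. Step: `(q+1) C(2q+2, q+1) = 2 (2q+1) C(2q, q)`
(`Nat.succ_mul_centralBinom_succ`), so
`4 (q+1) c_(q+1)^2 (q+1) = 4 * 4 (2q+1)^2 c_q^2` and `4 (2q+1)^2 ≥ 16 q (q+1)`:
`4 (q+1) c_(q+1)^2 = 16 (2q+1)^2 / (q+1) c_q^2 ≥ 16 * 4 q c_q^2 ≥ 16 * 16^q`. -/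
theorem central_sq (q : ℕ) (hq : 1 ≤ q) : 16 ^ q ≤ 4 * q * (Nat.centralBinom q) ^ 2 := by
  induction q, hq using Nat.le_induction with
  | base => decide
  | succ q hq ih =>
    have h1 := Nat.succ_mul_centralBinom_succ q
    have h2 : 16 ^ (q + 1) * (q + 1) ≤ 4 * (q + 1) * (Nat.centralBinom (q + 1)) ^ 2 * (q + 1) := by
      calc 16 ^ (q + 1) * (q + 1) = 16 * (q + 1) * 16 ^ q := by ring
        _ ≤ 16 * (q + 1) * (4 * q * (Nat.centralBinom q) ^ 2) := Nat.mul_le_mul_left _ ih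
        _ = 16 * (4 * q * (q + 1)) * (Nat.centralBinom q) ^ 2 := by ring
        _ ≤ 16 * ((2 * q + 1) ^ 2) * (Nat.centralBinom q) ^ 2 := by
            apply Nat.mul_le_mul_right
            apply Nat.mul_le_mul_left
            nlinarith
        _ = 4 * (2 * (2 * q + 1) * Nat.centralBinom q) ^ 2 := by ring
        _ = 4 * ((q + 1) * Nat.centralBinom (q + 1)) ^ 2 := by rw [h1]
        _ = 4 * (q + 1) * (Nat.centralBinom (q + 1)) ^ 2 * (q + 1) := by ring
    exact Nat.le_of_mul_le_mul_right h2 (Nat.succ_pos q)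

/-- `C(2q, q + d) ≥ 4^q / (2 √q) * exp (- 2 d^2 / q)` if `4 d ≤ q`.

Proof. `4^q ≤ 2 √q C(2q, q)` (`central_sq`, square roots). For `t < d`:
`(q+t+1) C(2q, q+t+1) = (q-t) C(2q, q+t)` (`Nat.choose_succ_right_eq`), so the ratio is
`(q-t)/(q+t+1) = 1 - u` with `u = (2t+1)/(q+t+1) ≤ (2t+1)/q ≤ 1/2`, and
`1 - u ≥ 1/(1+2u) ≥ exp (-2u) ≥ exp (- 2 (2t+1)/q)` (since `(1-u)(1+2u) = 1 + u(1-2u) ≥ 1` and
`exp (2u) ≥ 1 + 2u`). By induction on `d` (`sum of 2t+1 over t < d` is `d^2`). -/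
theorem choose_lower (q d : ℕ) (hq : 1 ≤ q) (hd : 4 * d ≤ q) :
    (4 : ℝ) ^ q * Real.exp (-(2 * (d : ℝ) ^ 2 / q)) ≤
      2 * Real.sqrt q * (Nat.choose (2 * q) (q + d) : ℝ) := by
  have hq0 : (0 : ℝ) < q := by exact_mod_cast hq
  induction d with
  | zero =>
    have h1 := central_sq q hq
    have h2 : (16 : ℝ) ^ q ≤ 4 * q * (Nat.centralBinom q : ℝ) ^ 2 := by exact_mod_cast h1
    have h3 : ((4 : ℝ) ^ q) ^ 2 ≤ (2 * Real.sqrt q * (Nat.centralBinom q : ℝ)) ^ 2 := by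
      rw [mul_pow, mul_pow, Real.sq_sqrt hq0.le, ← pow_mul, mul_comm q 2, pow_mul]
      norm_num
      exact h2
    have h4 : (4 : ℝ) ^ q ≤ 2 * Real.sqrt q * (Nat.centralBinom q : ℝ) :=
      (pow_le_pow_iff_left₀ (by positivity) (by positivity) two_ne_zero).1 h3
    rw [Nat.centralBinom_eq_two_mul_choose] at h4
    simpa using h4
  | succ d ih =>
    have h0 := ih (by omega)
    have hdq : (4 : ℝ) * (d + 1) ≤ q := by exact_mod_cast hd
    have hd0 : (0 : ℝ) ≤ d := Nat.cast_nonneg d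
    -- recursion for the binomials
    have h1 := Nat.choose_succ_right_eq (2 * q) (q + d)
    have h1' : (Nat.choose (2 * q) (q + (d + 1)) : ℝ) * ((q : ℝ) + d + 1) =
        (Nat.choose (2 * q) (q + d) : ℝ) * ((q : ℝ) - d) := by
      have h2 : ((2 * q - (q + d) : ℕ) : ℝ) = (q : ℝ) - d := by
        rw [Nat.cast_sub (by omega)]
        push_cast
        ring
      rw [← h2]
      exact_mod_cast h1
    set x : ℝ := 2 * (2 * (d : ℝ) + 1) / q with hx
    have hx0 : 0 ≤ x := by positivity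
    have hxq : x * q = 2 * (2 * (d : ℝ) + 1) := by
      rw [hx]
      field_simp
    -- the ratio
    have h3 : (q : ℝ) + d + 1 ≤ ((q : ℝ) - d) * Real.exp x := by
      have h4 : 1 + x ≤ Real.exp x := by
        have := Real.add_one_le_exp x
        linarith
      have h5 : (0 : ℝ) ≤ (q : ℝ) - d := by linarith
      have h6 : (q : ℝ) + d + 1 ≤ ((q : ℝ) - d) * (1 + x) := by
        have h7 : x * d ≤ x * q / 2 := by nlinarith
        nlinarith
      exact h6.trans (mul_le_mul_of_nonneg_left h4 h5)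
    have h8 : (Nat.choose (2 * q) (q + d) : ℝ) * Real.exp (-x) ≤
        (Nat.choose (2 * q) (q + (d + 1)) : ℝ) := by
      have hpos : (0 : ℝ) < (q : ℝ) + d + 1 := by positivity
      have h9 : (Nat.choose (2 * q) (q + d) : ℝ) * Real.exp (-x) * ((q : ℝ) + d + 1) ≤
          (Nat.choose (2 * q) (q + (d + 1)) : ℝ) * ((q : ℝ) + d + 1) := by
        rw [h1']
        calc (Nat.choose (2 * q) (q + d) : ℝ) * Real.exp (-x) * ((q : ℝ) + d + 1)
            ≤ (Nat.choose (2 * q) (q + d) : ℝ) * Real.exp (-x) *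
              (((q : ℝ) - d) * Real.exp x) := mul_le_mul_of_nonneg_left h3 (by positivity)
          _ = (Nat.choose (2 * q) (q + d) : ℝ) * ((q : ℝ) - d) *
              (Real.exp (-x) * Real.exp x) := by ring
          _ = (Nat.choose (2 * q) (q + d) : ℝ) * ((q : ℝ) - d) := by
              rw [← Real.exp_add, neg_add_cancel, Real.exp_zero, mul_one]
      exact le_of_mul_le_mul_right h9 hpos
    have h10 : -(2 * ((d + 1 : ℕ) : ℝ) ^ 2 / q) = -(2 * (d : ℝ) ^ 2 / q) + -x := by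
      rw [hx]
      push_cast
      field_simp
      ring
    rw [h10, Real.exp_add, ← mul_assoc]
    calc (4 : ℝ) ^ q * Real.exp (-(2 * (d : ℝ) ^ 2 / q)) * Real.exp (-x)
        ≤ 2 * Real.sqrt q * (Nat.choose (2 * q) (q + d) : ℝ) * Real.exp (-x) :=
          mul_le_mul_of_nonneg_right h0 (Real.exp_pos _).le
      _ = 2 * Real.sqrt q * ((Nat.choose (2 * q) (q + d) : ℝ) * Real.exp (-x)) := by ring
      _ ≤ 2 * Real.sqrt q * (Nat.choose (2 * q) (q + (d + 1)) : ℝ) :=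
          mul_le_mul_of_nonneg_left h8 (by positivity)

end Pool.Agent.KOB
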