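import Pool.Agent.KOB.Row

/-!
# The column player must spread over the hidden set
-/

set_option autoImplicit false

open Finset

noncomputable section

namespace Pool.Agent.KOB

variable {R C : Type} [Fintype R] [Fintype C] [DecidableEq R] [DecidableEq C]

omit [DecidableEq R] [DecidableEq C] in
/-- the payoff, summed over the columns first -/
private theorem pay_comm_Col (A : R → C → ℝ) (x : R → ℝ) (y : C → ℝ) :
    pay A x y = ∑ j, y j * ∑ i, x i * A i j := by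
  unfold pay
  rw [Finset.sum_comm]
  refine Finset.sum_congr rfl fun j _ => ?_
  rw [Finset.mul_sum]
  exact Finset.sum_congr rfl fun i _ => by ring

omit [DecidableEq C] in
/-- the payoff of a pure strategy -/
private theorem pay_single_Col (A : R → C → ℝ) (i : R) (y : C → ℝ) :
    pay A (Pi.single i 1) y = ∑ j, A i j * y j := by
  unfold pay
  rw [Finset.sum_eq_single i]
  · exact Finset.sum_congr rfl fun j _ => by rw [Pi.single_eq_same, one_mul]
  · intro b _ hb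
    exact Finset.sum_eq_zero fun j _ => by rw [Pi.single_eq_of_ne hb, zero_mul, zero_mul]
  · intro hi
    exact absurd (Finset.mem_univ i) hi

/-- The column player spreads over `J`.

Proof. Let `z = 1 - ∑_(j ∈ J) y j`, `v = pay A x y`.
(1) Sum `col_regret` over `j ∈ J`: `(v + z - 2e) M ≤ ∑ i, x i * ∑_(j ∈ J) A i j ≤ (1/2 + η) M`
(`hJg`, `∑ x = 1`), so `v + z - 2e ≤ 1/2 + η`.
(2) `h.row` against the uniform strategy on all rows: its payoff is
`∑ j, y j * (∑ i, A i j)/|R| ≥ 1/2 - e` (`hall`), so `v ≥ 1/2 - 2e`.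
(3) So `z ≤ η + 4e ≤ 1/8`, and `v ≤ 1/2 + η + 2e` (as `z ≥ 0`), and for all rows `i`:
`∑ j, A i j * y j ≤ v + e ≤ 1/2 + η + 3e` (`h.row` against the pure strategy `i`).
(4) Suppose that fewer than `h` elements `j` of `J` have `y j ≥ 1/(8M)`. Choose `H` with
`{j ∈ J : y j ≥ 1/(8M)} ⊆ H ⊆ J`, `|H| = h` (`Finset.exists_subsuperset_card_eq`). Then
`∑_(j ∈ J \ H) y j ≤ M/(8M) = 1/8`, so `∑_(j ∈ H) y j ≥ 1 - z - 1/8 ≥ 3/4`. Take `I` from `hH`
and sum (3) over `i ∈ I`: `(1/2 + η + 3e) |I| ≥ ∑ j, y j * ∑_(i ∈ I) A i j ≥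
(1/2 - e) |I| + τ |I| ∑_(j ∈ H) y j ≥ (1/2 - e + 3/4 τ) |I|`, so `3/4 τ ≤ η + 4e`,
a contradiction to `h2`. (`τ ≥ 0` by `h2`, `hη`, `he`.) -/
theorem col_spread (A : R → C → ℝ) (e η τ : ℝ) (he : 0 < e)
    (hη : 0 ≤ η) (h1 : η + 4 * e ≤ 1 / 8) (h2 : η + 4 * e < 3 / 4 * τ) (J : Finset C) (M h : ℕ)
    (hM : 0 < M) (hJ : J.card = M) (hh : h ≤ M) (hR : 0 < Fintype.card R)
    (hJg : ∀ i, ∑ j ∈ J, A i j ≤ (1 / 2 + η) * M)
    (hall : ∀ j, (1 / 2 - e) * Fintype.card R ≤ ∑ i, A i j)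
    (hH : ∀ H ⊆ J, H.card = h → ∃ I : Finset R, I.Nonempty ∧
      (∀ j, j ∉ H → (1 / 2 - e) * I.card ≤ ∑ i ∈ I, A i j) ∧
      (∀ j ∈ H, (1 / 2 + τ - e) * I.card ≤ ∑ i ∈ I, A i j))
    (x : R → ℝ) (y : C → ℝ) (hNE : IsNE A (bonus A J) e x y) :
    h ≤ (J.filter fun j => 1 / (8 * (M : ℝ)) ≤ y j).card := by
  obtain ⟨hx0, hx1⟩ := hNE.hx
  obtain ⟨hy0, hy1⟩ := hNE.hy
  obtain ⟨v, hv⟩ : ∃ v, v = pay A x y := ⟨_, rfl⟩
  obtain ⟨z, hz⟩ : ∃ z, z = 1 - ∑ j ∈ J, y j := ⟨_, rfl⟩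
  have hM' : (0 : ℝ) < M := by exact_mod_cast hM
  have hR' : (0 : ℝ) < Fintype.card R := by exact_mod_cast hR
  have hzJ : ∑ j ∈ J, y j ≤ 1 := by
    rw [← hy1]
    exact Finset.sum_le_sum_of_subset_of_nonneg (Finset.subset_univ J) fun j _ _ => hy0 j
  -- the bonus
  have s1 : v + z - 2 * e ≤ 1 / 2 + η := by
    have h3 : ∑ j ∈ J, (v + z - 2 * e) ≤ ∑ j ∈ J, ∑ i, x i * A i j := by
      refine Finset.sum_le_sum fun j hj => ?_
      have h4 := col_regret A e J x y hNE j hj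
      rw [hv, hz]
      exact h4
    have h5 : ∑ j ∈ J, ∑ i, x i * A i j ≤ (1 / 2 + η) * M := by
      rw [Finset.sum_comm]
      calc ∑ i, ∑ j ∈ J, x i * A i j ≤ ∑ i, x i * ((1 / 2 + η) * M) := by
            refine Finset.sum_le_sum fun i _ => ?_
            rw [← Finset.mul_sum]
            exact mul_le_mul_of_nonneg_left (hJg i) (hx0 i)
        _ = (1 / 2 + η) * M := by rw [← Finset.sum_mul, hx1, one_mul]
    rw [Finset.sum_const, hJ, nsmul_eq_mul] at h3
    have h6 : (M : ℝ) * (v + z - 2 * e) ≤ M * (1 / 2 + η) := by linarith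
    exact le_of_mul_le_mul_left h6 hM'
  -- the uniform strategy
  have s2 : 1 / 2 - 2 * e ≤ v := by
    have h3 := hNE.row (fun _ => 1 / (Fintype.card R : ℝ)) (by
      refine ⟨fun _ => by positivity, ?_⟩
      rw [Finset.sum_const, Finset.card_univ, nsmul_eq_mul]
      field_simp)
    rw [pay_comm_Col A _ y, ← hv] at h3
    have h4 : 1 / 2 - e ≤ ∑ j, y j * ∑ i, 1 / (Fintype.card R : ℝ) * A i j := by
      calc 1 / 2 - e = ∑ j, y j * (1 / 2 - e) := by rw [← Finset.sum_mul, hy1, one_mul]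
        _ ≤ _ := by
          refine Finset.sum_le_sum fun j _ => mul_le_mul_of_nonneg_left ?_ (hy0 j)
          rw [← Finset.mul_sum, one_div_mul_eq_div, le_div_iff₀ hR']
          exact hall j
    linarith
  -- the pure strategies
  have s3 : ∀ i, ∑ j, A i j * y j ≤ v + e := by
    intro i
    have h3 := hNE.row (Pi.single i 1) (by
      refine ⟨fun a => ?_, ?_⟩
      · by_cases h : a = i
        · rw [h, Pi.single_eq_same]
          exact zero_le_one
        · rw [Pi.single_eq_of_ne h]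
      · rw [Finset.sum_pi_single', if_pos (Finset.mem_univ i)])
    rwa [pay_single_Col, ← hv] at h3
  have hz0 : 0 ≤ z := by linarith
  have hτ : 0 ≤ τ := by linarith
  by_contra hcon
  obtain ⟨H, hH1, hH2, hH3⟩ := Finset.exists_subsuperset_card_eq
    (Finset.filter_subset (fun j => 1 / (8 * (M : ℝ)) ≤ y j) J) (not_le.1 hcon).le
    (by rw [hJ]; exact hh)
  have s4 : ∑ j ∈ J \ H, y j ≤ 1 / 8 := by
    calc ∑ j ∈ J \ H, y j ≤ ∑ j ∈ J \ H, 1 / (8 * (M : ℝ)) := by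
          refine Finset.sum_le_sum fun j hj => ?_
          rw [Finset.mem_sdiff] at hj
          by_contra h3
          exact hj.2 (hH1 (Finset.mem_filter.2 ⟨hj.1, (not_le.1 h3).le⟩))
      _ = ((J \ H).card : ℝ) * (1 / (8 * (M : ℝ))) := by rw [Finset.sum_const, nsmul_eq_mul]
      _ ≤ M * (1 / (8 * (M : ℝ))) := by
          refine mul_le_mul_of_nonneg_right ?_ (by positivity)
          rw [← hJ]
          exact_mod_cast Finset.card_le_card Finset.sdiff_subset
      _ = 1 / 8 := by field_simp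
  have s5 : 3 / 4 ≤ ∑ j ∈ H, y j := by
    have h3 := Finset.sum_sdiff hH2 (f := y)
    linarith
  obtain ⟨I, hI0, hI1, hI2⟩ := hH H hH2 hH3
  have hI : (0 : ℝ) < I.card := by exact_mod_cast hI0.card_pos
  have s6 : ∑ i ∈ I, ∑ j, A i j * y j ≤ I.card * (v + e) := by
    calc ∑ i ∈ I, ∑ j, A i j * y j ≤ ∑ i ∈ I, (v + e) := Finset.sum_le_sum fun i _ => s3 i
      _ = I.card * (v + e) := by rw [Finset.sum_const, nsmul_eq_mul]
  have s7 : (1 / 2 - e) * I.card + τ * I.card * ∑ j ∈ H, y j ≤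
      ∑ i ∈ I, ∑ j, A i j * y j := by
    have h3 : ∑ i ∈ I, ∑ j, A i j * y j = ∑ j, y j * ∑ i ∈ I, A i j := by
      rw [Finset.sum_comm]
      refine Finset.sum_congr rfl fun j _ => ?_
      rw [Finset.mul_sum]
      exact Finset.sum_congr rfl fun i _ => mul_comm _ _
    have h4 : ∑ j ∈ H, y j = ∑ j, if j ∈ H then y j else 0 := by
      rw [Finset.sum_ite_mem, Finset.univ_inter]
    have h5 : (1 / 2 - e) * I.card = ∑ j, y j * ((1 / 2 - e) * I.card) := by
      rw [← Finset.sum_mul, hy1, one_mul]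
    rw [h3, h4, h5, Finset.mul_sum, ← Finset.sum_add_distrib]
    refine Finset.sum_le_sum fun j _ => ?_
    by_cases hj : j ∈ H
    · rw [if_pos hj]
      have h6 := mul_le_mul_of_nonneg_left (hI2 j hj) (hy0 j)
      linarith
    · rw [if_neg hj]
      have h6 := mul_le_mul_of_nonneg_left (hI1 j hj) (hy0 j)
      linarith
  have s8 : I.card * ((1 / 2 - e) + τ * ∑ j ∈ H, y j) ≤ I.card * (v + e) := by
    linarith
  have s9 := le_of_mul_le_mul_left s8 hI
  have s10 : 3 / 4 * τ ≤ τ * ∑ j ∈ H, y j := by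
    rw [mul_comm]
    exact mul_le_mul_of_nonneg_left s5 hτ
  linarith

end Pool.Agent.KOB
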