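import Mathlib

/-!
# Hoeffding's inequality by counting
-/

set_option autoImplicit false

open Finset

noncomputable section

namespace Pool.Agent.KOB

/-- Hoeffding's inequality for the uniform distribution on `ι → Ω`, as a count.

Proof. Let `V = ∑ c k ^ 2`, `l = s / V > 0`. For each `k`:
`∑ w, exp (l * f k w) ≤ |Ω| * cosh (l c_k) ≤ |Ω| * exp (l^2 c_k^2 / 2)`:
if `c k = 0` all `f k w = 0`; otherwise put `t = f k w / c k`, `|t| ≤ 1`, and use
`Real.exp_mul_le_cosh_add_mul_sinh : |t| ≤ 1 → exp (t * x) ≤ cosh x + t * sinh x` with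
`x = l c_k`; the second terms sum to `0` by `h0`. Then `Real.cosh_le_exp_half_sq`.
So `#{v : s ≤ ..} * exp (l s) ≤ ∑ v, exp (l ∑ k, f k (v k)) = ∏ k, ∑ w, exp (l f k w)`
(`Finset.prod_univ_sum`, `Fintype.piFinset_univ`) `≤ |Ω|^|ι| exp (l^2 V / 2)`, and
`l^2 V / 2 - l s = - s^2 / (2 V)`. -/
theorem hoeffding_count {ι Ω : Type} [Fintype ι] [DecidableEq ι] [Fintype Ω]
    (f : ι → Ω → ℝ) (c : ι → ℝ) (hf : ∀ k w, |f k w| ≤ c k) (h0 : ∀ k, ∑ w, f k w = 0)
    (s : ℝ) (hs : 0 < s) (hV : 0 < ∑ k, c k ^ 2) :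
    ((univ.filter fun v : ι → Ω => s ≤ ∑ k, f k (v k)).card : ℝ) ≤
      Real.exp (-(s ^ 2 / (2 * ∑ k, c k ^ 2))) *
        (Fintype.card Ω : ℝ) ^ (Fintype.card ι) := by
  classical
  set V := ∑ k, c k ^ 2 with hVdef
  set l := s / V with hl
  have hl0 : 0 < l := div_pos hs hV
  -- the one dimensional bound
  have h1 : ∀ k, ∑ w, Real.exp (l * f k w) ≤
      (Fintype.card Ω : ℝ) * Real.exp ((l * c k) ^ 2 / 2) := by
    intro k
    rcases eq_or_ne (c k) 0 with hc | hc
    · have h2 : ∀ w, f k w = 0 := by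
        intro w
        have h3 := hf k w
        rw [hc] at h3
        exact abs_nonpos_iff.1 h3
      have h3 : ∑ w, Real.exp (l * f k w) = (Fintype.card Ω : ℝ) := by
        rw [Finset.sum_congr rfl fun w _ => by rw [h2 w, mul_zero, Real.exp_zero]]
        simp
      rw [h3, hc]
      simp
    · have h2 : ∀ w, Real.exp (l * f k w) ≤
          Real.cosh (l * c k) + f k w / c k * Real.sinh (l * c k) := by
        intro w
        have h3 : |f k w / c k| ≤ 1 := by
          have h4 : 0 ≤ c k := (abs_nonneg _).trans (hf k w)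
          rw [abs_div, abs_of_nonneg h4, div_le_one (lt_of_le_of_ne h4 (Ne.symm hc))]
          exact hf k w
        have h4 := Real.exp_mul_le_cosh_add_mul_sinh h3 (l * c k)
        have h5 : f k w / c k * (l * c k) = l * f k w := by
          field_simp
        rwa [h5] at h4
      calc ∑ w, Real.exp (l * f k w)
          ≤ ∑ w, (Real.cosh (l * c k) + f k w / c k * Real.sinh (l * c k)) :=
            Finset.sum_le_sum fun w _ => h2 w
        _ = (Fintype.card Ω : ℝ) * Real.cosh (l * c k) := by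
            rw [Finset.sum_add_distrib, ← Finset.sum_mul, ← Finset.sum_div, h0 k]
            simp
        _ ≤ (Fintype.card Ω : ℝ) * Real.exp ((l * c k) ^ 2 / 2) :=
            mul_le_mul_of_nonneg_left (Real.cosh_le_exp_half_sq _) (by positivity)
  -- the product
  have h2 : ∑ v : ι → Ω, Real.exp (l * ∑ k, f k (v k)) ≤
      (Fintype.card Ω : ℝ) ^ (Fintype.card ι) * Real.exp (l ^ 2 * V / 2) := by
    have h3 : ∀ v : ι → Ω, Real.exp (l * ∑ k, f k (v k)) = ∏ k, Real.exp (l * f k (v k)) := by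
      intro v
      rw [Finset.mul_sum, Real.exp_sum]
    rw [Finset.sum_congr rfl fun v _ => h3 v]
    have h4 : ∑ v : ι → Ω, ∏ k, Real.exp (l * f k (v k)) =
        ∏ k, ∑ w, Real.exp (l * f k w) := by
      rw [Finset.prod_univ_sum, Fintype.piFinset_univ]
    rw [h4]
    calc ∏ k, ∑ w, Real.exp (l * f k w)
        ≤ ∏ k : ι, (Fintype.card Ω : ℝ) * Real.exp ((l * c k) ^ 2 / 2) :=
          Finset.prod_le_prod (fun k _ => Finset.sum_nonneg fun w _ => (Real.exp_pos _).le)
            fun k _ => h1 k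
      _ = (Fintype.card Ω : ℝ) ^ (Fintype.card ι) * Real.exp (l ^ 2 * V / 2) := by
          rw [Finset.prod_mul_distrib, Finset.prod_const, Finset.card_univ, ← Real.exp_sum]
          congr 2
          rw [hVdef, Finset.mul_sum, Finset.sum_div]
          exact Finset.sum_congr rfl fun k _ => by ring
  -- the exponential Markov inequality
  have h3 : ((univ.filter fun v : ι → Ω => s ≤ ∑ k, f k (v k)).card : ℝ) * Real.exp (l * s) ≤
      ∑ v : ι → Ω, Real.exp (l * ∑ k, f k (v k)) := by
    rw [← nsmul_eq_mul, ← Finset.sum_const]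
    refine (Finset.sum_le_sum fun v hv => ?_).trans
      (Finset.sum_le_sum_of_subset_of_nonneg (Finset.filter_subset _ _)
        fun v _ _ => (Real.exp_pos _).le)
    rw [Finset.mem_filter] at hv
    exact Real.exp_le_exp.2 (mul_le_mul_of_nonneg_left hv.2 hl0.le)
  have h4 : Real.exp (l ^ 2 * V / 2) =
      Real.exp (-(s ^ 2 / (2 * V))) * Real.exp (l * s) := by
    rw [← Real.exp_add]
    congr 1
    rw [hl]
    field_simp
    ring
  have h5 := h3.trans h2
  rw [h4] at h5
  have h6 : ((univ.filter fun v : ι → Ω => s ≤ ∑ k, f k (v k)).card : ℝ) * Real.exp (l * s) ≤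
      (Real.exp (-(s ^ 2 / (2 * V))) * (Fintype.card Ω : ℝ) ^ (Fintype.card ι)) *
        Real.exp (l * s) := by
    refine h5.trans (le_of_eq ?_)
    ring
  exact le_of_mul_le_mul_right h6 (Real.exp_pos _)

end Pool.Agent.KOB
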