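import Pool.Agent.KOB.Base
import Pool.Agent.KOB.Hoef

/-!
# Most families of `n` columns see every pattern class with the right averages
-/

set_option autoImplicit false

open Finset

noncomputable section

namespace Pool.Agent.KOB

variable {R : Type} [Fintype R] [DecidableEq R]

/-- the mean of the `i`-th entry over the patterns in `F` -/
def mean (F : Finset (R → Bool)) (i : R) : ℝ := (∑ v ∈ F, bit (v i)) / F.card

/-- the columns with pattern in `F` -/
def cols {n : ℕ} (v : Fin n → R → Bool) (F : Finset (R → Bool)) : Finset (Fin n) :=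
  univ.filter fun j => v j ∈ F

/-- The columns `v` see the class `F`: some column is in `F`, and the averages over the columns in
`F` are up to `e` the means over `F`. -/
def Sees {n : ℕ} (v : Fin n → R → Bool) (F : Finset (R → Bool)) (e : ℝ) : Prop :=
  (cols v F).Nonempty ∧
    ∀ i, |∑ j ∈ cols v F, (bit (v j i) - mean F i)| ≤ e * (cols v F).card

private theorem cols_bit (b : Bool) : 0 ≤ bit b ∧ bit b ≤ 1 := by
  unfold bit
  split_ifs <;> norm_num

omit [Fintype R] [DecidableEq R] in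
private theorem cols_mean (F : Finset (R → Bool)) (i : R) : 0 ≤ mean F i ∧ mean F i ≤ 1 := by
  unfold mean
  refine ⟨div_nonneg (sum_nonneg fun v _ => (cols_bit _).1) (Nat.cast_nonneg _), ?_⟩
  rcases F.eq_empty_or_nonempty with h | h
  · rw [h, sum_empty, card_empty, zero_div]
    exact zero_le_one
  · rw [div_le_one (by exact_mod_cast h.card_pos)]
    calc ∑ v ∈ F, bit (v i) ≤ ∑ v ∈ F, (1 : ℝ) := sum_le_sum fun v _ => (cols_bit _).2
      _ = F.card := by rw [sum_const, nsmul_eq_mul, mul_one]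

private theorem cols_hoef (n : ℕ) (hn : 0 < n) (g : (R → Bool) → ℝ) (hg : ∀ w, |g w| ≤ 1)
    (h0 : ∑ w, g w = 0) (s a : ℝ) (hs : 0 < s) (ha : a ≤ s ^ 2 / (2 * n)) :
    ∃ E : Finset (Fin n → R → Bool), (∀ v, v ∈ E ↔ s ≤ ∑ k, g (v k)) ∧
      (E.card : ℝ) ≤ Real.exp (-a) * ((2 : ℝ) ^ (Fintype.card R)) ^ n := by
  have h2 : ∑ _k : Fin n, (1 : ℝ) ^ 2 = n := by
    rw [sum_const, card_univ, Fintype.card_fin, nsmul_eq_mul, one_pow, mul_one]
  have h1 := hoeffding_count (ι := Fin n) (Ω := R → Bool) (fun _ => g) (fun _ => 1)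
    (fun _ => hg) (fun _ => h0) s hs (by rw [h2]; exact_mod_cast hn)
  rw [h2] at h1
  have h3 : (Fintype.card (R → Bool) : ℝ) = 2 ^ Fintype.card R := by
    rw [Fintype.card_fun, Fintype.card_bool, Nat.cast_pow, Nat.cast_ofNat]
  rw [h3, Fintype.card_fin] at h1
  refine ⟨_, fun v => ?_, h1.trans (mul_le_mul_of_nonneg_right
    (Real.exp_le_exp.2 (neg_le_neg ha)) (by positivity))⟩
  rw [mem_filter]
  exact ⟨fun h => h.2, fun h => ⟨mem_univ _, h⟩⟩

open Classical in
/-- One class. Proof. Let `D = |R → Bool| = 2^|R|` and `P = |F| / D ≥ p > 0` (so `F` is nonempty).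
If `v` does not see `F` then one of the following `2 |R| + 1` events happens:
* `E0`: `∑ j, (P - 1_F(v j)) ≥ P n / 2` (that is, at most `P n / 2` columns in `F`);
* `E(i, ±)`: `± ∑ j, 1_F(v j) (bit (v j i) - mean F i) ≥ e P n / 2`.
(Otherwise `|cols v F| > P n / 2 > 0` and the sums are at most `e P n / 2 ≤ e |cols v F|`.)
All the functions are bounded by `1` in absolute value and have sum `0` over `R → Bool`:
`hoeffding_count` with `c = 1`, `∑ c^2 = n`, gives at most `exp (-(P n/2)^2/(2n)) D^n`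
and `exp (-(e P n/2)^2/(2n)) D^n`, both `≤ exp (-(e^2 p^2 n / 8)) D^n` as `e ≤ 1`, `p ≤ P`. -/
theorem bad_card_one (n : ℕ) (hn : 0 < n) (F : Finset (R → Bool)) (p e : ℝ) (hp : 0 < p)
    (he : 0 < e) (he1 : e ≤ 1) (hF : p * (2 : ℝ) ^ (Fintype.card R) ≤ F.card) :
    ((univ.filter fun v : Fin n → R → Bool => ¬ Sees v F e).card : ℝ) ≤
      (2 * (Fintype.card R : ℝ) + 1) * Real.exp (-(e ^ 2 * p ^ 2 * n / 8)) *
        ((2 : ℝ) ^ (Fintype.card R)) ^ n := by
  have hD : (0 : ℝ) < 2 ^ Fintype.card R := by positivity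
  have hF0 : (0 : ℝ) < F.card := lt_of_lt_of_le (mul_pos hp hD) hF
  obtain ⟨P, hP⟩ : ∃ P : ℝ, P = F.card / 2 ^ Fintype.card R := ⟨_, rfl⟩
  have hpP : p ≤ P := by
    rw [hP, le_div_iff₀ hD]
    exact hF
  have hP0 : 0 < P := hp.trans_le hpP
  have hcardR : Fintype.card (R → Bool) = 2 ^ Fintype.card R := by
    rw [Fintype.card_fun, Fintype.card_bool]
  have hcardle : (F.card : ℝ) ≤ 2 ^ Fintype.card R := by
    have h1 := Finset.card_le_univ F
    rw [hcardR] at h1
    exact_mod_cast h1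
  have hP1 : P ≤ 1 := by
    rw [hP, div_le_one hD]
    exact hcardle
  have hn' : (0 : ℝ) < n := by exact_mod_cast hn
  have hpp : p ^ 2 ≤ P ^ 2 := pow_le_pow_left₀ hp.le hpP 2
  have hee : e ^ 2 ≤ 1 := pow_le_one₀ he.le he1
  have hsumF : ∀ g : (R → Bool) → ℝ, ∑ w, (if w ∈ F then g w else 0) = ∑ w ∈ F, g w := by
    intro g
    rw [← sum_filter]
    congr 1
    ext w
    simp
  -- few columns
  obtain ⟨E0, hE0, hE0c⟩ := cols_hoef n hn (fun w => P - if w ∈ F then 1 else 0) (by
      intro w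
      rw [abs_le]
      split_ifs
      · constructor <;> linarith
      · constructor <;> linarith) (by
      rw [sum_sub_distrib, hsumF (fun _ => 1), sum_const, sum_const, nsmul_eq_mul, nsmul_eq_mul,
        mul_one, card_univ, hcardR, Nat.cast_pow, Nat.cast_ofNat, hP, mul_div_cancel₀ _ hD.ne',
        sub_self]) (P * n / 2) (e ^ 2 * p ^ 2 * n / 8) (by positivity) (by
      have h1 : (P * n / 2) ^ 2 / (2 * n) = P ^ 2 * n / 8 := by
        field_simp
        ring
      rw [h1]
      have h2 : e ^ 2 * p ^ 2 ≤ 1 * P ^ 2 := mul_le_mul hee hpp (by positivity) (by norm_num)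
      have h3 := mul_le_mul_of_nonneg_right h2 hn'.le
      linarith)
  -- a wrong average
  have hE : ∀ q : R × Bool, ∃ E : Finset (Fin n → R → Bool),
      (∀ v, v ∈ E ↔ e * P * n / 2 ≤ ∑ k, (if q.2 then (1 : ℝ) else -1) *
        (if v k ∈ F then bit (v k q.1) - mean F q.1 else 0)) ∧
      (E.card : ℝ) ≤ Real.exp (-(e ^ 2 * p ^ 2 * n / 8)) *
        ((2 : ℝ) ^ (Fintype.card R)) ^ n := by
    intro q
    refine cols_hoef n hn (fun w => (if q.2 then (1 : ℝ) else -1) *
      (if w ∈ F then bit (w q.1) - mean F q.1 else 0)) ?_ ?_ (e * P * n / 2)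
      (e ^ 2 * p ^ 2 * n / 8) (by positivity) ?_
    · intro w
      have h1 := cols_bit (w q.1)
      have h2 := cols_mean F q.1
      rw [abs_le]
      split_ifs <;> constructor <;> linarith
    · rw [← mul_sum, hsumF (fun w => bit (w q.1) - mean F q.1), sum_sub_distrib, sum_const,
        nsmul_eq_mul]
      unfold mean
      rw [mul_div_cancel₀ _ hF0.ne', sub_self, mul_zero]
    · have h1 : (e * P * n / 2) ^ 2 / (2 * n) = e ^ 2 * P ^ 2 * n / 8 := by
        field_simp
        ring
      rw [h1]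
      have h2 := mul_le_mul_of_nonneg_left hpp (sq_nonneg e)
      have h3 := mul_le_mul_of_nonneg_right h2 hn'.le
      linarith
  choose E hEm hEc using hE
  have hsub : (univ.filter fun v : Fin n → R → Bool => ¬ Sees v F e) ⊆
      E0 ∪ univ.biUnion E := by
    intro v hv
    rw [mem_filter] at hv
    by_contra hcon
    apply hv.2
    rw [mem_union, mem_biUnion, not_or] at hcon
    obtain ⟨h1, h2⟩ := hcon
    push Not at h2
    rw [hE0, not_le] at h1
    have hcard : ∑ k : Fin n, (if v k ∈ F then (1 : ℝ) else 0) = (cols v F).card := by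
      rw [← sum_filter, sum_const, nsmul_eq_mul, mul_one]
      rfl
    have h3 : P * n / 2 < (cols v F).card := by
      rw [sum_sub_distrib, hcard, sum_const, card_univ, Fintype.card_fin, nsmul_eq_mul] at h1
      linarith
    refine ⟨?_, fun i => ?_⟩
    · rw [← Finset.card_pos]
      have h4 : (0 : ℝ) < (cols v F).card := lt_trans (by positivity) h3
      exact_mod_cast h4
    · have hs : ∑ k : Fin n, (if v k ∈ F then bit (v k i) - mean F i else 0) =
          ∑ j ∈ cols v F, (bit (v j i) - mean F i) := by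
        rw [← sum_filter]
        rfl
      have h5 := h2 (i, true) (mem_univ _)
      have h6 := h2 (i, false) (mem_univ _)
      rw [hEm, ← mul_sum, hs, if_pos rfl, one_mul, not_le] at h5
      rw [hEm, ← mul_sum, hs, if_neg (by simp), not_le] at h6
      have h7 : e * P * n / 2 ≤ e * (cols v F).card := by
        have h8 := mul_le_mul_of_nonneg_left h3.le he.le
        linarith
      rw [abs_le]
      constructor <;> linarith
  have h1 := (card_le_card hsub).trans ((card_union_le _ _).trans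
    (Nat.add_le_add_left card_biUnion_le _))
  have h2 : (((univ.filter fun v : Fin n → R → Bool => ¬ Sees v F e).card : ℕ) : ℝ) ≤
      (E0.card : ℝ) + ∑ q : R × Bool, ((E q).card : ℝ) := by exact_mod_cast h1
  have h3 : ∑ q : R × Bool, ((E q).card : ℝ) ≤ (2 * (Fintype.card R : ℝ)) *
      (Real.exp (-(e ^ 2 * p ^ 2 * n / 8)) * ((2 : ℝ) ^ (Fintype.card R)) ^ n) := by
    refine (sum_le_sum fun q _ => hEc q).trans (le_of_eq ?_)
    rw [sum_const, nsmul_eq_mul, card_univ, Fintype.card_prod, Fintype.card_bool, Nat.cast_mul,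
      Nat.cast_ofNat, mul_comm (Fintype.card R : ℝ) 2]
  refine h2.trans ((add_le_add hE0c h3).trans (le_of_eq ?_))
  ring

open Classical in
/-- Union bound over a finite set `𝓒` of classes (`Finset.card_biUnion_le` and
`bad_card_one`). -/
theorem bad_card (n : ℕ) (hn : 0 < n) (𝓒 : Finset (Finset (R → Bool))) (p e : ℝ) (hp : 0 < p)
    (he : 0 < e) (he1 : e ≤ 1)
    (hF : ∀ F ∈ 𝓒, p * (2 : ℝ) ^ (Fintype.card R) ≤ F.card) :
    ((univ.filter fun v : Fin n → R → Bool => ∃ F ∈ 𝓒, ¬ Sees v F e).card : ℝ) ≤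
      𝓒.card * (2 * (Fintype.card R : ℝ) + 1) * Real.exp (-(e ^ 2 * p ^ 2 * n / 8)) *
        ((2 : ℝ) ^ (Fintype.card R)) ^ n := by
  have hsub : (univ.filter fun v : Fin n → R → Bool => ∃ F ∈ 𝓒, ¬ Sees v F e) ⊆
      𝓒.biUnion fun F => univ.filter fun v : Fin n → R → Bool => ¬ Sees v F e := by
    intro v hv
    rw [mem_filter] at hv
    obtain ⟨-, F, hF1, hF2⟩ := hv
    rw [mem_biUnion]
    exact ⟨F, hF1, mem_filter.2 ⟨mem_univ _, hF2⟩⟩
  have h1 := (card_le_card hsub).trans card_biUnion_le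
  have h2 : (((univ.filter fun v : Fin n → R → Bool => ∃ F ∈ 𝓒, ¬ Sees v F e).card : ℕ) : ℝ) ≤
      ∑ F ∈ 𝓒, ((univ.filter fun v : Fin n → R → Bool => ¬ Sees v F e).card : ℝ) := by
    exact_mod_cast h1
  refine h2.trans ((sum_le_sum fun F hF1 =>
    bad_card_one n hn F p e hp he he1 (hF F hF1)).trans (le_of_eq ?_))
  rw [sum_const, nsmul_eq_mul]
  ring

end Pool.Agent.KOB
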