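import Pool.Agent.KOB.Good

/-!
# Most matrices have many good sets of columns
-/

set_option autoImplicit false

open Finset

noncomputable section

namespace Pool.Agent.KOB

open Classical in
/-- the good sets of columns -/
def goodSets {N : ℕ} (w : Fin N → Fin N → Bool) (M : ℕ) (η : ℝ) : Finset (Finset (Fin N)) :=
  ((univ : Finset (Fin N)).powersetCard M).filter fun J =>
    ∀ i, ∑ j ∈ J, bit (w i j) ≤ (1 / 2 + η) * M

open Classical in
/-- For most matrices at least half of all sets are good.

Proof. Let `W` be the set of the bad matrices `w` (`2 |goodSets| < C(N, M)`, so more than half of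
all `M`-sets are not good). Double counting of the pairs (w, J), `J` not good for `w`, with
`mat_bad_card`: `|W| C(N, M) / 2 ≤ ∑_J #{w : J not good} ≤ C(N, M) * (1/8) * (2^N)^N`, so
`|W| ≤ 1/4 (2^N)^N`. (`C(N, M) > 0` as `M ≤ N`.) -/
theorem many_good (N M : ℕ) (hM : 0 < M) (hMN : M ≤ N) (η : ℝ) (hη : 0 < η)
    (hsmall : N * Real.exp (-(2 * η ^ 2 * M)) ≤ 1 / 8) :
    ((univ.filter fun w : Fin N → Fin N → Bool =>
      ¬ (N.choose M ≤ 2 * (goodSets w M η).card)).card : ℝ) ≤ 1 / 4 * ((2 : ℝ) ^ N) ^ N := by
  set P : Finset (Finset (Fin N)) := (univ : Finset (Fin N)).powersetCard M with hP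
  set T : ℝ := ((2 : ℝ) ^ N) ^ N with hT
  have hT0 : 0 ≤ T := by positivity
  have hPc : P.card = N.choose M := by
    rw [hP, card_powersetCard, card_univ, Fintype.card_fin]
  have hCpos : (0 : ℝ) < (N.choose M : ℝ) := by
    exact_mod_cast Nat.choose_pos hMN
  set bad : (Fin N → Fin N → Bool) → Finset (Fin N) → Prop :=
    fun w J => ∃ i, (1 / 2 + η) * M < ∑ j ∈ J, bit (w i j) with hbad
  set W : Finset (Fin N → Fin N → Bool) := univ.filter fun w : Fin N → Fin N → Bool =>
      ¬ (N.choose M ≤ 2 * (goodSets w M η).card) with hW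
  -- the number of sets which are not good
  have hsplit : ∀ w : Fin N → Fin N → Bool,
      (goodSets w M η).card + (P.filter fun J => bad w J).card = N.choose M := by
    intro w
    have h1 : goodSets w M η = P.filter fun J => ¬ bad w J := by
      unfold goodSets
      rw [← hP]
      refine filter_congr ?_
      intro J _
      simp only [hbad, not_exists, not_lt]
    rw [h1, ← hPc]
    have h2 := card_filter_add_card_filter_not (s := P) (fun J => bad w J)
    omega
  have hbadW : ∀ w ∈ W, (N.choose M : ℝ) / 2 ≤ ((P.filter fun J => bad w J).card : ℝ) := by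
    intro w hw
    have h1 := (mem_filter.mp hw).2
    have h2 := hsplit w
    have h3 : N.choose M ≤ 2 * (P.filter fun J => bad w J).card := by omega
    have h4 : (N.choose M : ℝ) ≤ 2 * ((P.filter fun J => bad w J).card : ℝ) := by
      exact_mod_cast h3
    linarith
  -- double counting
  have hdc : ∑ w : Fin N → Fin N → Bool, ((P.filter fun J => bad w J).card : ℝ) =
      ∑ J ∈ P, ((univ.filter fun w : Fin N → Fin N → Bool => bad w J).card : ℝ) := by
    have h1 := sum_card_bipartiteAbove_eq_sum_card_bipartiteBelow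
      (s := (univ : Finset (Fin N → Fin N → Bool))) (t := P) (r := fun w J => bad w J)
    unfold bipartiteAbove bipartiteBelow at h1
    exact_mod_cast h1
  have hJ : ∀ J ∈ P, ((univ.filter fun w : Fin N → Fin N → Bool => bad w J).card : ℝ) ≤
      1 / 8 * T := by
    intro J hJ
    have h1 := mat_bad_card N M hM J (mem_powersetCard.mp hJ).2 η hη
    refine le_trans h1 ?_
    exact mul_le_mul_of_nonneg_right hsmall hT0
  have hsumJ : ∑ J ∈ P, ((univ.filter fun w : Fin N → Fin N → Bool => bad w J).card : ℝ) ≤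
      (N.choose M : ℝ) * (1 / 8 * T) := by
    refine le_trans (sum_le_card_nsmul P _ _ hJ) ?_
    rw [hPc, nsmul_eq_mul]
  have hsumW : (W.card : ℝ) * ((N.choose M : ℝ) / 2) ≤
      ∑ w ∈ W, ((P.filter fun J => bad w J).card : ℝ) := by
    have h1 := card_nsmul_le_sum W _ _ hbadW
    rwa [nsmul_eq_mul] at h1
  have hWall : ∑ w ∈ W, ((P.filter fun J => bad w J).card : ℝ) ≤
      ∑ w : Fin N → Fin N → Bool, ((P.filter fun J => bad w J).card : ℝ) :=
    sum_le_sum_of_subset_of_nonneg (subset_univ W) fun _ _ _ => Nat.cast_nonneg _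
  have hfin : (W.card : ℝ) * ((N.choose M : ℝ) / 2) ≤ (N.choose M : ℝ) * (1 / 8 * T) :=
    le_trans hsumW (le_trans hWall (hdc.trans_le hsumJ))
  by_contra hcon
  rw [not_le] at hcon
  have h5 : (N.choose M : ℝ) * (1 / 4 * T) < (N.choose M : ℝ) * (W.card : ℝ) :=
    mul_lt_mul_of_pos_left hcon hCpos
  nlinarith

end Pool.Agent.KOB
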