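import Pool.Agent.KOB.Base

/-!
# Patterns: cardinality and means
-/

set_option autoImplicit false

open Finset

noncomputable section

namespace Pool.Agent.KOB

variable {R : Type} [Fintype R] [DecidableEq R]

private theorem mem_pat_Pat {P Q : Finset R} {a b : ℕ} {v : R → Bool} :
    v ∈ pat P Q a b ↔ (P.filter fun i => v i = true).card = a ∧
      (Q.filter fun i => v i = true).card = b := by
  unfold pat
  rw [mem_filter]
  exact ⟨fun h => h.2, fun h => ⟨mem_univ _, h⟩⟩

/-- The number of patterns. Proof. `v` corresponds to the triple (ones in `P`, ones in `Q`, ones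
outside `P ∪ Q`): `C(|P|, a) * C(|Q|, b) * 2^(|R| - |P| - |Q|)`. -/
theorem pat_card (P Q : Finset R) (hPQ : Disjoint P Q) (a b : ℕ) :
    (pat P Q a b).card * 2 ^ (P.card + Q.card) =
      P.card.choose a * Q.card.choose b * 2 ^ (Fintype.card R) := by
  have h1 : (pat P Q a b).card =
      (powersetCard a P ×ˢ (powersetCard b Q ×ˢ ((P ∪ Q)ᶜ).powerset)).card := by
    refine Finset.card_nbij'
      (fun v => (P.filter fun i => v i = true, Q.filter fun i => v i = true,
        ((P ∪ Q)ᶜ).filter fun i => v i = true))
      (fun t => fun i => decide (i ∈ t.1 ∨ i ∈ t.2.1 ∨ i ∈ t.2.2)) ?_ ?_ ?_ ?_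
    · intro v hv
      rw [mem_coe] at hv ⊢
      rw [mem_pat_Pat] at hv
      simp only [mem_product, mem_powersetCard, mem_powerset]
      exact ⟨⟨filter_subset _ _, hv.1⟩, ⟨filter_subset _ _, hv.2⟩, filter_subset _ _⟩
    · rintro ⟨A, B, C⟩ ht
      rw [mem_coe] at ht ⊢
      simp only [mem_product, mem_powersetCard, mem_powerset] at ht
      obtain ⟨⟨hA, hAc⟩, ⟨hB, hBc⟩, hC⟩ := ht
      rw [mem_pat_Pat]
      constructor
      · rw [← hAc]
        congr 1
        ext i
        simp only [mem_filter, decide_eq_true_eq]
        constructor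
        · rintro ⟨hi, h | h | h⟩
          · exact h
          · exact absurd (hB h) (disjoint_left.1 hPQ hi)
          · exact absurd (mem_union_left _ hi) (mem_compl.1 (hC h))
        · intro h
          exact ⟨hA h, Or.inl h⟩
      · rw [← hBc]
        congr 1
        ext i
        simp only [mem_filter, decide_eq_true_eq]
        constructor
        · rintro ⟨hi, h | h | h⟩
          · exact absurd hi (disjoint_left.1 hPQ (hA h))
          · exact h
          · exact absurd (mem_union_right _ hi) (mem_compl.1 (hC h))
        · intro h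
          exact ⟨hB h, Or.inr (Or.inl h)⟩
    · intro v hv
      funext i
      simp only [mem_filter, mem_compl, mem_union]
      by_cases h : v i = true
      · rw [h, decide_eq_true_eq]
        tauto
      · have h' : v i = false := by simpa using h
        rw [h', decide_eq_false_iff_not]
        tauto
    · rintro ⟨A, B, C⟩ ht
      rw [mem_coe] at ht
      simp only [mem_product, mem_powersetCard, mem_powerset] at ht
      obtain ⟨⟨hA, hAc⟩, ⟨hB, hBc⟩, hC⟩ := ht
      simp only [Prod.mk.injEq, decide_eq_true_eq]
      refine ⟨?_, ?_, ?_⟩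
      · ext i
        simp only [mem_filter]
        constructor
        · rintro ⟨hi, h | h | h⟩
          · exact h
          · exact absurd (hB h) (disjoint_left.1 hPQ hi)
          · exact absurd (mem_union_left _ hi) (mem_compl.1 (hC h))
        · intro h
          exact ⟨hA h, Or.inl h⟩
      · ext i
        simp only [mem_filter]
        constructor
        · rintro ⟨hi, h | h | h⟩
          · exact absurd hi (disjoint_left.1 hPQ (hA h))
          · exact h
          · exact absurd (mem_union_right _ hi) (mem_compl.1 (hC h))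
        · intro h
          exact ⟨hB h, Or.inr (Or.inl h)⟩
      · ext i
        simp only [mem_filter, mem_compl]
        constructor
        · rintro ⟨hi, h | h | h⟩
          · exact absurd (mem_union_left _ (hA h)) hi
          · exact absurd (mem_union_right _ (hB h)) hi
          · exact h
        · intro h
          exact ⟨mem_compl.1 (hC h), Or.inr (Or.inr h)⟩
  have h2 : ((P ∪ Q)ᶜ).card + (P.card + Q.card) = Fintype.card R := by
    rw [← card_union_of_disjoint hPQ, card_compl, Nat.sub_add_cancel (card_le_univ _)]
  rw [h1, card_product, card_product, card_powersetCard, card_powersetCard, card_powerset, ← h2,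
    pow_add]
  ring

/-- The mean on `P` is `a / |P|`. Proof. The sum over `v` of `bit (v i)` is the same for all
`i ∈ P`: the bijection `v ↦ v ∘ Equiv.swap i i'` maps `pat P Q a b` to itself for `i, i' ∈ P`
(`P` and `Q` are disjoint). The sum over `i ∈ P` is `∑ v, a`. -/
theorem pat_mean_left (P Q : Finset R) (hPQ : Disjoint P Q) (a b : ℕ) (i : R) (hi : i ∈ P) :
    (∑ v ∈ pat P Q a b, bit (v i)) * P.card = a * (pat P Q a b).card := by
  have hswap : ∀ i' ∈ P, ∀ v ∈ pat P Q a b, v ∘ (Equiv.swap i i') ∈ pat P Q a b := by
    intro i' hi' v hv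
    rw [mem_pat_Pat] at hv ⊢
    have hP : ∀ j ∈ P, Equiv.swap i i' j ∈ P := by
      intro j hj
      by_cases h1 : j = i
      · rw [h1, Equiv.swap_apply_left]
        exact hi'
      · by_cases h2 : j = i'
        · rw [h2, Equiv.swap_apply_right]
          exact hi
        · rw [Equiv.swap_apply_of_ne_of_ne h1 h2]
          exact hj
    constructor
    · rw [← hv.1]
      refine Finset.card_nbij' (Equiv.swap i i') (Equiv.swap i i') ?_ ?_ ?_ ?_
      · intro j hj
        rw [mem_coe, mem_filter] at hj ⊢
        exact ⟨hP j hj.1, hj.2⟩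
      · intro j hj
        rw [mem_coe, mem_filter] at hj ⊢
        refine ⟨hP j hj.1, ?_⟩
        rw [Function.comp_apply, Equiv.swap_apply_self]
        exact hj.2
      · intro j _
        exact Equiv.swap_apply_self _ _ _
      · intro j _
        exact Equiv.swap_apply_self _ _ _
    · rw [← hv.2]
      congr 1
      refine filter_congr fun j hj => ?_
      have h1 : j ≠ i := fun h => disjoint_left.1 hPQ hi (h ▸ hj)
      have h2 : j ≠ i' := fun h => disjoint_left.1 hPQ hi' (h ▸ hj)
      rw [Function.comp_apply, Equiv.swap_apply_of_ne_of_ne h1 h2]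
  have hinv : ∀ (i' : R) (v : R → Bool), (v ∘ (Equiv.swap i i')) ∘ (Equiv.swap i i') = v := by
    intro i' v
    funext j
    rw [Function.comp_apply, Function.comp_apply, Equiv.swap_apply_self]
  have hsame : ∀ i' ∈ P, ∑ v ∈ pat P Q a b, bit (v i') = ∑ v ∈ pat P Q a b, bit (v i) := by
    intro i' hi'
    refine Finset.sum_nbij' (fun v => v ∘ (Equiv.swap i i')) (fun v => v ∘ (Equiv.swap i i'))
      (hswap i' hi') (hswap i' hi') (fun v _ => hinv i' v) (fun v _ => hinv i' v) ?_
    intro v _
    rw [Function.comp_apply, Equiv.swap_apply_left]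
  have hsum : ∑ i' ∈ P, ∑ v ∈ pat P Q a b, bit (v i') = a * (pat P Q a b).card := by
    rw [sum_comm]
    have h1 : ∀ v ∈ pat P Q a b, ∑ i' ∈ P, bit (v i') = (a : ℝ) := by
      intro v hv
      rw [mem_pat_Pat] at hv
      unfold bit
      rw [← sum_filter, sum_const, nsmul_eq_mul, mul_one, hv.1]
    rw [sum_congr rfl h1, sum_const, nsmul_eq_mul, mul_comm]
  rw [← hsum, sum_congr rfl hsame, sum_const, nsmul_eq_mul, mul_comm]

/-- The mean on `Q` is `b / |Q|`. Proof. `pat P Q a b = pat Q P b a` and `pat_mean_left`. -/
theorem pat_mean_right (P Q : Finset R) (hPQ : Disjoint P Q) (a b : ℕ) (i : R) (hi : i ∈ Q) :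
    (∑ v ∈ pat P Q a b, bit (v i)) * Q.card = b * (pat P Q a b).card := by
  have h : pat P Q a b = pat Q P b a := by
    ext v
    rw [mem_pat_Pat, mem_pat_Pat, and_comm]
  rw [h]
  exact pat_mean_left Q P hPQ.symm b a i hi

/-- The mean outside `P ∪ Q` is `1 / 2`. Proof. The involution `v ↦ Function.update v i (!v i)`
preserves `pat P Q a b`, and `bit b + bit (!b) = 1`. -/
theorem pat_mean_off (P Q : Finset R) (a b : ℕ) (i : R) (hP : i ∉ P) (hQ : i ∉ Q) :
    2 * ∑ v ∈ pat P Q a b, bit (v i) = (pat P Q a b).card := by
  have hupd : ∀ v ∈ pat P Q a b, Function.update v i (!v i) ∈ pat P Q a b := by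
    intro v hv
    rw [mem_pat_Pat] at hv ⊢
    constructor
    · rw [← hv.1]
      congr 1
      refine filter_congr fun j hj => ?_
      have h1 : j ≠ i := fun h => hP (h ▸ hj)
      rw [Function.update_of_ne h1]
    · rw [← hv.2]
      congr 1
      refine filter_congr fun j hj => ?_
      have h1 : j ≠ i := fun h => hQ (h ▸ hj)
      rw [Function.update_of_ne h1]
  have hinv : ∀ v ∈ pat P Q a b, Function.update (Function.update v i (!v i)) i
      (!(Function.update v i (!v i)) i) = v := by
    intro v _
    rw [Function.update_self, Function.update_idem, Bool.not_not, Function.update_eq_self]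
  have hsame : ∑ v ∈ pat P Q a b, bit (v i) = ∑ v ∈ pat P Q a b, bit (!v i) := by
    refine Finset.sum_nbij' (fun v => Function.update v i (!v i))
      (fun v => Function.update v i (!v i)) hupd hupd hinv hinv ?_
    intro v _
    rw [Function.update_self, Bool.not_not]
  have hbit : ∀ c : Bool, bit c + bit (!c) = 1 := by
    intro c
    unfold bit
    cases c <;> simp
  calc 2 * ∑ v ∈ pat P Q a b, bit (v i)
      = ∑ v ∈ pat P Q a b, bit (v i) + ∑ v ∈ pat P Q a b, bit (!v i) := by
        rw [← hsame]
        ring
    _ = ∑ v ∈ pat P Q a b, (bit (v i) + bit (!v i)) := sum_add_distrib.symm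
    _ = ∑ v ∈ pat P Q a b, (1 : ℝ) := sum_congr rfl fun v _ => hbit (v i)
    _ = (pat P Q a b).card := by
        rw [sum_const, nsmul_eq_mul, mul_one]

end Pool.Agent.KOB
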