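import Pool.Agent.KOB.Bin
import Pool.Agent.KOB.Pat
import Pool.Agent.KOB.Cols
import Pool.Agent.KOB.Many

/-!
# Rows which see all the classes
-/

set_option autoImplicit false

open Finset

noncomputable section

namespace Pool.Agent.KOB

/-- The classes for the column player are large.

Proof. `pat_card` with `Q = ∅`, `b = 0`: `|pat| * 4^q = C(2q, q+d) 2^N`; `choose_lower`:
`C(2q, q+d) ≥ 4^q exp (-(2 d^2/q)) / (2 √q)` and `√q ≤ q`. -/
theorem pat_large_col {N : ℕ} (q d : ℕ) (hq : 0 < q) (hd : 4 * d ≤ q) (H : Finset (Fin N))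
    (hH : H.card = 2 * q) :
    Real.exp (-(2 * (d : ℝ) ^ 2 / q)) / (2 * q) * (2 : ℝ) ^ (Fintype.card (Fin N)) ≤
      (pat H ∅ (q + d) 0).card := by
  have h1 := pat_card H ∅ (disjoint_empty_right H) (q + d) 0
  rw [card_empty, add_zero, Nat.choose_self, mul_one, hH] at h1
  have h2 : (((pat H ∅ (q + d) 0).card : ℕ) : ℝ) * (4 : ℝ) ^ q =
      ((2 * q).choose (q + d) : ℝ) * (2 : ℝ) ^ (Fintype.card (Fin N)) := by
    have h3 := congrArg (Nat.cast : ℕ → ℝ) h1
    push_cast at h3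
    rw [pow_mul] at h3
    norm_num at h3 ⊢
    exact h3
  have h3 := choose_lower q d hq hd
  have hq1 : (1 : ℝ) ≤ q := by exact_mod_cast hq
  have hsq : Real.sqrt q ≤ q := by
    rw [Real.sqrt_le_left (by linarith)]
    nlinarith
  set E : ℝ := Real.exp (-(2 * (d : ℝ) ^ 2 / q)) with hE
  set T : ℝ := (2 : ℝ) ^ (Fintype.card (Fin N)) with hT
  have hT0 : 0 < T := by positivity
  have h4 : (0 : ℝ) < (4 : ℝ) ^ q := by positivity
  have hC : (0 : ℝ) ≤ ((2 * q).choose (q + d) : ℝ) := Nat.cast_nonneg _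
  have h5 : (4 : ℝ) ^ q * E ≤ 2 * q * ((2 * q).choose (q + d) : ℝ) := by
    refine h3.trans ?_
    exact mul_le_mul_of_nonneg_right (by linarith) hC
  rw [div_mul_eq_mul_div, div_le_iff₀ (by positivity)]
  refine le_of_mul_le_mul_right ?_ h4
  calc E * T * (4 : ℝ) ^ q = ((4 : ℝ) ^ q * E) * T := by ring
    _ ≤ (2 * q * ((2 * q).choose (q + d) : ℝ)) * T := mul_le_mul_of_nonneg_right h5 hT0.le
    _ = (((2 * q).choose (q + d) : ℝ) * T) * (2 * q) := by ring
    _ = ((pat H ∅ (q + d) 0).card : ℝ) * (4 : ℝ) ^ q * (2 * q) := by rw [h2]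
    _ = ((pat H ∅ (q + d) 0).card : ℝ) * (2 * q) * (4 : ℝ) ^ q := by ring

open Classical in
/-- There are `N` rows which see all the classes and have many good sets of columns.

Proof. `𝓒` = `{univ}` and the image of `powersetCard (2q) univ` under `H ↦ pat H ∅ (q + d) 0`;
`|𝓒| ≤ 1 + C(N, 2q) ≤ 1 + N^(2q)` (`Nat.choose_le_pow`). `bad_card` with `n = N`,
`p = exp (..)/(2q) ≤ 1` (`pat_large_col`; for `univ` the class has `2^N ≥ p 2^N` elements): fewer
than `1/2 (2^N)^N` matrices `w` are bad, and by `many_good` (`η = e`) at most `1/4 (2^N)^N` do not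
have many good sets. So one of the `(2^N)^N` matrices is good for both. -/
theorem exists_rows {N : ℕ} (hN : 0 < N) (M q d : ℕ) (hq : 0 < q) (hd : 4 * d ≤ q)
    (hM : 0 < M) (hMN : M ≤ N) (e : ℝ) (he : 0 < e) (he1 : e ≤ 1)
    (hgood : N * Real.exp (-(2 * e ^ 2 * M)) ≤ 1 / 8)
    (hsmall : (1 + (N : ℝ) ^ (2 * q)) * (2 * N + 1) *
      Real.exp (-(e ^ 2 * (Real.exp (-(2 * (d : ℝ) ^ 2 / q)) / (2 * q)) ^ 2 * N / 8)) < 1 / 2) :
    ∃ w : Fin N → Fin N → Bool, Sees w univ e ∧
      (∀ H : Finset (Fin N), H.card = 2 * q → Sees w (pat H ∅ (q + d) 0) e) ∧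
      N.choose M ≤ 2 * (goodSets w M e).card := by
  set p : ℝ := Real.exp (-(2 * (d : ℝ) ^ 2 / q)) / (2 * q) with hp
  have hq1 : (1 : ℝ) ≤ q := by exact_mod_cast hq
  have hp0 : 0 < p := by positivity
  have hp1 : p ≤ 1 := by
    rw [hp, div_le_one (by positivity)]
    have h1 : Real.exp (-(2 * (d : ℝ) ^ 2 / q)) ≤ 1 := by
      rw [Real.exp_le_one_iff]
      have h2 : 0 ≤ 2 * (d : ℝ) ^ 2 / q := by positivity
      linarith
    linarith
  set 𝓒 : Finset (Finset (Fin N → Bool)) := insert univ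
    (((univ : Finset (Fin N)).powersetCard (2 * q)).image fun H => pat H ∅ (q + d) 0) with h𝓒
  have hcard : (𝓒.card : ℝ) ≤ 1 + (N : ℝ) ^ (2 * q) := by
    have h1 : 𝓒.card ≤ 1 + N ^ (2 * q) := by
      refine (card_insert_le _ _).trans ?_
      rw [add_comm]
      refine Nat.add_le_add_left ?_ 1
      refine card_image_le.trans ?_
      rw [card_powersetCard, card_univ, Fintype.card_fin]
      exact Nat.choose_le_pow _ _
    exact_mod_cast h1
  have hF : ∀ F ∈ 𝓒, p * (2 : ℝ) ^ (Fintype.card (Fin N)) ≤ F.card := by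
    intro F hF
    rw [h𝓒, mem_insert, mem_image] at hF
    rcases hF with rfl | ⟨H, hH, rfl⟩
    · rw [card_univ, Fintype.card_fun, Fintype.card_bool]
      push_cast
      have h2 : (0 : ℝ) < (2 : ℝ) ^ (Fintype.card (Fin N)) := by positivity
      nlinarith
    · exact pat_large_col q d hq hd H (mem_powersetCard.1 hH).2
  have b1 := bad_card N hN 𝓒 p e hp0 he he1 hF
  have b2 := many_good N M hM hMN e he hgood
  rw [Fintype.card_fin] at b1
  set T : ℝ := ((2 : ℝ) ^ N) ^ N with hT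
  have hT0 : 0 < T := by positivity
  set X := Real.exp (-(e ^ 2 * p ^ 2 * N / 8)) with hX
  have hX0 : 0 < X := Real.exp_pos _
  have b1' : ((univ.filter fun v : Fin N → Fin N → Bool => ∃ F ∈ 𝓒, ¬ Sees v F e).card : ℝ) <
      1 / 2 * T := by
    refine b1.trans_lt ?_
    refine mul_lt_mul_of_pos_right (lt_of_le_of_lt ?_ hsmall) hT0
    refine mul_le_mul_of_nonneg_right ?_ hX0.le
    exact mul_le_mul_of_nonneg_right hcard (by positivity)
  by_contra hcon
  push Not at hcon
  have hcov : (univ : Finset (Fin N → Fin N → Bool)) ⊆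
      (univ.filter fun v : Fin N → Fin N → Bool => ∃ F ∈ 𝓒, ¬ Sees v F e) ∪
      (univ.filter fun w : Fin N → Fin N → Bool =>
        ¬ (N.choose M ≤ 2 * (goodSets w M e).card)) := by
    intro w _
    rw [mem_union, mem_filter, mem_filter]
    by_cases h1 : ∃ F ∈ 𝓒, ¬ Sees w F e
    · exact Or.inl ⟨mem_univ _, h1⟩
    · push Not at h1
      refine Or.inr ⟨mem_univ _, ?_⟩
      rw [not_le]
      refine hcon w (h1 univ (mem_insert_self _ _)) fun H hH => h1 _ ?_
      exact mem_insert_of_mem (mem_image.2 ⟨H, mem_powersetCard.2 ⟨subset_univ _, hH⟩, rfl⟩)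
  have hc := (card_le_card hcov).trans (card_union_le _ _)
  have hc' : (Fintype.card (Fin N → Fin N → Bool) : ℝ) ≤
      ((univ.filter fun v : Fin N → Fin N → Bool => ∃ F ∈ 𝓒, ¬ Sees v F e).card : ℝ) +
      ((univ.filter fun w : Fin N → Fin N → Bool =>
        ¬ (N.choose M ≤ 2 * (goodSets w M e).card)).card : ℝ) := by
    rw [card_univ] at hc
    exact_mod_cast hc
  have hT' : (Fintype.card (Fin N → Fin N → Bool) : ℝ) = T := by
    rw [Fintype.card_fun, Fintype.card_fun, Fintype.card_bool, Fintype.card_fin]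
    push_cast
    rfl
  rw [hT'] at hc'
  linarith

end Pool.Agent.KOB
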