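import Pool.Agent.KOB.Pat
import Pool.Agent.KOB.Cols
import Pool.Agent.KOB.Col
import Pool.Agent.KOB.Many

/-!
# The column player must spread
-/

set_option autoImplicit false

open Finset

noncomputable section

namespace Pool.Agent.KOB

/-- A class with mean at least `m` in the entry `j`. -/
private theorem rows_sees {N : ℕ} (w : Fin N → Fin N → Bool) (F : Finset (Fin N → Bool)) (e : ℝ)
    (hF : Sees w F e) (j : Fin N) (m : ℝ) (hm : m * F.card ≤ ∑ v ∈ F, bit (v j)) :
    (m - e) * (cols w F).card ≤ ∑ i ∈ cols w F, bit (w i j) := by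
  obtain ⟨⟨i, hi⟩, h1⟩ := hF
  have hF0 : (0 : ℝ) < F.card := by
    have h2 : w i ∈ F := by
      unfold cols at hi
      exact (mem_filter.mp hi).2
    exact_mod_cast Finset.card_pos.mpr ⟨_, h2⟩
  have hmean : m ≤ mean F j := by
    unfold mean
    rw [le_div_iff₀ hF0]
    exact hm
  have h3 := (abs_le.mp (h1 j)).1
  rw [sum_sub_distrib, sum_const, nsmul_eq_mul] at h3
  have h4 := mul_le_mul_of_nonneg_left hmean (Nat.cast_nonneg (α := ℝ) (cols w F).card)
  linarith

/-- The rows `w` give a matrix in which the column player must spread, for every good set `J`.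

Proof. `col_spread` with `A i j = bit (w i j)`, `η = e`, `τ = d/(2q)`, `h = 2q`. `hJg`, `hJ`: `J` is
in `goodSets w M e`. `hall`: `Sees w univ e`, `cols w univ = univ`, `mean univ j = 1/2`
(`pat_mean_off` for `univ = pat ∅ ∅ 0 0`): `∑ i, (A i j - 1/2) ≥ - e N`. `hH`: for `H` with
`|H| = 2q` take `I = cols w (pat H ∅ (q+d) 0)`, nonempty;
`∑_(i ∈ I) A i j ≥ (mean F j - e) |I|`, and the means are `1/2` off `H` (`pat_mean_off`) and
`(q+d)/(2q) = 1/2 + d/(2q)` on `H` (`pat_mean_left`). -/
theorem rows_spread {N : ℕ} (hN : 0 < N) (M q d : ℕ) (hq : 0 < q)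
    (hM : 0 < M) (hqM : 2 * q ≤ M) (e : ℝ) (he : 0 < e) (he5 : e + 4 * e ≤ 1 / 8)
    (hed : e + 4 * e < 3 / 4 * ((d : ℝ) / (2 * q))) (w : Fin N → Fin N → Bool)
    (hall : Sees w univ e)
    (hw : ∀ H : Finset (Fin N), H.card = 2 * q → Sees w (pat H ∅ (q + d) 0) e)
    (J : Finset (Fin N)) (hJ : J ∈ goodSets w M e) (x y : Fin N → ℝ)
    (h : IsNE (fun i j => bit (w i j)) (bonus (fun i j => bit (w i j)) J) e x y) :
    2 * q ≤ (J.filter fun j => 1 / (8 * (M : ℝ)) ≤ y j).card := by
  have hJ' := hJ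
  unfold goodSets at hJ'
  rw [mem_filter, mem_powersetCard] at hJ'
  obtain ⟨⟨_, hJc⟩, hJg⟩ := hJ'
  have hq' : (0 : ℝ) < q := by exact_mod_cast hq
  refine col_spread (fun i j => bit (w i j)) e e ((d : ℝ) / (2 * q)) he he.le he5 hed J M (2 * q)
    hM hJc hqM (by rw [Fintype.card_fin]; exact hN) hJg ?_ ?_ x y h
  · intro j
    have h1 := rows_sees w univ e hall j (1 / 2) (by
      have h2 : pat (∅ : Finset (Fin N)) ∅ 0 0 = univ := by
        unfold pat
        ext v
        simp
      have h3 := pat_mean_off (∅ : Finset (Fin N)) ∅ 0 0 j (notMem_empty j) (notMem_empty j)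
      rw [h2] at h3
      linarith)
    have h4 : cols w univ = univ := by
      unfold cols
      ext i
      simp
    rw [h4, card_univ] at h1
    exact h1
  · intro H _ hHc
    refine ⟨cols w (pat H ∅ (q + d) 0), (hw H hHc).1, ?_, ?_⟩
    · intro j hj
      exact rows_sees w _ e (hw H hHc) j (1 / 2) (by
        have h3 := pat_mean_off H (∅ : Finset (Fin N)) (q + d) 0 j hj (notMem_empty j)
        linarith)
    · intro j hj
      exact rows_sees w _ e (hw H hHc) j (1 / 2 + (d : ℝ) / (2 * q)) (by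
        have h3 := pat_mean_left H (∅ : Finset (Fin N)) (disjoint_empty_right H) (q + d) 0 j hj
        rw [hHc] at h3
        push_cast at h3
        have h5 : (2 * (q : ℝ)) * ∑ v ∈ pat H ∅ (q + d) 0, bit (v j) =
            (2 * (q : ℝ)) * ((1 / 2 + (d : ℝ) / (2 * q)) *
              ((pat H (∅ : Finset (Fin N)) (q + d) 0).card : ℝ)) := by
          have h6 : (2 * (q : ℝ)) * (1 / 2 + (d : ℝ) / (2 * q)) = q + d := by
            field_simp
          rw [← mul_assoc, h6]
          linarith
        exact (mul_left_cancel₀ (by positivity) h5).ge)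

end Pool.Agent.KOB
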