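import Pool.Agent.KOB.Count

/-!
# Averaging over the hidden sets
-/

set_option autoImplicit false

open Finset MeasureTheory

noncomputable section

namespace Pool.Agent.KOB

/-- the sub-probability vectors with at least `h` entries `≥ t` in `S` -/
def Heavy {N : ℕ} (S : Finset (Fin N)) (h : ℕ) (t : ℝ) : Set (Fin N → ℝ) :=
  {w | (∀ i, 0 ≤ w i) ∧ ∑ i, w i ≤ 1 ∧ h ≤ (S.filter fun i => t ≤ w i).card}

/-- Proof. A finite intersection / finite union (over the subsets `T` of `S` with `h ≤ |T|`) of sets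
`{w | t ≤ w i}`, `{w | 0 ≤ w i}`, `{w | ∑ w ≤ 1}` (`measurableSet_le`): the last condition holds
iff there is `T ⊆ S` with `h ≤ |T|` and `t ≤ w i` for all `i ∈ T`. -/
theorem heavy_measurable {N : ℕ} (S : Finset (Fin N)) (h : ℕ) (t : ℝ) :
    MeasurableSet (Heavy S h t) := by
  have h1 : MeasurableSet {w : Fin N → ℝ | ∀ i, 0 ≤ w i} := by
    have : {w : Fin N → ℝ | ∀ i, 0 ≤ w i} = ⋂ i, {w | 0 ≤ w i} := by
      ext w
      simp
    rw [this]
    exact MeasurableSet.iInter fun i => measurableSet_le measurable_const (measurable_pi_apply i)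
  have h2 : MeasurableSet {w : Fin N → ℝ | ∑ i, w i ≤ 1} :=
    measurableSet_le (Finset.measurable_sum _ fun i _ => measurable_pi_apply i) measurable_const
  have h3 : MeasurableSet {w : Fin N → ℝ | h ≤ (S.filter fun i => t ≤ w i).card} := by
    have hf : Measurable fun w : Fin N → ℝ => (S.filter fun i => t ≤ w i).card := by
      simp only [Finset.card_filter]
      refine Finset.measurable_sum _ fun i _ => ?_
      exact Measurable.ite (measurableSet_le measurable_const (measurable_pi_apply i))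
        measurable_const measurable_const
    exact measurableSet_le measurable_const hf
  have h4 : Heavy S h t = {w : Fin N → ℝ | ∀ i, 0 ≤ w i} ∩ ({w : Fin N → ℝ | ∑ i, w i ≤ 1} ∩
      {w : Fin N → ℝ | h ≤ (S.filter fun i => t ≤ w i).card}) := by
    ext w
    simp only [Heavy, Set.mem_setOf_eq, Set.mem_inter_iff]
  rw [h4]
  exact h1.inter (h2.inter h3)

open Classical in
/-- Averaging. Proof. Otherwise `δ * |s| < ∑_(i ∈ s) μ (E i) = ∫ ∑_(i ∈ s) 1_(E i) dμ ≤ δ |s|`
(`lintegral_finset_sum`, `lintegral_indicator_one`). -/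
theorem exists_le_of_count {X : Type} [MeasurableSpace X] (μ : Measure X)
    [IsProbabilityMeasure μ] {ι : Type} (s : Finset ι) (hs : s.Nonempty) (E : ι → Set X)
    (hE : ∀ i ∈ s, MeasurableSet (E i)) (δ : ℝ) (hδ : 0 ≤ δ)
    (hcount : ∀ w, ((s.filter fun i => w ∈ E i).card : ℝ) ≤ δ * s.card) :
    ∃ i ∈ s, μ (E i) ≤ ENNReal.ofReal δ := by
  by_contra hcon
  push Not at hcon
  have h1 : ∑ _i ∈ s, ENNReal.ofReal δ < ∑ i ∈ s, μ (E i) :=
    ENNReal.sum_lt_sum_of_nonempty hs hcon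
  have h2 : ∑ i ∈ s, μ (E i) = ∫⁻ w, ∑ i ∈ s, (E i).indicator 1 w ∂μ := by
    rw [lintegral_finsetSum']
    · refine Finset.sum_congr rfl fun i hi => ?_
      rw [lintegral_indicator_one (hE i hi)]
    · intro i hi
      exact (measurable_one.indicator (hE i hi)).aemeasurable
  have h3 : ∀ w, ∑ i ∈ s, (E i).indicator (1 : X → ENNReal) w ≤ ENNReal.ofReal (δ * s.card) := by
    intro w
    have h4 : ∑ i ∈ s, (E i).indicator (1 : X → ENNReal) w =
        ((s.filter fun i => w ∈ E i).card : ENNReal) := by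
      simp only [Set.indicator_apply, Pi.one_apply]
      rw [← Finset.sum_filter, Finset.sum_const, nsmul_eq_mul, mul_one]
    rw [h4, ← ENNReal.ofReal_natCast]
    exact ENNReal.ofReal_le_ofReal (hcount w)
  have h5 : ∑ i ∈ s, μ (E i) ≤ ENNReal.ofReal (δ * s.card) := by
    rw [h2]
    calc ∫⁻ w, ∑ i ∈ s, (E i).indicator 1 w ∂μ ≤ ∫⁻ _w, ENNReal.ofReal (δ * s.card) ∂μ :=
          lintegral_mono h3
      _ = ENNReal.ofReal (δ * s.card) := by simp
  have h6 : ∑ _i ∈ s, ENNReal.ofReal δ = ENNReal.ofReal (δ * s.card) := by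
    rw [Finset.sum_const, nsmul_eq_mul, mul_comm δ, ENNReal.ofReal_mul (Nat.cast_nonneg _),
      ENNReal.ofReal_natCast]
  rw [h6] at h1
  exact absurd h5 (not_le.2 h1)

/-- Some hidden set is seen with small probability.

Proof. Let `𝒮` be the set of the `m`-sets and `w` a point. The number of `S ∈ 𝒢` with
`w ∈ Heavy S h t` is `0` or `w ≥ 0`, `∑ w ≤ 1`, and then `G = {i : t ≤ w i}` has `t |G| ≤ 1`, so
`|G| ≤ K`; `{i ∈ S : t ≤ w i} = S ∩ G`, and by `count_sets` the number is at most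
`2^K (m/N)^h C(N, m) ≤ 2 * (2^K (m/N)^h) |𝒢|`. Now `exists_le_of_count`
(`𝒢` is nonempty as `C(N, m) > 0`). -/
theorem exists_light {N m h K : ℕ} (t : ℝ) (ht : 0 < t) (hK : 1 ≤ K * t) (hN : 0 < N)
    (hm : m ≤ N) (hh : h ≤ m) (𝒢 : Finset (Finset (Fin N)))
    (h𝒢 : 𝒢 ⊆ (univ : Finset (Fin N)).powersetCard m) (hc : N.choose m ≤ 2 * 𝒢.card)
    (μ : Measure (Fin N → ℝ)) [IsProbabilityMeasure μ] :
    ∃ S ∈ 𝒢, μ (Heavy S h t) ≤
      ENNReal.ofReal (2 * ((2 : ℝ) ^ K * ((m : ℝ) / N) ^ h)) := by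
  classical
  have hne : 𝒢.Nonempty := by
    rw [← Finset.card_pos]
    have := Nat.choose_pos hm
    omega
  refine exists_le_of_count μ 𝒢 hne (fun S => Heavy S h t) (fun S _ => heavy_measurable S h t)
    (2 * ((2 : ℝ) ^ K * ((m : ℝ) / N) ^ h)) (by positivity) fun w => ?_
  by_cases hw : (∀ i, 0 ≤ w i) ∧ ∑ i, w i ≤ 1
  · obtain ⟨hw0, hw1⟩ := hw
    set G : Finset (Fin N) := univ.filter fun i => t ≤ w i with hG
    have hGK : G.card ≤ K := by
      have h1 : (G.card : ℝ) * t ≤ 1 := by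
        calc (G.card : ℝ) * t = ∑ _i ∈ G, t := by rw [Finset.sum_const, nsmul_eq_mul]
          _ ≤ ∑ i ∈ G, w i := Finset.sum_le_sum fun i hi => (Finset.mem_filter.1 hi).2
          _ ≤ ∑ i, w i := Finset.sum_le_univ_sum_of_nonneg hw0
          _ ≤ 1 := hw1
      have h2 : (G.card : ℝ) * t ≤ K * t := h1.trans hK
      have h3 : (G.card : ℝ) ≤ K := le_of_mul_le_mul_right h2 ht
      exact_mod_cast h3
    have hsub : (𝒢.filter fun S => w ∈ Heavy S h t) ⊆
        ((univ : Finset (Fin N)).powersetCard m).filter fun S => h ≤ (S ∩ G).card := by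
      intro S hS
      rw [Finset.mem_filter] at hS ⊢
      refine ⟨h𝒢 hS.1, ?_⟩
      have h1 : (S.filter fun i => t ≤ w i) = S ∩ G := by
        ext i
        simp [hG]
      have h2 := hS.2.2.2
      rw [h1] at h2
      exact h2
    have hcnt := count_sets N m h hN hm hh G
    calc (((𝒢.filter fun S => w ∈ Heavy S h t).card : ℕ) : ℝ) ≤
          ((((univ : Finset (Fin N)).powersetCard m).filter
            fun S => h ≤ (S ∩ G).card).card : ℝ) := by
          exact_mod_cast Finset.card_le_card hsub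
      _ ≤ (2 : ℝ) ^ G.card * ((m : ℝ) / N) ^ h * (N.choose m) := hcnt
      _ ≤ (2 : ℝ) ^ K * ((m : ℝ) / N) ^ h * (2 * 𝒢.card) := by
          have h1 : (2 : ℝ) ^ G.card ≤ (2 : ℝ) ^ K := pow_le_pow_right₀ (by norm_num) hGK
          have h2 : ((N.choose m : ℕ) : ℝ) ≤ 2 * 𝒢.card := by exact_mod_cast hc
          gcongr
      _ = 2 * ((2 : ℝ) ^ K * ((m : ℝ) / N) ^ h) * 𝒢.card := by ring
  · have h0 : (𝒢.filter fun S => w ∈ Heavy S h t) = ∅ := by
      rw [Finset.filter_eq_empty_iff]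
      intro S _ hS
      exact hw ⟨hS.1, hS.2.1⟩
    rw [h0, Finset.card_empty, Nat.cast_zero]
    positivity

end Pool.Agent.KOB
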