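import Mathlib

/-!
# Parameters for the column player
-/

set_option autoImplicit false

noncomputable section

namespace Pool.Agent.KOB

/-- Parameters for the column player.

Proof. `L = log N`, `c2 = 1/20000`, `e₀ = 1/60`, `N₀ = ⌈exp 3000000⌉₊` (so `L ≥ 3000000`),
`c = c2/4`, `M = ⌊L / e^2⌋₊`, `q = ⌊c2 L / e^2⌋₊`, `d = ⌈14 e q⌉₊`. Note `0 < e` and
`N^(-1/10) = exp (-L/10)`, so `e^8 ≥ exp (-8L/10)`, `1/e^2 ≤ exp (L/5)`.
* `c2 L/(2 e^2) ≤ q ≤ c2 L/e^2`. `e q ≥ c2 L/(2 e) ≥ 1`, so `14 e q ≤ d ≤ 15 e q`;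
  `4 d ≤ 60 e q ≤ q`; `3/4 * d/(2q) ≥ 21/4 e > 5 e`; `5 e ≤ 1/8`.
* `2 q ≤ 2 c2 L/e^2 ≤ L/e^2 - 1 ≤ M ≤ L/e^2 ≤ L exp (L/5) ≤ exp (3L/10) ≤ N`
  (`L ≤ (L/10)^2/2 ≤ exp (L/10)`).
* `2 e^2 M ≥ 2 L - 2 e^2 ≥ 2 L - 1`, `N exp (-2 e^2 M) ≤ exp (1 - L) ≤ 1/8`.
* `2 d^2/q ≤ 450 e^2 q ≤ 450 c2 L ≤ L/40`.
* Union bound: `2 q ≤ L/e^2`, so `p := exp (-(2 d^2/q))/(2q) ≥ e^2 exp (-L/40)/L` and
  `e^2 p^2 N/8 ≥ e^6 exp (19L/20)/(8 L^2)`. `(1 + N^(2q)) (2N+1) ≤ 2 N^(2q) * 3 N`, and the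
  logarithm of `2 * 2 N^(2q) * 3 N` is at most `2 q L + 2 L ≤ 2 c2 L^2/e^2 + 2 L < 2 L^2/e^2`.
  It remains `e^8 exp (19L/20) ≥ exp (3L/20) ≥ 16 L^4`, by `(3L/20)^8/8! ≤ exp (3L/20)`
  (`Real.pow_div_factorial_le_exp`) and `L ≥ 2000`.
* `(M/N)^(2q) ≤ (exp (-7L/10))^(2q) ≤ exp (- q L) ≤ exp (- c2 L^2/(2 e^2))`,
  `2 * 2^(32 M) ≤ exp (33 M) ≤ exp (33 L/e^2) ≤ exp (c2 L^2/(4 e^2))` as `L ≥ 132/c2 = 2640000`. -/
theorem col_params : ∃ c e₀ : ℝ, ∃ N₀ : ℕ, 0 < c ∧ 0 < e₀ ∧ e₀ ≤ 1 ∧ 0 < N₀ ∧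
    ∀ N : ℕ, N₀ ≤ N → ∀ e : ℝ, (N : ℝ) ^ (-(1 / 10 : ℝ)) ≤ e → e ≤ e₀ →
      ∃ M q d : ℕ, 0 < q ∧ 4 * d ≤ q ∧ 2 * q ≤ M ∧ M ≤ N ∧ e + 4 * e ≤ 1 / 8 ∧
        e + 4 * e < 3 / 4 * ((d : ℝ) / (2 * q)) ∧
        N * Real.exp (-(2 * e ^ 2 * M)) ≤ 1 / 8 ∧
        (1 + (N : ℝ) ^ (2 * q)) * (2 * N + 1) *
          Real.exp (-(e ^ 2 * (Real.exp (-(2 * (d : ℝ) ^ 2 / q)) / (2 * q)) ^ 2 * N / 8)) <
            1 / 2 ∧
        2 * ((2 : ℝ) ^ (32 * M) * ((M : ℝ) / N) ^ (2 * q)) ≤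
          Real.exp (-(c * Real.log N ^ 2 / e ^ 2)) := by
  refine ⟨1 / 80000, 1 / 60, ⌈Real.exp 3000000⌉₊, by norm_num, by norm_num, by norm_num,
    Nat.ceil_pos.2 (Real.exp_pos _), ?_⟩
  intro N hN e he1 he0
  have hN1 : Real.exp 3000000 ≤ (N : ℝ) := (Nat.le_ceil _).trans (Nat.cast_le.2 hN)
  have hNpos : (0 : ℝ) < N := (Real.exp_pos _).trans_le hN1
  have hL1 : (3000000 : ℝ) ≤ Real.log N := (Real.le_log_iff_exp_le hNpos).2 hN1
  have hNe : (N : ℝ) = Real.exp (Real.log N) := (Real.exp_log hNpos).symm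
  rw [Real.rpow_def_of_pos hNpos] at he1
  generalize Real.log N = L at hL1 hNe he1 ⊢
  have he1' : Real.exp (-(L / 10)) ≤ e := by
    have e1 : L * (-(1 / 10 : ℝ)) = -(L / 10) := by ring
    rwa [e1] at he1
  have he : 0 < e := (Real.exp_pos _).trans_le he1'
  have he2 : Real.exp (-(L / 5)) ≤ e ^ 2 := by
    have h := pow_le_pow_left₀ (Real.exp_pos _).le he1' 2
    rw [← Real.exp_nat_mul] at h
    have e1 : ((2 : ℕ) : ℝ) * (-(L / 10)) = -(L / 5) := by push_cast; ring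
    rwa [e1] at h
  have he8 : Real.exp (-(8 * L / 10)) ≤ e ^ 8 := by
    have h := pow_le_pow_left₀ (Real.exp_pos _).le he1' 8
    rw [← Real.exp_nat_mul] at h
    have e1 : ((8 : ℕ) : ℝ) * (-(L / 10)) = -(8 * L / 10) := by push_cast; ring
    rwa [e1] at h
  have he2' : 0 < e ^ 2 := by positivity
  have he2u : e ^ 2 ≤ 1 / 3600 := by nlinarith
  set X : ℝ := L / e ^ 2 with hX
  have hXe : X * e ^ 2 = L := div_mul_cancel₀ L he2'.ne'
  have hX0 : 10000000000 ≤ X := by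
    rw [hX, le_div_iff₀ he2']
    nlinarith
  have hL10 : L ≤ Real.exp (L / 10) := by
    have h := Real.pow_div_factorial_le_exp (L / 10) (by linarith) 2
    have e1 : ((Nat.factorial 2 : ℕ) : ℝ) = 2 := by norm_num [Nat.factorial]
    rw [e1] at h
    nlinarith
  have hXexp : X ≤ Real.exp (3 * L / 10) := by
    rw [hX, div_le_iff₀ he2']
    have h1 : Real.exp (3 * L / 10) * Real.exp (-(L / 5)) = Real.exp (L / 10) := by
      rw [← Real.exp_add]
      congr 1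
      ring
    calc L ≤ Real.exp (L / 10) := hL10
      _ = Real.exp (3 * L / 10) * Real.exp (-(L / 5)) := h1.symm
      _ ≤ _ := mul_le_mul_of_nonneg_left he2 (Real.exp_pos _).le
  -- the integers
  obtain ⟨M, hM⟩ : ∃ M : ℕ, M = ⌊X⌋₊ := ⟨_, rfl⟩
  obtain ⟨q, hq⟩ : ∃ q : ℕ, q = ⌊1 / 20000 * X⌋₊ := ⟨_, rfl⟩
  obtain ⟨d, hd⟩ : ∃ d : ℕ, d = ⌈14 * e * q⌉₊ := ⟨_, rfl⟩
  have hMu : (M : ℝ) ≤ X := by
    rw [hM]
    exact Nat.floor_le (by linarith)
  have hMl : X - 1 < (M : ℝ) := by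
    rw [hM]
    exact Nat.sub_one_lt_floor X
  have hqu : (q : ℝ) ≤ 1 / 20000 * X := by
    rw [hq]
    exact Nat.floor_le (by linarith)
  have hql : 1 / 20000 * X - 1 < (q : ℝ) := by
    rw [hq]
    exact Nat.sub_one_lt_floor _
  have hql2 : 1 / 40000 * X ≤ (q : ℝ) := by linarith
  have hqpos : (0 : ℝ) < q := by linarith
  have heq1 : 1 ≤ e * (q : ℝ) := by
    have h1 : e * (1 / 40000 * X) ≤ e * q := mul_le_mul_of_nonneg_left hql2 he.le
    have h2 : e * X * e = L := by rw [← hXe]; ring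
    have h3 : L ≤ e * X * (1 / 60) := by
      rw [← h2]
      exact mul_le_mul_of_nonneg_left he0 (by positivity)
    linarith
  have hdl : 14 * e * q ≤ (d : ℝ) := by
    rw [hd]
    exact Nat.le_ceil _
  have hdu : (d : ℝ) ≤ 15 * e * q := by
    have h1 : (d : ℝ) < 14 * e * q + 1 := by
      rw [hd]
      exact Nat.ceil_lt_add_one (by positivity)
    linarith
  have heq : e * q ≤ 1 / 60 * q := mul_le_mul_of_nonneg_right he0 hqpos.le
  have hMN : (M : ℝ) ≤ Real.exp (3 * L / 10) := hMu.trans hXexp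
  refine ⟨M, q, d, ?_, ?_, ?_, ?_, ?_, ?_, ?_, ?_, ?_⟩
  · exact_mod_cast hqpos
  · have h1 : (4 : ℝ) * d ≤ q := by linarith
    exact_mod_cast h1
  · have h1 : (2 : ℝ) * q ≤ M := by linarith
    exact_mod_cast h1
  · have h1 : (M : ℝ) ≤ N := by
      rw [hNe]
      exact hMN.trans (Real.exp_le_exp.2 (by linarith))
    exact_mod_cast h1
  · linarith
  · have h1 : 7 * e ≤ (d : ℝ) / (2 * q) := by
      rw [le_div_iff₀ (by positivity)]
      linarith
    linarith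
  · have h1 : 2 * L - 1 ≤ 2 * e ^ 2 * M := by
      have h2 : 2 * e ^ 2 * (X - 1) ≤ 2 * e ^ 2 * M :=
        mul_le_mul_of_nonneg_left hMl.le (by positivity)
      have h3 : 2 * e ^ 2 * (X - 1) = 2 * L - 2 * e ^ 2 := by rw [← hXe]; ring
      linarith
    have h2 : (N : ℝ) * Real.exp (-(2 * e ^ 2 * M)) ≤ Real.exp (1 - L) := by
      rw [hNe, ← Real.exp_add]
      exact Real.exp_le_exp.2 (by linarith)
    refine h2.trans ?_
    have h3 : 1 - L = -(L - 1) := by ring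
    rw [h3, Real.exp_neg, inv_le_comm₀ (Real.exp_pos _) (by norm_num)]
    have h4 := Real.add_one_le_exp (L - 1)
    have h5 : ((1 : ℝ) / 8)⁻¹ = 8 := by norm_num
    rw [h5]
    linarith
  · -- the union bound
    have hp1 : 2 * (d : ℝ) ^ 2 / q ≤ L / 40 := by
      rw [div_le_iff₀ hqpos]
      have h1 : (d : ℝ) ^ 2 ≤ (15 * e * q) ^ 2 := pow_le_pow_left₀ (Nat.cast_nonneg d) hdu 2
      have h2 : (15 * e * (q : ℝ)) ^ 2 = 225 * (e ^ 2 * q) * q := by ring
      have h3 : e ^ 2 * q ≤ e ^ 2 * (1 / 20000 * X) := mul_le_mul_of_nonneg_left hqu he2'.le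
      have h4 : e ^ 2 * (1 / 20000 * X) = L / 20000 := by rw [← hXe]; ring
      have h5 : 225 * (e ^ 2 * q) * q ≤ 225 * (L / 20000) * q :=
        mul_le_mul_of_nonneg_right (by linarith) hqpos.le
      have h6 : 0 ≤ L * q := by positivity
      linarith
    have hp2 : Real.exp (-(L / 40)) / X ≤ Real.exp (-(2 * (d : ℝ) ^ 2 / q)) / (2 * q) := by
      refine div_le_div₀ (Real.exp_pos _).le (Real.exp_le_exp.2 (by linarith)) (by positivity) ?_
      linarith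
    have hp3 : (Real.exp (-(L / 40)) / X) ^ 2 ≤
        (Real.exp (-(2 * (d : ℝ) ^ 2 / q)) / (2 * q)) ^ 2 :=
      pow_le_pow_left₀ (by positivity) hp2 2
    have hY : (2 * (q : ℝ) + 2) * L <
        e ^ 2 * (Real.exp (-(2 * (d : ℝ) ^ 2 / q)) / (2 * q)) ^ 2 * N / 8 := by
      have h1 : e ^ 2 * (Real.exp (-(L / 40)) / X) ^ 2 * N / 8 ≤
          e ^ 2 * (Real.exp (-(2 * (d : ℝ) ^ 2 / q)) / (2 * q)) ^ 2 * N / 8 := by
        have := mul_le_mul_of_nonneg_right (mul_le_mul_of_nonneg_left hp3 he2'.le) hNpos.le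
        linarith
      refine lt_of_lt_of_le ?_ h1
      have h2 : (Real.exp (-(L / 40)) / X) ^ 2 = Real.exp (-(L / 20)) * (e ^ 4 / L ^ 2) := by
        rw [hX, div_pow, div_pow, ← Real.exp_nat_mul]
        have e1 : ((2 : ℕ) : ℝ) * (-(L / 40)) = -(L / 20) := by push_cast; ring
        rw [e1]
        field_simp
      rw [h2]
      have h3 : (2 * (q : ℝ) + 2) * L ≤ X * L :=
        mul_le_mul_of_nonneg_right (by linarith) (by linarith)
      refine lt_of_le_of_lt h3 ?_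
      have hLpos : 0 < L := by linarith
      have h4 : X * L = L ^ 2 / e ^ 2 := by rw [hX]; ring
      have h5 : e ^ 2 * (Real.exp (-(L / 20)) * (e ^ 4 / L ^ 2)) * N / 8 =
          (e ^ 6 * Real.exp (19 * L / 20)) / (8 * L ^ 2) := by
        have e1 : Real.exp (19 * L / 20) = Real.exp (-(L / 20)) * N := by
          rw [hNe, ← Real.exp_add]
          congr 1
          ring
        rw [e1]
        field_simp
      rw [h4, h5, div_lt_div_iff₀ he2' (by positivity)]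
      have h6 : Real.exp (3 * L / 20) ≤ e ^ 8 * Real.exp (19 * L / 20) := by
        have e1 : Real.exp (3 * L / 20) = Real.exp (-(8 * L / 10)) * Real.exp (19 * L / 20) := by
          rw [← Real.exp_add]
          congr 1
          ring
        rw [e1]
        exact mul_le_mul_of_nonneg_right he8 (Real.exp_pos _).le
      have h7 : 8 * L ^ 4 < Real.exp (3 * L / 20) := by
        have h := Real.pow_div_factorial_le_exp (3 * L / 20) (by linarith) 6
        have e1 : ((Nat.factorial 6 : ℕ) : ℝ) = 720 := by norm_num [Nat.factorial]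
        rw [e1] at h
        refine lt_of_lt_of_le ?_ h
        have e2 : (3 * L / 20) ^ 6 / 720 = (3 / 20) ^ 6 / 720 * L ^ 2 * L ^ 4 := by ring
        rw [e2]
        refine mul_lt_mul_of_pos_right ?_ (by positivity)
        nlinarith
      have e3 : L ^ 2 * (8 * L ^ 2) = 8 * L ^ 4 := by ring
      have e4 : e ^ 6 * Real.exp (19 * L / 20) * e ^ 2 = e ^ 8 * Real.exp (19 * L / 20) := by
        ring
      rw [e3, e4]
      exact h7.trans_le h6
    have hN2 : (1 : ℝ) ≤ N := by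
      rw [hNe]
      exact Real.one_le_exp (by linarith)
    have h1 : (1 + (N : ℝ) ^ (2 * q)) * (2 * N + 1) ≤ 6 * Real.exp ((2 * q + 1) * L) := by
      have h2 : (1 : ℝ) ≤ (N : ℝ) ^ (2 * q) := one_le_pow₀ hN2
      have h3 : Real.exp ((2 * q + 1) * L) = (N : ℝ) ^ (2 * q) * N := by
        have e1 : (N : ℝ) ^ (2 * q) = Real.exp (2 * q * L) := by
          conv_lhs => rw [hNe]
          rw [← Real.exp_nat_mul]
          push_cast
          rfl
        rw [e1]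
        conv_rhs => rw [hNe]
        rw [← Real.exp_add]
        congr 1
        ring
      rw [h3]
      calc (1 + (N : ℝ) ^ (2 * q)) * (2 * N + 1) ≤ (2 * (N : ℝ) ^ (2 * q)) * (3 * N) :=
            mul_le_mul (by linarith) (by linarith) (by positivity) (by positivity)
        _ = _ := by ring
    have h2 : (1 + (N : ℝ) ^ (2 * q)) * (2 * N + 1) *
        Real.exp (-(e ^ 2 * (Real.exp (-(2 * (d : ℝ) ^ 2 / q)) / (2 * q)) ^ 2 * N / 8)) ≤
        6 * Real.exp ((2 * q + 1) * L) * Real.exp (-((2 * (q : ℝ) + 2) * L)) :=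
      mul_le_mul h1 (Real.exp_le_exp.2 (by linarith)) (Real.exp_pos _).le (by positivity)
    refine lt_of_le_of_lt h2 ?_
    rw [mul_assoc, ← Real.exp_add]
    have e1 : (2 * (q : ℝ) + 1) * L + -((2 * (q : ℝ) + 2) * L) = -L := by ring
    rw [e1, Real.exp_neg]
    have h3 := Real.add_one_le_exp L
    have h4 : (Real.exp L)⁻¹ < 1 / 12 := by
      rw [inv_lt_comm₀ (Real.exp_pos _) (by norm_num)]
      have h5 : ((1 : ℝ) / 12)⁻¹ = 12 := by norm_num
      rw [h5]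
      linarith
    linarith
  · -- the measure
    have h1 : (M : ℝ) / N ≤ Real.exp (-(7 * L / 10)) := by
      rw [div_le_iff₀ hNpos]
      have e1 : Real.exp (-(7 * L / 10)) * N = Real.exp (3 * L / 10) := by
        rw [hNe, ← Real.exp_add]
        congr 1
        ring
      rw [e1]
      exact hMN
    have h2 : ((M : ℝ) / N) ^ (2 * q) ≤ Real.exp (-(q * L)) := by
      refine (pow_le_pow_left₀ (by positivity) h1 (2 * q)).trans ?_
      rw [← Real.exp_nat_mul]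
      refine Real.exp_le_exp.2 ?_
      push_cast
      have : 0 ≤ (q : ℝ) * L := by positivity
      nlinarith
    have h3 : (2 : ℝ) ≤ Real.exp 1 := by
      have := Real.add_one_le_exp (1 : ℝ)
      linarith
    have h4 : (2 : ℝ) ^ (32 * M) ≤ Real.exp (32 * M) := by
      refine (pow_le_pow_left₀ (by norm_num) h3 (32 * M)).trans (le_of_eq ?_)
      rw [← Real.exp_nat_mul]
      push_cast
      rw [mul_one]
    have h5 : 2 * ((2 : ℝ) ^ (32 * M) * ((M : ℝ) / N) ^ (2 * q)) ≤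
        Real.exp 1 * (Real.exp (32 * M) * Real.exp (-(q * L))) :=
      mul_le_mul h3 (mul_le_mul h4 h2 (by positivity) (Real.exp_pos _).le) (by positivity)
        (Real.exp_pos _).le
    refine h5.trans ?_
    rw [← Real.exp_add, ← Real.exp_add]
    refine Real.exp_le_exp.2 ?_
    have h6 : 1 / 80000 * L ^ 2 / e ^ 2 = 1 / 80000 * X * L := by rw [hX]; ring
    rw [h6]
    have h7 : 1 / 40000 * X * L ≤ q * L := mul_le_mul_of_nonneg_right hql2 (by linarith)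
    have h8 : 33 * X ≤ 1 / 80000 * X * L := by
      have : 0 ≤ X * (L - 2640000) := mul_nonneg (by linarith) (by linarith)
      linarith
    linarith

end Pool.Agent.KOB
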