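import Pool.Agent.KOB.ColA
import Pool.Agent.KOB.ColB
import Pool.Agent.KOB.Meas
import Pool.Agent.KOB.ParCol

/-!
# Matrices which hide the column strategy
-/

set_option autoImplicit false

open Finset MeasureTheory

noncomputable section

namespace Pool.Agent.KOB

/-- There are matrices which hide the column strategy.

Proof. Take `c e₀ N₀` from `col_params`, for `N`, `e` the numbers `M q d` (`e > 0` as
`N^(-1/10) > 0`), `w` from `exists_rows`, `A i j = bit (w i j)`. For `ν` take `J` from
`exists_light` with `m = M`, `h = 2q`, `K = 32 M`, `t = 1/(32 M)`, `𝒢 = goodSets w M e`, and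
`B = bonus A J` (entries `0, 1/2, 1`). If `u` is in the set of `ColHide` with `β`, `x`, then
`y j = u j / β` is in the simplex, so `u j = β y j ≥ 0`, `∑ u = β ≤ 1`, and by `rows_spread` at
least `2q` elements `j ∈ J` have `y j ≥ 1/(8M)`, so `u j ≥ 1/(32 M)`:
`u ∈ Heavy J (2q) (1/(32M))`. Use `measure_mono` and monotonicity of `ENNReal.ofReal`. -/
theorem colHide_exists : ∃ c e₀ : ℝ, ∃ N₀ : ℕ, 0 < c ∧ 0 < e₀ ∧ ∀ N : ℕ, N₀ ≤ N → ∀ e : ℝ,
    (N : ℝ) ^ (-(1 / 10 : ℝ)) ≤ e → e ≤ e₀ → ∃ A : Fin N → Fin N → ℝ,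
      (∀ i j, A i j = 0 ∨ A i j = 1) ∧
      ColHide A e (Real.exp (-(c * Real.log N ^ 2 / e ^ 2))) := by
  obtain ⟨c, e₀, N₀, hc, he₀, he₀1, hN₀, hpar⟩ := col_params
  refine ⟨c, e₀, N₀, hc, he₀, fun N hN e heN hee => ?_⟩
  obtain ⟨M, q, d, hq, hd, hqM, hMN, h5, hed, hgood, hsmall, hfin⟩ := hpar N hN e heN hee
  have hN0 : 0 < N := lt_of_lt_of_le hN₀ hN
  have he : 0 < e :=
    lt_of_lt_of_le (Real.rpow_pos_of_pos (by exact_mod_cast hN0) _) heN
  have hM : 0 < M := by omega
  obtain ⟨w, hall, hw, hgc⟩ := exists_rows hN0 M q d hq hd hM hMN e he (hee.trans he₀1) hgood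
    hsmall
  have hb : ∀ i j, bit (w i j) = 0 ∨ bit (w i j) = 1 := by
    intro i j
    unfold bit
    cases w i j
    · exact Or.inl (if_neg Bool.false_ne_true)
    · exact Or.inr (if_pos rfl)
  refine ⟨fun i j => bit (w i j), hb, ?_⟩
  · intro ν _
    have hMr : (0 : ℝ) < M := by exact_mod_cast hM
    obtain ⟨J, hJ, hl⟩ := exists_light (N := N) (m := M) (h := 2 * q) (K := 32 * M)
      (1 / (32 * (M : ℝ))) (by positivity)
      (by
        push_cast
        rw [mul_one_div_cancel (by positivity)])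
      hN0 hMN hqM (goodSets w M e) (Finset.filter_subset _ _) hgc ν
    refine ⟨bonus (fun i j => bit (w i j)) J, fun i j => ?_, ?_⟩
    · show (if j ∈ J then (1 : ℝ) / 2 else 0) + 1 / 2 * (1 - bit (w i j)) = 0 ∨
        (if j ∈ J then (1 : ℝ) / 2 else 0) + 1 / 2 * (1 - bit (w i j)) = 1 / 2 ∨
        (if j ∈ J then (1 : ℝ) / 2 else 0) + 1 / 2 * (1 - bit (w i j)) = 1
      rcases hb i j with hb | hb
      · rw [hb]
        by_cases hj : j ∈ J
        · rw [if_pos hj]
          exact Or.inr (Or.inr (by norm_num))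
        · rw [if_neg hj]
          exact Or.inr (Or.inl (by norm_num))
      · rw [hb]
        by_cases hj : j ∈ J
        · rw [if_pos hj]
          exact Or.inr (Or.inl (by norm_num))
        · rw [if_neg hj]
          exact Or.inl (by norm_num)
    · refine (measure_mono ?_).trans (hl.trans (ENNReal.ofReal_le_ofReal hfin))
      rintro u ⟨β, hβ1, hβ2, x, hNE⟩
      have hβ : 0 < β := by linarith
      have hy := hNE.hy
      have hu : ∀ j, u j = β * (u j / β) := fun j => by field_simp
      refine ⟨fun j => ?_, ?_, ?_⟩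
      · rw [hu j]
        exact mul_nonneg hβ.le (hy.1 j)
      · have h1 : ∑ j, u j = β * ∑ j, u j / β := by
          rw [Finset.mul_sum]
          exact Finset.sum_congr rfl fun j _ => hu j
        have h2 : ∑ j, u j / β = 1 := hy.2
        rw [h1, h2, mul_one]
        exact hβ2
      · have h1 := rows_spread hN0 M q d hq hM hqM e he h5 hed w hall hw J hJ x _ hNE
        refine h1.trans (Finset.card_le_card ?_)
        intro j hj
        rw [Finset.mem_filter] at hj ⊢
        refine ⟨hj.1, ?_⟩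
        have h2 : 1 / (8 * (M : ℝ)) ≤ u j / β := hj.2
        rw [hu j]
        calc 1 / (32 * (M : ℝ)) = 1 / 4 * (1 / (8 * (M : ℝ))) := by
              field_simp
              norm_num
          _ ≤ β * (u j / β) := mul_le_mul hβ1 h2 (by positivity) hβ.le

end Pool.Agent.KOB
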