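import Pool.Agent.KOB.Base

/-!
# Composition of two games: the restrictions
-/

set_option autoImplicit false

open Finset

noncomputable section

namespace Pool.Agent.KOB

variable {R₁ R₂ C₁ C₂ : Type} [Fintype R₁] [Fintype R₂] [Fintype C₁] [Fintype C₂]
  [DecidableEq R₁] [DecidableEq R₂] [DecidableEq C₁] [DecidableEq C₂]

private theorem pay_smul_cne {R C : Type} [Fintype R] [Fintype C] (A : R → C → ℝ) (c : ℝ)
    (x : R → ℝ) (y : C → ℝ) : pay A (fun i => c * x i) y = c * pay A x y := by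
  unfold pay
  rw [Finset.mul_sum]
  refine Finset.sum_congr rfl fun i _ => ?_
  rw [Finset.mul_sum]
  refine Finset.sum_congr rfl fun j _ => ?_
  ring

private theorem pay_tr_cne {R C : Type} [Fintype R] [Fintype C] (A : R → C → ℝ)
    (x : R → ℝ) (y : C → ℝ) : pay A x y = pay (fun j i => A i j) y x := by
  unfold pay
  rw [Finset.sum_comm]
  refine Finset.sum_congr rfl fun j _ => Finset.sum_congr rfl fun i _ => ?_
  ring

private theorem pay_divl_cne {R C : Type} [Fintype R] [Fintype C] (A : R → C → ℝ) (c : ℝ)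
    (x : R → ℝ) (y : C → ℝ) : pay A (fun i => x i / c) y = pay A x y / c := by
  have h : (fun i => x i / c) = fun i => c⁻¹ * x i := by
    funext i
    rw [div_eq_inv_mul]
  rw [h, pay_smul_cne, div_eq_inv_mul]

private theorem pay_divr_cne {R C : Type} [Fintype R] [Fintype C] (A : R → C → ℝ) (c : ℝ)
    (x : R → ℝ) (y : C → ℝ) : pay A x (fun j => y j / c) = pay A x y / c := by
  rw [pay_tr_cne, pay_divl_cne, ← pay_tr_cne]

private theorem core_cne {R C : Type} [Fintype R] [Fintype C] (A : R → C → ℝ) (x' u : R → ℝ)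
    (v : C → ℝ) (α β ε : ℝ) (hε0 : 0 ≤ ε) (hα : 1 / 4 ≤ α) (hβ : 1 / 4 ≤ β)
    (h : 1 / 2 * pay A (fun i => α * x' i) v ≤ 1 / 2 * pay A u v + ε) :
    pay A x' (fun j => v j / β) ≤
      pay A (fun i => u i / α) (fun j => v j / β) + 32 * ε := by
  have hα0 : 0 < α := lt_of_lt_of_le (by norm_num) hα
  have hβ0 : 0 < β := lt_of_lt_of_le (by norm_num) hβ
  rw [pay_smul_cne] at h
  rw [pay_divr_cne, pay_divr_cne, pay_divl_cne]
  have h1 : pay A x' v ≤ (pay A u v + 2 * ε) / α := by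
    rw [le_div_iff₀ hα0]
    linarith
  have h2 : pay A x' v / β ≤ (pay A u v + 2 * ε) / α / β :=
    div_le_div_of_nonneg_right h1 hβ0.le
  have h3 : 2 * ε / α / β ≤ 32 * ε := by
    rw [div_div, div_le_iff₀ (mul_pos hα0 hβ0)]
    have h4 : 1 / 16 ≤ α * β := by nlinarith
    nlinarith [mul_le_mul_of_nonneg_left h4 hε0]
  have h5 : (pay A u v + 2 * ε) / α / β = pay A u v / α / β + 2 * ε / α / β := by
    rw [add_div, add_div]
  linarith

omit [DecidableEq R₁] [DecidableEq R₂] [DecidableEq C₁] [DecidableEq C₂] in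
private theorem pay_compA_cne (A₁ : R₁ → C₁ → ℝ) (A₂ : R₂ → C₂ → ℝ) (x : R₁ ⊕ R₂ → ℝ)
    (y : C₁ ⊕ C₂ → ℝ) :
    pay (compA A₁ A₂) x y = 1 / 2 * pay A₁ (fun i => x (.inl i)) (fun j => y (.inl j)) +
      (∑ i, x (.inl i)) * (∑ j, y (.inr j)) + ((∑ i, x (.inr i)) * (∑ j, y (.inl j)) +
      1 / 2 * pay A₂ (fun i => x (.inr i)) (fun j => y (.inr j))) := by
  unfold pay
  rw [Fintype.sum_sum_type]
  simp only [Fintype.sum_sum_type, compA, Finset.sum_add_distrib]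
  congr 1
  · congr 1
    · rw [Finset.mul_sum]
      refine Finset.sum_congr rfl fun i _ => ?_
      rw [Finset.mul_sum]
      refine Finset.sum_congr rfl fun j _ => ?_
      ring
    · rw [Finset.sum_mul_sum]
      refine Finset.sum_congr rfl fun i _ => Finset.sum_congr rfl fun j _ => ?_
      ring
  · congr 1
    · rw [Finset.sum_mul_sum]
      refine Finset.sum_congr rfl fun i _ => Finset.sum_congr rfl fun j _ => ?_
      ring
    · rw [Finset.mul_sum]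
      refine Finset.sum_congr rfl fun i _ => ?_
      rw [Finset.mul_sum]
      refine Finset.sum_congr rfl fun j _ => ?_
      ring

omit [DecidableEq R₁] [DecidableEq R₂] [DecidableEq C₁] [DecidableEq C₂] in
private theorem pay_compB_cne (B₁ : R₁ → C₁ → ℝ) (B₂ : R₂ → C₂ → ℝ) (x : R₁ ⊕ R₂ → ℝ)
    (y : C₁ ⊕ C₂ → ℝ) :
    pay (compB B₁ B₂) x y = (1 / 2 * ((∑ i, x (.inl i)) * (∑ j, y (.inl j))) +
      1 / 2 * pay B₁ (fun i => x (.inl i)) (fun j => y (.inl j))) +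
      (1 / 2 * ((∑ i, x (.inr i)) * (∑ j, y (.inr j))) +
      1 / 2 * pay B₂ (fun i => x (.inr i)) (fun j => y (.inr j))) := by
  unfold pay
  rw [Fintype.sum_sum_type]
  simp only [Fintype.sum_sum_type, compB, Finset.sum_add_distrib]
  have z1 : ∑ i : R₁, ∑ j : C₂, x (.inl i) * 0 * y (.inr j) = 0 := by simp
  have z2 : ∑ i : R₂, ∑ j : C₁, x (.inr i) * 0 * y (.inl j) = 0 := by simp
  rw [z1, z2, add_zero, zero_add]
  congr 1
  · rw [Finset.sum_mul_sum, Finset.mul_sum, Finset.mul_sum, ← Finset.sum_add_distrib]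
    refine Finset.sum_congr rfl fun i _ => ?_
    rw [Finset.mul_sum, Finset.mul_sum, ← Finset.sum_add_distrib]
    refine Finset.sum_congr rfl fun j _ => ?_
    ring
  · rw [Finset.sum_mul_sum, Finset.mul_sum, Finset.mul_sum, ← Finset.sum_add_distrib]
    refine Finset.sum_congr rfl fun i _ => ?_
    rw [Finset.mul_sum, Finset.mul_sum, ← Finset.sum_add_distrib]
    refine Finset.sum_congr rfl fun j _ => ?_
    ring

private theorem simp_l_cne {P Q : Type} [Fintype P] [Fintype Q] {x : P ⊕ Q → ℝ}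
    (hx : x ∈ stdSimplex ℝ (P ⊕ Q)) {α : ℝ} (hα : α = ∑ i, x (.inl i)) (hα0 : 0 ≤ α)
    {x' : P → ℝ} (hx' : x' ∈ stdSimplex ℝ P) :
    Sum.elim (fun i => α * x' i) (fun i => x (.inr i)) ∈ stdSimplex ℝ (P ⊕ Q) := by
  refine ⟨fun i => ?_, ?_⟩
  · rcases i with i | i
    · exact mul_nonneg hα0 (hx'.1 i)
    · exact hx.1 (.inr i)
  · have h1 := hx.2
    rw [Fintype.sum_sum_type] at h1 ⊢
    simp only [Sum.elim_inl, Sum.elim_inr]
    rw [← Finset.mul_sum, hx'.2, mul_one, hα]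
    exact h1

private theorem simp_r_cne {P Q : Type} [Fintype P] [Fintype Q] {x : P ⊕ Q → ℝ}
    (hx : x ∈ stdSimplex ℝ (P ⊕ Q)) {α : ℝ} (hα : α = ∑ i, x (.inr i)) (hα0 : 0 ≤ α)
    {x' : Q → ℝ} (hx' : x' ∈ stdSimplex ℝ Q) :
    Sum.elim (fun i => x (.inl i)) (fun i => α * x' i) ∈ stdSimplex ℝ (P ⊕ Q) := by
  refine ⟨fun i => ?_, ?_⟩
  · rcases i with i | i
    · exact hx.1 (.inl i)
    · exact mul_nonneg hα0 (hx'.1 i)
  · have h1 := hx.2
    rw [Fintype.sum_sum_type] at h1 ⊢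
    simp only [Sum.elim_inl, Sum.elim_inr]
    rw [← Finset.mul_sum (s := Finset.univ) (f := x'), hx'.2, mul_one, hα]
    exact h1

private theorem mem_div_cne {P : Type} [Fintype P] {u : P → ℝ} (hu : ∀ i, 0 ≤ u i) {α : ℝ}
    (hα : α = ∑ i, u i) (hα0 : 0 < α) : (fun i => u i / α) ∈ stdSimplex ℝ P := by
  refine ⟨fun i => div_nonneg (hu i) hα0.le, ?_⟩
  show ∑ i, u i / α = 1
  rw [← Finset.sum_div, ← hα, div_self hα0.ne']

/-- The restriction to the first blocks is an approximate equilibrium.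

Proof. Nonnegativity and sums: clear (`α ≥ 1/4 > 0`). Row: for `x'` in the simplex of `R₁` let
`x''` be `α x'` on `R₁` and `x` on `R₂`; it is in the simplex. `pay (compA ..) x'' y - pay .. x y`
`= ∑_(i ∈ R₁) (α x'_i - x_i) ((A₁ y)_i / 2 + (1 - β))` `= 1/2 (α x' A₁ y - x A₁ y)` (the terms with
`1 - β` cancel, as `∑ α x' = α = ∑_(R₁) x`) `= α β / 2 * (pay A₁ x' ŷ - pay A₁ x̂ ŷ)`, and it is
`≤ ε`; `α β ≥ 1/16`. Column: the same, `q_j = α/2 + (x B₁)_j/2` on `C₁`. -/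
theorem comp_ne_left
    (A₁ B₁ : R₁ → C₁ → ℝ) (A₂ B₂ : R₂ → C₂ → ℝ)
    (ε : ℝ) (hε0 : 0 ≤ ε) (x : R₁ ⊕ R₂ → ℝ) (y : C₁ ⊕ C₂ → ℝ)
    (h : IsNE (compA A₁ A₂) (compB B₁ B₂) ε x y) (α β : ℝ)
    (hα : α = ∑ i, x (.inl i)) (hβ : β = ∑ j, y (.inl j)) (hα4 : 1 / 4 ≤ α) (hβ4 : 1 / 4 ≤ β) :
    IsNE A₁ B₁ (32 * ε) (fun i => x (.inl i) / α) (fun j => y (.inl j) / β) := by
  have hα0 : 0 < α := lt_of_lt_of_le (by norm_num) hα4
  have hβ0 : 0 < β := lt_of_lt_of_le (by norm_num) hβ4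
  refine ⟨mem_div_cne (fun i => h.hx.1 (.inl i)) hα hα0,
    mem_div_cne (fun j => h.hy.1 (.inl j)) hβ hβ0, fun x' hx' => ?_, fun y' hy' => ?_⟩
  · refine core_cne A₁ x' (fun i => x (.inl i)) (fun j => y (.inl j)) α β ε hε0 hα4 hβ4 ?_
    have h1 := h.row _ (simp_l_cne h.hx hα hα0.le hx')
    rw [pay_compA_cne, pay_compA_cne] at h1
    simp only [Sum.elim_inl, Sum.elim_inr] at h1
    rw [← Finset.mul_sum, hx'.2, mul_one, ← hα] at h1
    linarith
  · rw [pay_tr_cne B₁, pay_tr_cne B₁]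
    refine core_cne (fun j i => B₁ i j) y' (fun j => y (.inl j)) (fun i => x (.inl i)) β α ε hε0
      hβ4 hα4 ?_
    rw [← pay_tr_cne B₁, ← pay_tr_cne B₁]
    have h1 := h.col _ (simp_l_cne h.hy hβ hβ0.le hy')
    rw [pay_compB_cne, pay_compB_cne] at h1
    simp only [Sum.elim_inl, Sum.elim_inr] at h1
    rw [← Finset.mul_sum, hy'.2, mul_one, ← hβ] at h1
    linarith

/-- The restriction to the second blocks is an approximate equilibrium. The same proof as for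
`comp_ne_left`, or: apply `comp_ne_left` to the game with the blocks exchanged
(`Equiv.sumComm`). -/
theorem comp_ne_right
    (A₁ B₁ : R₁ → C₁ → ℝ) (A₂ B₂ : R₂ → C₂ → ℝ)
    (ε : ℝ) (hε0 : 0 ≤ ε) (x : R₁ ⊕ R₂ → ℝ) (y : C₁ ⊕ C₂ → ℝ)
    (h : IsNE (compA A₁ A₂) (compB B₁ B₂) ε x y) (α β : ℝ)
    (hα : α = ∑ i, x (.inr i)) (hβ : β = ∑ j, y (.inr j)) (hα4 : 1 / 4 ≤ α) (hβ4 : 1 / 4 ≤ β) :
    IsNE A₂ B₂ (32 * ε) (fun i => x (.inr i) / α) (fun j => y (.inr j) / β) := by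
  have hα0 : 0 < α := lt_of_lt_of_le (by norm_num) hα4
  have hβ0 : 0 < β := lt_of_lt_of_le (by norm_num) hβ4
  refine ⟨mem_div_cne (fun i => h.hx.1 (.inr i)) hα hα0,
    mem_div_cne (fun j => h.hy.1 (.inr j)) hβ hβ0, fun x' hx' => ?_, fun y' hy' => ?_⟩
  · refine core_cne A₂ x' (fun i => x (.inr i)) (fun j => y (.inr j)) α β ε hε0 hα4 hβ4 ?_
    have h1 := h.row _ (simp_r_cne h.hx hα hα0.le hx')
    rw [pay_compA_cne, pay_compA_cne] at h1
    simp only [Sum.elim_inl, Sum.elim_inr] at h1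
    rw [← Finset.mul_sum (s := Finset.univ) (f := x'), hx'.2, mul_one, ← hα] at h1
    linarith
  · rw [pay_tr_cne B₂, pay_tr_cne B₂]
    refine core_cne (fun j i => B₂ i j) y' (fun j => y (.inr j)) (fun i => x (.inr i)) β α ε hε0
      hβ4 hα4 ?_
    rw [← pay_tr_cne B₂, ← pay_tr_cne B₂]
    have h1 := h.col _ (simp_r_cne h.hy hβ hβ0.le hy')
    rw [pay_compB_cne, pay_compB_cne] at h1
    simp only [Sum.elim_inl, Sum.elim_inr] at h1
    rw [← Finset.mul_sum (s := Finset.univ) (f := y'), hy'.2, mul_one, ← hβ] at h1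
    linarith

end Pool.Agent.KOB
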