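import Pool.Agent.KOB.CompMass
import Pool.Agent.KOB.CompNe

/-!
# Combination of a matrix which hides the rows and a matrix which hides the columns
-/

set_option autoImplicit false

open Finset MeasureTheory

noncomputable section

namespace Pool.Agent.KOB

/-- The composed matrix hides both strategies.

Proof. `μ₁` = the image of `μ` under the (continuous, measurable) restriction
`x ↦ fun i => x (.inl i)`; a probability measure (`Measure.isProbabilityMeasure_map`). `hr μ₁` gives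
`B₁`. `ν₂` = the image of `ν` under `y ↦ fun j => y (.inr j)`, `hc ν₂` gives `B₂`.
`B = compB B₁ B₂` has the entries `0`, `1/2 + 1/2 * {0, 1/2, 1}`. If `(x, y)` is an
`ε`-equilibrium of `(compA A₁ A₂, B)`, then `comp_mass` gives `α = ∑ i, x (.inl i) ≥ 1/4` and
`≤ 3/4`, `β = ∑ j, y (.inl j)` in `[1/4, 3/4]`, so `∑ j, y (.inr j) = 1 - β ≥ 1/4` etc., and
`comp_ne_left` (resp. `comp_ne_right`) shows that `fun i => x (.inl i)` is in the set of `RowHide`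
(resp. that `fun j => y (.inr j)` is in the set of `ColHide`). So
`μ {x | ..} ≤ μ (π⁻¹' W) ≤ (μ.map π) W ≤ δ₁` (`measure_mono`, `Measure.le_map_apply`). -/
theorem combine {N₁ N₂ : ℕ} (h1 : 0 < N₁) (h2 : 0 < N₂) (ε δ₁ δ₂ : ℝ) (hε0 : 0 ≤ ε)
    (hε : ε ≤ 1 / 64) (A₁ : Fin N₁ → Fin N₁ → ℝ) (A₂ : Fin N₂ → Fin N₂ → ℝ)
    (hA₁ : ∀ i j, A₁ i j = 0 ∨ A₁ i j = 1) (hA₂ : ∀ i j, A₂ i j = 0 ∨ A₂ i j = 1)
    (hr : RowHide A₁ (32 * ε) δ₁) (hc : ColHide A₂ (32 * ε) δ₂)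
    (μ ν : Measure (Fin N₁ ⊕ Fin N₂ → ℝ)) [IsProbabilityMeasure μ] [IsProbabilityMeasure ν] :
    ∃ B : Fin N₁ ⊕ Fin N₂ → Fin N₁ ⊕ Fin N₂ → ℝ,
      (∀ i j, B i j = 0 ∨ B i j = 1 / 2 ∨ B i j = 3 / 4 ∨ B i j = 1) ∧
      μ {x | ∃ y, IsNE (compA A₁ A₂) B ε x y} ≤ ENNReal.ofReal δ₁ ∧
      ν {y | ∃ x, IsNE (compA A₁ A₂) B ε x y} ≤ ENNReal.ofReal δ₂ := by
  haveI : Nonempty (Fin N₁) := ⟨⟨0, h1⟩⟩
  haveI : Nonempty (Fin N₂) := ⟨⟨0, h2⟩⟩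
  have hm1 : Measurable (fun (x : Fin N₁ ⊕ Fin N₂ → ℝ) (i : Fin N₁) => x (.inl i)) :=
    measurable_pi_lambda _ fun i => measurable_pi_apply _
  have hm2 : Measurable (fun (y : Fin N₁ ⊕ Fin N₂ → ℝ) (j : Fin N₂) => y (.inr j)) :=
    measurable_pi_lambda _ fun j => measurable_pi_apply _
  haveI p1 : IsProbabilityMeasure
      (μ.map (fun (x : Fin N₁ ⊕ Fin N₂ → ℝ) (i : Fin N₁) => x (.inl i))) :=
    Measure.isProbabilityMeasure_map hm1.aemeasurable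
  haveI p2 : IsProbabilityMeasure
      (ν.map (fun (y : Fin N₁ ⊕ Fin N₂ → ℝ) (j : Fin N₂) => y (.inr j))) :=
    Measure.isProbabilityMeasure_map hm2.aemeasurable
  obtain ⟨B₁, hB1, hμ⟩ := hr (μ.map (fun (x : Fin N₁ ⊕ Fin N₂ → ℝ) (i : Fin N₁) => x (.inl i)))
  obtain ⟨B₂, hB2, hν⟩ := hc (ν.map (fun (y : Fin N₁ ⊕ Fin N₂ → ℝ) (j : Fin N₂) => y (.inr j)))
  have bA1 : ∀ i j, 0 ≤ A₁ i j ∧ A₁ i j ≤ 1 := by
    intro i j
    rcases hA₁ i j with h | h <;> rw [h] <;> norm_num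
  have bA2 : ∀ i j, 0 ≤ A₂ i j ∧ A₂ i j ≤ 1 := by
    intro i j
    rcases hA₂ i j with h | h <;> rw [h] <;> norm_num
  have bB1 : ∀ i j, 0 ≤ B₁ i j ∧ B₁ i j ≤ 1 := by
    intro i j
    rcases hB1 i j with h | h | h <;> rw [h] <;> norm_num
  have bB2 : ∀ i j, 0 ≤ B₂ i j ∧ B₂ i j ≤ 1 := by
    intro i j
    rcases hB2 i j with h | h | h <;> rw [h] <;> norm_num
  have key := fun x y => comp_mass A₁ B₁ A₂ B₂ bA1 bA2 bB1 bB2 ε hε0 hε x y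
  refine ⟨compB B₁ B₂, ?_, ?_, ?_⟩
  · rintro (i | i) (j | j)
    · show 1 / 2 + 1 / 2 * B₁ i j = 0 ∨ 1 / 2 + 1 / 2 * B₁ i j = 1 / 2 ∨
        1 / 2 + 1 / 2 * B₁ i j = 3 / 4 ∨ 1 / 2 + 1 / 2 * B₁ i j = 1
      rcases hB1 i j with h | h | h <;> rw [h] <;> norm_num
    · exact Or.inl rfl
    · exact Or.inl rfl
    · show 1 / 2 + 1 / 2 * B₂ i j = 0 ∨ 1 / 2 + 1 / 2 * B₂ i j = 1 / 2 ∨
        1 / 2 + 1 / 2 * B₂ i j = 3 / 4 ∨ 1 / 2 + 1 / 2 * B₂ i j = 1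
      rcases hB2 i j with h | h | h <;> rw [h] <;> norm_num
  · refine (measure_mono ?_).trans ((Measure.le_map_apply hm1.aemeasurable _).trans hμ)
    rintro x ⟨y, hy⟩
    obtain ⟨⟨a1, a2⟩, b1, b2⟩ := key x y hy
    exact ⟨∑ i, x (.inl i), a1, by linarith, _,
      comp_ne_left A₁ B₁ A₂ B₂ ε hε0 x y hy _ _ rfl rfl a1 b1⟩
  · refine (measure_mono ?_).trans ((Measure.le_map_apply hm2.aemeasurable _).trans hν)
    rintro y ⟨x, hy⟩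
    obtain ⟨⟨a1, a2⟩, b1, b2⟩ := key x y hy
    have sx : ∑ i, x (.inl i) + ∑ i, x (.inr i) = 1 := by
      rw [← Fintype.sum_sum_type]
      exact hy.hx.2
    have sy : ∑ j, y (.inl j) + ∑ j, y (.inr j) = 1 := by
      rw [← Fintype.sum_sum_type]
      exact hy.hy.2
    exact ⟨∑ j, y (.inr j), by linarith, by linarith, _,
      comp_ne_right A₁ B₁ A₂ B₂ ε hε0 x y hy _ _ rfl rfl (by linarith) (by linarith)⟩

end Pool.Agent.KOB
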