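import Pool.Agent.KOB.CombA

/-!
# The combination on `Fin n`
-/

set_option autoImplicit false

open Finset MeasureTheory

noncomputable section

namespace Pool.Agent.KOB

private theorem Combine_simplex {R R' : Type} [Fintype R] [Fintype R'] (r : R ≃ R') (x : R → ℝ)
    (hx : x ∈ stdSimplex ℝ R) : (fun i => x (r.symm i)) ∈ stdSimplex ℝ R' := by
  refine ⟨fun i => hx.1 _, ?_⟩
  rw [← hx.2]
  exact Equiv.sum_comp r.symm x

private theorem Combine_pay {R R' C C' : Type} [Fintype R] [Fintype R'] [Fintype C] [Fintype C']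
    (r : R ≃ R') (s : C ≃ C') (A : R' → C' → ℝ) (x : R → ℝ) (y : C → ℝ) :
    pay (fun i j => A (r i) (s j)) x y =
      pay A (fun i => x (r.symm i)) (fun j => y (s.symm j)) := by
  unfold pay
  rw [← Equiv.sum_comp r]
  refine Finset.sum_congr rfl fun i _ => ?_
  rw [← Equiv.sum_comp s]
  refine Finset.sum_congr rfl fun j _ => ?_
  change x i * A (r i) (s j) * y j = x (r.symm (r i)) * A (r i) (s j) * y (s.symm (s j))
  rw [Equiv.symm_apply_apply, Equiv.symm_apply_apply]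

private theorem Combine_entry {N₁ N₂ : ℕ} (A₁ : Fin N₁ → Fin N₁ → ℝ) (A₂ : Fin N₂ → Fin N₂ → ℝ)
    (hA₁ : ∀ i j, A₁ i j = 0 ∨ A₁ i j = 1) (hA₂ : ∀ i j, A₂ i j = 0 ∨ A₂ i j = 1)
    (a b : Fin N₁ ⊕ Fin N₂) :
    compA A₁ A₂ a b = 0 ∨ compA A₁ A₂ a b = 1 / 2 ∨ compA A₁ A₂ a b = 1 := by
  rcases a with i | i <;> rcases b with j | j
  · rcases hA₁ i j with h | h
    · left
      simp [compA, h]
    · right
      left
      simp [compA, h]
  · right
    right
    rfl
  · right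
    right
    rfl
  · rcases hA₂ i j with h | h
    · left
      simp [compA, h]
    · right
      left
      simp [compA, h]

/-- Renaming of the strategies. Proof. The simplices correspond under composition with the
bijections, and the sums are reindexed (`Equiv.sum_comp`). -/
theorem isNE_equiv {R R' C C' : Type} [Fintype R] [Fintype R'] [Fintype C] [Fintype C']
    (r : R ≃ R') (s : C ≃ C') (A B : R' → C' → ℝ) (ε : ℝ) (x : R → ℝ) (y : C → ℝ) :
    IsNE (fun i j => A (r i) (s j)) (fun i j => B (r i) (s j)) ε x y ↔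
      IsNE A B ε (fun i => x (r.symm i)) (fun j => y (s.symm j)) := by
  constructor
  · intro h
    refine ⟨Combine_simplex r x h.hx, Combine_simplex s y h.hy, fun x' hx' => ?_,
      fun y' hy' => ?_⟩
    · have h1 := h.row (fun i => x' (r i)) (Combine_simplex r.symm x' hx')
      rw [Combine_pay, Combine_pay] at h1
      simp only [Equiv.apply_symm_apply] at h1
      exact h1
    · have h1 := h.col (fun j => y' (s j)) (Combine_simplex s.symm y' hy')
      rw [Combine_pay, Combine_pay] at h1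
      simp only [Equiv.apply_symm_apply] at h1
      exact h1
  · intro h
    have hx : x ∈ stdSimplex ℝ R := by
      have h1 := Combine_simplex r.symm _ h.hx
      simp only [Equiv.symm_symm, Equiv.symm_apply_apply] at h1
      exact h1
    have hy : y ∈ stdSimplex ℝ C := by
      have h1 := Combine_simplex s.symm _ h.hy
      simp only [Equiv.symm_symm, Equiv.symm_apply_apply] at h1
      exact h1
    refine ⟨hx, hy, fun x' hx' => ?_, fun y' hy' => ?_⟩
    · rw [Combine_pay, Combine_pay]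
      exact h.row _ (Combine_simplex r x' hx')
    · rw [Combine_pay, Combine_pay]
      exact h.col _ (Combine_simplex s y' hy')

/-- The combination on `Fin n`, `n = N₁ + N₂`.

Proof. `r : Fin n ≃ Fin N₁ ⊕ Fin N₂` (`finSumFinEquiv.symm` and `Fin.cast`/`subst`),
`A i j = compA A₁ A₂ (r i) (r j)` (entries `0, 1/2, 1`). For `μ`, `ν` apply `combine` to the images
under `x ↦ fun i => x (r.symm i)`, use `isNE_equiv` and `Measure.le_map_apply`. -/
theorem combine_fin {N₁ N₂ n : ℕ} (hn : N₁ + N₂ = n) (h1 : 0 < N₁) (h2 : 0 < N₂)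
    (ε δ₁ δ₂ : ℝ) (hε0 : 0 ≤ ε)
    (hε : ε ≤ 1 / 64) (A₁ : Fin N₁ → Fin N₁ → ℝ) (A₂ : Fin N₂ → Fin N₂ → ℝ)
    (hA₁ : ∀ i j, A₁ i j = 0 ∨ A₁ i j = 1) (hA₂ : ∀ i j, A₂ i j = 0 ∨ A₂ i j = 1)
    (hr : RowHide A₁ (32 * ε) δ₁) (hc : ColHide A₂ (32 * ε) δ₂) :
    ∃ A : Fin n → Fin n → ℝ, (∀ i j, A i j = 0 ∨ A i j = 1 / 2 ∨ A i j = 1) ∧
      ∀ (μ ν : Measure (Fin n → ℝ)) [IsProbabilityMeasure μ] [IsProbabilityMeasure ν],
        ∃ B : Fin n → Fin n → ℝ,
          (∀ i j, B i j = 0 ∨ B i j = 1 / 2 ∨ B i j = 3 / 4 ∨ B i j = 1) ∧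
          μ {x | ∃ y, IsNE A B ε x y} ≤ ENNReal.ofReal δ₁ ∧
          ν {y | ∃ x, IsNE A B ε x y} ≤ ENNReal.ofReal δ₂ := by
  subst hn
  obtain ⟨r, -⟩ : ∃ r : Fin (N₁ + N₂) ≃ Fin N₁ ⊕ Fin N₂, r = finSumFinEquiv.symm := ⟨_, rfl⟩
  refine ⟨fun i j => compA A₁ A₂ (r i) (r j), fun i j => ?_, fun μ ν hμ hν => ?_⟩
  · exact Combine_entry A₁ A₂ hA₁ hA₂ (r i) (r j)
  · have hf : Measurable fun (x : Fin (N₁ + N₂) → ℝ) (i : Fin N₁ ⊕ Fin N₂) => x (r.symm i) :=
      measurable_pi_lambda _ fun i => measurable_pi_apply _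
    have h1' := Measure.isProbabilityMeasure_map (μ := μ) hf.aemeasurable
    have h2' := Measure.isProbabilityMeasure_map (μ := ν) hf.aemeasurable
    obtain ⟨B, hB, hB1, hB2⟩ := combine h1 h2 ε δ₁ δ₂ hε0 hε A₁ A₂ hA₁ hA₂ hr hc
      (μ.map fun x i => x (r.symm i)) (ν.map fun x i => x (r.symm i))
    refine ⟨fun i j => B (r i) (r j), fun i j => hB _ _, ?_, ?_⟩
    · refine le_trans ?_ hB1
      refine le_trans (measure_mono ?_) (Measure.le_map_apply hf.aemeasurable _)
      rintro x ⟨y, hxy⟩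
      exact ⟨fun j => y (r.symm j), (isNE_equiv r r _ B ε x y).1 hxy⟩
    · refine le_trans ?_ hB2
      refine le_trans (measure_mono ?_) (Measure.le_map_apply hf.aemeasurable _)
      rintro y ⟨x, hxy⟩
      exact ⟨fun i => x (r.symm i), (isNE_equiv r r _ B ε x y).1 hxy⟩

end Pool.Agent.KOB
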