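import Pool.Agent.KOB.Base

/-!
# Composition of two games: the masses of the blocks
-/

set_option autoImplicit false

open Finset

noncomputable section

namespace Pool.Agent.KOB

variable {R₁ R₂ C₁ C₂ : Type} [Fintype R₁] [Fintype R₂] [Fintype C₁] [Fintype C₂]
  [DecidableEq R₁] [DecidableEq R₂] [DecidableEq C₁] [DecidableEq C₂]

omit [DecidableEq R₁] [DecidableEq R₂] in
private theorem compMass_gen (u p : R₁ ⊕ R₂ → ℝ) (hu : u ∈ stdSimplex ℝ (R₁ ⊕ R₂)) (ε : ℝ)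
    (hp : ∀ i, p i ≤ (∑ i, u i * p i) + ε) (a b : ℝ) (hb : ∃ i, b ≤ p i) :
    ((∀ i, p (.inl i) ≤ a) → (∑ i, u (.inl i)) * (b - a) ≤ ε) ∧
      ((∀ i, p (.inr i) ≤ a) → (∑ i, u (.inr i)) * (b - a) ≤ ε) := by
  obtain ⟨i₀, hi₀⟩ := hb
  obtain ⟨h0, h1⟩ := hu
  obtain ⟨V, hV⟩ : ∃ V, V = ∑ i, u i * p i := ⟨_, rfl⟩
  rw [← hV] at hp
  rw [Fintype.sum_sum_type] at h1 hV
  have hb' : b ≤ V + ε := hi₀.trans (hp i₀)
  have hL : ∑ i, u (.inl i) * p (.inl i) ≤ (∑ i, u (.inl i)) * (V + ε) := by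
    rw [sum_mul]
    exact sum_le_sum fun i _ => mul_le_mul_of_nonneg_left (hp _) (h0 _)
  have hR : ∑ i, u (.inr i) * p (.inr i) ≤ (∑ i, u (.inr i)) * (V + ε) := by
    rw [sum_mul]
    exact sum_le_sum fun i _ => mul_le_mul_of_nonneg_left (hp _) (h0 _)
  have sL : 0 ≤ ∑ i, u (.inl i) := sum_nonneg fun i _ => h0 _
  have sR : 0 ≤ ∑ i, u (.inr i) := sum_nonneg fun i _ => h0 _
  obtain ⟨s, hs⟩ : ∃ s, s = ∑ i, u (.inl i) := ⟨_, rfl⟩
  obtain ⟨s', hs'⟩ : ∃ s', s' = ∑ i, u (.inr i) := ⟨_, rfl⟩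
  rw [← hs, ← hs'] at h1
  rw [← hs] at hL sL
  rw [← hs'] at hR sR
  constructor
  · intro ha
    have hL' : ∑ i, u (.inl i) * p (.inl i) ≤ (∑ i, u (.inl i)) * a := by
      rw [sum_mul]
      exact sum_le_sum fun i _ => mul_le_mul_of_nonneg_left (ha _) (h0 _)
    rw [← hs] at hL' ⊢
    have h2 : V ≤ s * a + s' * (V + ε) := by linarith
    have h3 : s' = 1 - s := by linarith
    rw [h3] at h2
    have h4 : s * (V + ε - a) ≤ ε := by nlinarith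
    have h5 : s * (b - a) ≤ s * (V + ε - a) := mul_le_mul_of_nonneg_left (by linarith) sL
    linarith
  · intro ha
    have hR' : ∑ i, u (.inr i) * p (.inr i) ≤ (∑ i, u (.inr i)) * a := by
      rw [sum_mul]
      exact sum_le_sum fun i _ => mul_le_mul_of_nonneg_left (ha _) (h0 _)
    rw [← hs'] at hR' ⊢
    have h2 : V ≤ s * (V + ε) + s' * a := by linarith
    have h3 : s = 1 - s' := by linarith
    rw [h3] at h2
    have h4 : s' * (V + ε - a) ≤ ε := by nlinarith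
    have h5 : s' * (b - a) ≤ s' * (V + ε - a) := mul_le_mul_of_nonneg_left (by linarith) sR
    linarith

omit [Fintype R₂] [DecidableEq R₁] [DecidableEq R₂] in
private theorem compMass_half {c : R₁ → ℝ} {z : R₁ → ℝ} (hc : ∀ i, 0 ≤ c i ∧ c i ≤ 1)
    (hz : ∀ i, 0 ≤ z i) : 0 ≤ ∑ i, 1 / 2 * c i * z i ∧
      ∑ i, 1 / 2 * c i * z i ≤ 1 / 2 * ∑ i, z i := by
  constructor
  · exact sum_nonneg fun i _ => mul_nonneg (mul_nonneg (by norm_num) (hc i).1) (hz i)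
  · rw [mul_sum]
    refine sum_le_sum fun i _ => mul_le_mul_of_nonneg_right ?_ (hz i)
    have := (hc i).2
    linarith

private theorem compMass_arith {α β ε : ℝ} (hε : ε ≤ 1 / 64) (hα0 : 0 ≤ α) (hα1 : α ≤ 1)
    (hβ0 : 0 ≤ β) (hβ1 : β ≤ 1) (h1 : α * (β - ((1 - β) + 1 / 2 * β)) ≤ ε)
    (h2 : (1 - α) * ((1 - β) - (β + 1 / 2 * (1 - β))) ≤ ε)
    (h3 : β * (1 / 2 * (1 - α) - α) ≤ ε) (h4 : (1 - β) * (1 / 2 * α - (1 - α)) ≤ ε) :
    (1 / 4 ≤ α ∧ α ≤ 3 / 4) ∧ (1 / 4 ≤ β ∧ β ≤ 3 / 4) := by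
  refine ⟨⟨?_, ?_⟩, ⟨?_, ?_⟩⟩
  · by_contra hcon
    push Not at hcon
    have h5 : β * (1 / 8) ≤ β * (1 / 2 * (1 - α) - α) :=
      mul_le_mul_of_nonneg_left (by linarith) hβ0
    have h6 : β ≤ 1 / 8 := by linarith
    have h7 : (3 / 4) * (5 / 16) ≤ (1 - α) * ((1 - β) - (β + 1 / 2 * (1 - β))) :=
      mul_le_mul (by linarith) (by linarith) (by norm_num) (by linarith)
    linarith
  · by_contra hcon
    push Not at hcon
    have h5 : (1 - β) * (1 / 8) ≤ (1 - β) * (1 / 2 * α - (1 - α)) :=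
      mul_le_mul_of_nonneg_left (by linarith) (by linarith)
    have h6 : 1 - β ≤ 1 / 8 := by linarith
    have h7 : (3 / 4) * (5 / 16) ≤ α * (β - ((1 - β) + 1 / 2 * β)) :=
      mul_le_mul (by linarith) (by linarith) (by norm_num) (by linarith)
    linarith
  · by_contra hcon
    push Not at hcon
    have h5 : (1 - α) * (1 / 8) ≤ (1 - α) * ((1 - β) - (β + 1 / 2 * (1 - β))) :=
      mul_le_mul_of_nonneg_left (by linarith) (by linarith)
    have h6 : 1 - α ≤ 1 / 8 := by linarith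
    have h7 : (3 / 4) * (5 / 16) ≤ (1 - β) * (1 / 2 * α - (1 - α)) :=
      mul_le_mul (by linarith) (by linarith) (by norm_num) (by linarith)
    linarith
  · by_contra hcon
    push Not at hcon
    have h5 : α * (1 / 8) ≤ α * (β - ((1 - β) + 1 / 2 * β)) :=
      mul_le_mul_of_nonneg_left (by linarith) hα0
    have h6 : α ≤ 1 / 8 := by linarith
    have h7 : (3 / 4) * (5 / 16) ≤ β * (1 / 2 * (1 - α) - α) :=
      mul_le_mul (by linarith) (by linarith) (by norm_num) (by linarith)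
    linarith

/-- The masses of the four blocks.

Proof. `α = x(R₁)`, `β = y(C₁)`. Payoffs of the pure strategies against `y`, `x`: row `i ∈ R₁`:
`p_i = (A₁ y)_i / 2 + (1 - β) ∈ [1 - β, 1 - β/2]`, `i ∈ R₂`: `p_i ∈ [β, β + (1 - β)/2]`; column
`j ∈ C₁`: `q_j = α/2 + (x B₁)_j / 2 ∈ [α/2, α]`, `j ∈ C₂`: `q_j ∈ [(1 - α)/2, 1 - α]`.
General principle (G): if all `q_j ≤ a` on a set of columns with `y`-mass `s` and some column has
payoff `≥ b`, then with `t` the maximum of all `q_j`: `t - ε ≤ xBy ≤ s a + (1 - s) t`, so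
`s (b - a) ≤ s (t - a) ≤ ε`. The same for rows.
* `α < 1/4`: `q ≤ 1/4` on `C₁`, `q ≥ 3/8` on `C₂` (nonempty): `β/8 ≤ ε`. Then `p ≥ 1 - 8ε` on `R₁`
  and `p ≤ 1/2 + 4ε` on `R₂`: `(1 - α) (1/2 - 12 ε) ≤ ε ≤ 1/64`, but the left side is at least
  `3/4 * 5/16`. Contradiction.
* `α > 3/4`: the same with `1` and `2` exchanged.
* `β < 1/4`: `p > 3/4` on `R₁`, `p < 5/8` on `R₂`: `(1 - α)/8 ≤ ε ≤ 1/64`, `α ≥ 7/8`, contradiction.
* `β > 3/4`: `p > 3/4` on `R₂`, `p < 5/8` on `R₁`: `α/8 ≤ ε`, `α ≤ 1/8`, contradiction. -/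
theorem comp_mass [Nonempty R₁] [Nonempty R₂] [Nonempty C₁] [Nonempty C₂]
    (A₁ B₁ : R₁ → C₁ → ℝ) (A₂ B₂ : R₂ → C₂ → ℝ)
    (hA₁ : ∀ i j, 0 ≤ A₁ i j ∧ A₁ i j ≤ 1) (hA₂ : ∀ i j, 0 ≤ A₂ i j ∧ A₂ i j ≤ 1)
    (hB₁ : ∀ i j, 0 ≤ B₁ i j ∧ B₁ i j ≤ 1) (hB₂ : ∀ i j, 0 ≤ B₂ i j ∧ B₂ i j ≤ 1)
    (ε : ℝ) (hε0 : 0 ≤ ε) (hε : ε ≤ 1 / 64) (x : R₁ ⊕ R₂ → ℝ) (y : C₁ ⊕ C₂ → ℝ)
    (h : IsNE (compA A₁ A₂) (compB B₁ B₂) ε x y) :
    (1 / 4 ≤ ∑ i, x (.inl i) ∧ ∑ i, x (.inl i) ≤ 3 / 4) ∧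
      (1 / 4 ≤ ∑ j, y (.inl j) ∧ ∑ j, y (.inl j) ≤ 3 / 4) := by
  obtain ⟨hx, hy, hrow, hcol⟩ := h
  have hx0 := hx.1
  have hy0 := hy.1
  have hx1 := hx.2
  have hy1 := hy.2
  rw [Fintype.sum_sum_type] at hx1 hy1
  obtain ⟨α, hα⟩ : ∃ α, α = ∑ i, x (.inl i) := ⟨_, rfl⟩
  obtain ⟨β, hβ⟩ : ∃ β, β = ∑ j, y (.inl j) := ⟨_, rfl⟩
  have hα' : ∑ i, x (.inr i) = 1 - α := by rw [hα]; linarith
  have hβ' : ∑ j, y (.inr j) = 1 - β := by rw [hβ]; linarith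
  have hα0 : 0 ≤ α := by rw [hα]; exact sum_nonneg fun i _ => hx0 _
  have hβ0 : 0 ≤ β := by rw [hβ]; exact sum_nonneg fun i _ => hy0 _
  have hα1 : α ≤ 1 := by
    have : 0 ≤ ∑ i, x (.inr i) := sum_nonneg fun i _ => hx0 _
    linarith
  have hβ1 : β ≤ 1 := by
    have : 0 ≤ ∑ i, y (.inr i) := sum_nonneg fun i _ => hy0 _
    linarith
  -- the payoffs
  obtain ⟨p, hp⟩ : ∃ p : R₁ ⊕ R₂ → ℝ, p = fun i => ∑ j, compA A₁ A₂ i j * y j := ⟨_, rfl⟩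
  obtain ⟨q, hq⟩ : ∃ q : C₁ ⊕ C₂ → ℝ, q = fun j => ∑ i, x i * compB B₁ B₂ i j := ⟨_, rfl⟩
  have hpV : pay (compA A₁ A₂) x y = ∑ i, x i * p i := by
    unfold pay
    refine sum_congr rfl fun i _ => ?_
    rw [hp]
    simp only
    rw [mul_sum]
    exact sum_congr rfl fun j _ => by ring
  have hqV : pay (compB B₁ B₂) x y = ∑ j, y j * q j := by
    unfold pay
    rw [sum_comm]
    refine sum_congr rfl fun j _ => ?_
    rw [hq]
    simp only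
    rw [mul_sum]
    exact sum_congr rfl fun i _ => by ring
  have hpi : ∀ i, p i ≤ (∑ i, x i * p i) + ε := by
    intro i
    have h1 := hrow (Pi.single i 1) (single_mem_stdSimplex ℝ i)
    rw [hpV] at h1
    refine le_trans (le_of_eq ?_) h1
    unfold pay
    rw [sum_eq_single i]
    · rw [hp]
      simp
    · intro i' _ hi'
      simp [Pi.single_eq_of_ne hi']
    · intro h
      exact absurd (mem_univ _) h
  have hqj : ∀ j, q j ≤ (∑ j, y j * q j) + ε := by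
    intro j
    have h1 := hcol (Pi.single j 1) (single_mem_stdSimplex ℝ j)
    rw [hqV] at h1
    refine le_trans (le_of_eq ?_) h1
    unfold pay
    rw [sum_comm, sum_eq_single j]
    · rw [hq]
      simp
    · intro j' _ hj'
      simp [Pi.single_eq_of_ne hj']
    · intro h
      exact absurd (mem_univ _) h
  have hpl : ∀ i, 1 - β ≤ p (.inl i) ∧ p (.inl i) ≤ (1 - β) + 1 / 2 * β := by
    intro i
    have e : p (.inl i) = ∑ j, 1 / 2 * A₁ i j * y (.inl j) + (1 - β) := by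
      rw [hp, ← hβ']
      simp only [Fintype.sum_sum_type, compA, one_mul]
    have h2 := compMass_half (fun j => hA₁ i j) (fun j => hy0 (.inl j))
    rw [← hβ] at h2
    rw [e]
    constructor <;> linarith [h2.1, h2.2]
  have hpr : ∀ i, β ≤ p (.inr i) ∧ p (.inr i) ≤ β + 1 / 2 * (1 - β) := by
    intro i
    have e : p (.inr i) = β + ∑ j, 1 / 2 * A₂ i j * y (.inr j) := by
      rw [hp, hβ]
      simp only [Fintype.sum_sum_type, compA, one_mul]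
    have h2 := compMass_half (fun j => hA₂ i j) (fun j => hy0 (.inr j))
    rw [hβ'] at h2
    rw [e]
    constructor <;> linarith [h2.1, h2.2]
  have hql : ∀ j, 1 / 2 * α ≤ q (.inl j) ∧ q (.inl j) ≤ α := by
    intro j
    have e : q (.inl j) = 1 / 2 * α + ∑ i, 1 / 2 * B₁ i j * x (.inl i) := by
      rw [hq, hα, mul_sum, ← sum_add_distrib]
      simp only [Fintype.sum_sum_type, compB, mul_zero, sum_const_zero, add_zero]
      exact sum_congr rfl fun i _ => by ring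
    have h2 := compMass_half (fun i => hB₁ i j) (fun i => hx0 (.inl i))
    rw [← hα] at h2
    rw [e]
    constructor <;> linarith [h2.1, h2.2]
  have hqr : ∀ j, 1 / 2 * (1 - α) ≤ q (.inr j) ∧ q (.inr j) ≤ 1 - α := by
    intro j
    have e : q (.inr j) = 1 / 2 * (1 - α) + ∑ i, 1 / 2 * B₂ i j * x (.inr i) := by
      rw [hq, ← hα', mul_sum, ← sum_add_distrib]
      simp only [Fintype.sum_sum_type, compB, mul_zero, sum_const_zero, zero_add]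
      exact sum_congr rfl fun i _ => by ring
    have h2 := compMass_half (fun i => hB₂ i j) (fun i => hx0 (.inr i))
    rw [hα'] at h2
    rw [e]
    constructor <;> linarith [h2.1, h2.2]
  obtain ⟨i₁⟩ := ‹Nonempty R₁›
  obtain ⟨i₂⟩ := ‹Nonempty R₂›
  obtain ⟨j₁⟩ := ‹Nonempty C₁›
  obtain ⟨j₂⟩ := ‹Nonempty C₂›
  have g1 := (compMass_gen x p hx ε hpi ((1 - β) + 1 / 2 * β) β ⟨.inr i₂, (hpr i₂).1⟩).1
    (fun i => (hpl i).2)
  have g2 := (compMass_gen x p hx ε hpi (β + 1 / 2 * (1 - β)) (1 - β) ⟨.inl i₁, (hpl i₁).1⟩).2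
    (fun i => (hpr i).2)
  have g3 := (compMass_gen y q hy ε hqj α (1 / 2 * (1 - α)) ⟨.inr j₂, (hqr j₂).1⟩).1
    (fun j => (hql j).2)
  have g4 := (compMass_gen y q hy ε hqj (1 - α) (1 / 2 * α) ⟨.inl j₁, (hql j₁).1⟩).2
    (fun j => (hqr j).2)
  rw [← hα] at g1
  rw [hα'] at g2
  rw [← hβ] at g3
  rw [hβ'] at g4
  rw [← hα, ← hβ]
  exact compMass_arith hε hα0 hα1 hβ0 hβ1 g1 g2 g3 g4

end Pool.Agent.KOB
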