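import Mathlib

/-!
# Counting the sets with a large intersection
-/

set_option autoImplicit false

open Finset

noncomputable section

namespace Pool.Agent.KOB

private theorem choose_le_Count (N m : ℕ) (hm : m ≤ N) (h : ℕ) (hh : h ≤ m) :
    (N - h).choose (m - h) * N ^ h ≤ m ^ h * N.choose m := by
  induction h with
  | zero => simp
  | succ h ih =>
    have ih' := ih (by omega)
    obtain ⟨a, ha⟩ : ∃ a, N - h = a + 1 := ⟨N - h - 1, by omega⟩
    obtain ⟨b, hb⟩ : ∃ b, m - h = b + 1 := ⟨m - h - 1, by omega⟩
    have ha' : N - (h + 1) = a := by omega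
    have hb' : m - (h + 1) = b := by omega
    rw [ha', hb']
    rw [ha, hb] at ih'
    have h1 : (a + 1) * a.choose b = (a + 1).choose (b + 1) * (b + 1) :=
      Nat.add_one_mul_choose_eq a b
    have h2 : N * (b + 1) ≤ m * (a + 1) := by
      have hN : N = a + 1 + h := by omega
      have hM : m = b + 1 + h := by omega
      have hab : b ≤ a := by omega
      rw [hN, hM]
      nlinarith [Nat.mul_le_mul_left h hab]
    refine Nat.le_of_mul_le_mul_left (c := a + 1) ?_ (Nat.succ_pos a)
    calc (a + 1) * (a.choose b * N ^ (h + 1)) = (a + 1) * a.choose b * (N ^ h * N) := by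
          rw [pow_succ, mul_assoc]
      _ = ((a + 1).choose (b + 1) * N ^ h) * (N * (b + 1)) := by rw [h1]; ring
      _ ≤ (m ^ h * N.choose m) * (m * (a + 1)) := Nat.mul_le_mul ih' h2
      _ = (a + 1) * (m ^ (h + 1) * N.choose m) := by rw [pow_succ]; ring

private theorem card_superset_Count (N m h : ℕ) (H : Finset (Fin N)) (hH : H.card = h) :
    (((univ : Finset (Fin N)).powersetCard m).filter fun S => H ⊆ S).card ≤
      (N - h).choose (m - h) := by
  have h1 : ((univ \ H : Finset (Fin N)).powersetCard (m - h)).card =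
      (N - h).choose (m - h) := by
    rw [card_powersetCard, card_sdiff_of_subset (subset_univ H), card_univ, Fintype.card_fin, hH]
  rw [← h1]
  refine card_le_card_of_injOn (fun S => S \ H) (fun S hS => ?_) (fun S hS T hT hST => ?_)
  · rw [mem_coe, mem_filter, mem_powersetCard] at hS
    rw [mem_coe, mem_powersetCard]
    refine ⟨sdiff_subset_sdiff (subset_univ S) (Subset.refl H), ?_⟩
    rw [card_sdiff_of_subset hS.2, hS.1.2, hH]
  · rw [mem_coe, mem_filter] at hS hT
    have h2 : S \ H = T \ H := hST
    rw [← sdiff_union_of_subset hS.2, h2, sdiff_union_of_subset hT.2]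

/-- Few sets of size `m` meet a given small set `G` in at least `h` elements.

Proof. Each such `S` contains an `h`-subset `H` of `G`. There are `C(|G|, h) ≤ 2^|G|` sets `H`, and
each is contained in `C(N - h, m - h)` sets of size `m`. Finally
`C(N - h, m - h) ≤ (m / N)^h C(N, m)` by induction on `h`:
`N * C(N - 1, m - 1) = m * C(N, m)` and `(m - k)/(N - k) ≤ m / N`. -/
theorem count_sets (N m h : ℕ) (hN : 0 < N) (hm : m ≤ N) (hh : h ≤ m) (G : Finset (Fin N)) :
    ((((univ : Finset (Fin N)).powersetCard m).filter fun S => h ≤ (S ∩ G).card).card : ℝ) ≤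
      (2 : ℝ) ^ G.card * ((m : ℝ) / N) ^ h * (N.choose m) := by
  have h1 : (((univ : Finset (Fin N)).powersetCard m).filter fun S => h ≤ (S ∩ G).card) ⊆
      (G.powersetCard h).biUnion fun H =>
        ((univ : Finset (Fin N)).powersetCard m).filter fun S => H ⊆ S := by
    intro S hS
    rw [mem_filter] at hS
    obtain ⟨H, hH, hHc⟩ := exists_subset_card_eq hS.2
    rw [mem_biUnion]
    refine ⟨H, mem_powersetCard.2 ⟨hH.trans inter_subset_right, hHc⟩, ?_⟩
    rw [mem_filter]
    exact ⟨hS.1, hH.trans inter_subset_left⟩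
  have h2 : (((univ : Finset (Fin N)).powersetCard m).filter
      fun S => h ≤ (S ∩ G).card).card ≤ 2 ^ G.card * (N - h).choose (m - h) := by
    calc _ ≤ _ := card_le_card h1
      _ ≤ (G.powersetCard h).card * (N - h).choose (m - h) :=
          card_biUnion_le_card_mul _ _ _ fun H hH =>
            card_superset_Count N m h H (mem_powersetCard.1 hH).2
      _ ≤ 2 ^ G.card * (N - h).choose (m - h) := by
          refine Nat.mul_le_mul_right _ ?_
          rw [card_powersetCard]
          exact Nat.choose_le_two_pow _ _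
  have h3 := choose_le_Count N m hm h hh
  have hN' : (0 : ℝ) < (N : ℝ) ^ h := pow_pos (Nat.cast_pos.2 hN) h
  have h4 : ((N - h).choose (m - h) : ℝ) ≤ ((m : ℝ) / N) ^ h * (N.choose m) := by
    rw [div_pow, div_mul_eq_mul_div, le_div_iff₀ hN']
    exact_mod_cast h3
  calc ((((univ : Finset (Fin N)).powersetCard m).filter fun S => h ≤ (S ∩ G).card).card : ℝ) ≤
      (2 : ℝ) ^ G.card * ((N - h).choose (m - h) : ℝ) := by exact_mod_cast h2
    _ ≤ (2 : ℝ) ^ G.card * (((m : ℝ) / N) ^ h * (N.choose m)) :=
        mul_le_mul_of_nonneg_left h4 (by positivity)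
    _ = (2 : ℝ) ^ G.card * ((m : ℝ) / N) ^ h * (N.choose m) := by ring

end Pool.Agent.KOB
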