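import Mathlib

/-!
# Approximate Nash equilibria of bimatrix games: definitions
-/

set_option autoImplicit false

open Finset MeasureTheory

noncomputable section

namespace Pool.Agent.KOB

/-- The expected payoff `x A y`. -/
def pay {R C : Type} [Fintype R] [Fintype C] (A : R → C → ℝ) (x : R → ℝ) (y : C → ℝ) : ℝ :=
  ∑ i, ∑ j, x i * A i j * y j

/-- `(x, y)` is an `ε`-approximate Nash equilibrium of the bimatrix game `(A, B)`: `x` and `y` are
mixed strategies, and no player can gain more than `ε` by changing the own strategy. -/
structure IsNE {R C : Type} [Fintype R] [Fintype C] (A B : R → C → ℝ) (ε : ℝ) (x : R → ℝ)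
    (y : C → ℝ) : Prop where
  /-- the strategy of the row player -/
  hx : x ∈ stdSimplex ℝ R
  /-- the strategy of the column player -/
  hy : y ∈ stdSimplex ℝ C
  /-- the row player -/
  row : ∀ x' ∈ stdSimplex ℝ R, pay A x' y ≤ pay A x y + ε
  /-- the column player -/
  col : ∀ y' ∈ stdSimplex ℝ C, pay B x y' ≤ pay B x y + ε

end Pool.Agent.KOB
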