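import Pool.Agent.KOB.Base
import Pool.Agent.KOB.Hoef

/-!
# Bad sets of columns are rare
-/

set_option autoImplicit false

open Finset

noncomputable section

namespace Pool.Agent.KOB

open Classical in
/-- One row. Proof. `hoeffding_count` with `ι = Fin N`, `Ω = Bool`,
`f j b = if j ∈ J then bit b - 1/2 else 0`, `c j = if j ∈ J then 1/2 else 0`, `∑ c^2 = M/4`,
`s = η M`: the exponent is `(η M)^2 / (M/2) = 2 η^2 M`. -/
theorem row_bad_card (N M : ℕ) (hM : 0 < M) (J : Finset (Fin N)) (hJ : J.card = M) (η : ℝ)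
    (hη : 0 < η) :
    ((univ.filter fun r : Fin N → Bool => (1 / 2 + η) * M < ∑ j ∈ J, bit (r j)).card : ℝ) ≤
      Real.exp (-(2 * η ^ 2 * M)) * (2 : ℝ) ^ N := by
  have hM' : (0 : ℝ) < M := by exact_mod_cast hM
  have hV : ∑ j : Fin N, (if j ∈ J then (1 / 2 : ℝ) else 0) ^ 2 = M / 4 := by
    have h1 : ∀ j : Fin N, (if j ∈ J then (1 / 2 : ℝ) else 0) ^ 2 =
        if j ∈ J then (1 / 4 : ℝ) else 0 := fun j => by split_ifs <;> norm_num
    rw [sum_congr rfl fun j _ => h1 j, sum_ite_mem, univ_inter, sum_const, hJ, nsmul_eq_mul]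
    ring
  have h := hoeffding_count (ι := Fin N) (Ω := Bool)
    (fun j b => if j ∈ J then bit b - 1 / 2 else 0) (fun j => if j ∈ J then 1 / 2 else 0)
    (fun j b => by
      show |if j ∈ J then bit b - 1 / 2 else 0| ≤ if j ∈ J then 1 / 2 else 0
      split_ifs
      · cases b
        · simp [bit]
        · rw [bit, if_pos rfl]
          norm_num [abs_le]
      · simp)
    (fun j => by
      show ∑ b, (if j ∈ J then bit b - 1 / 2 else 0) = 0
      split_ifs
      · simp only [Fintype.sum_bool, bit]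
        norm_num
      · simp)
    (η * M) (by positivity) (by rw [hV]; positivity)
  rw [hV, Fintype.card_bool, Fintype.card_fin] at h
  have he : (η * M) ^ 2 / (2 * ((M : ℝ) / 4)) = 2 * η ^ 2 * M := by
    field_simp
    ring
  rw [he] at h
  refine le_trans ?_ (h.trans_eq (by norm_num))
  refine Nat.cast_le.2 (card_le_card fun r hr => ?_)
  rw [mem_filter] at hr ⊢
  refine ⟨mem_univ r, ?_⟩
  have h2 := hr.2
  have h3 : ∑ j, (if j ∈ J then bit (r j) - 1 / 2 else 0) = ∑ j ∈ J, bit (r j) - M / 2 := by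
    rw [sum_ite_mem, univ_inter, sum_sub_distrib, sum_const, hJ, nsmul_eq_mul]
    ring
  rw [h3]
  linarith

open Classical in
/-- All rows. Proof. Union bound over `i`; for fixed `i` the number of matrices is the number of
rows `w i` (`row_bad_card`) times `(2^N)^(N-1)`. (For instance by `Fintype.card_piFinset`: the
matrices with `w i ∈ Z` are the `piFinset` of `Function.update (fun _ => univ) i Z`; or
`Fintype.piFinset` with `if k = i then Z else univ`.) -/
theorem mat_bad_card (N M : ℕ) (hM : 0 < M) (J : Finset (Fin N)) (hJ : J.card = M) (η : ℝ)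
    (hη : 0 < η) :
    ((univ.filter fun w : Fin N → Fin N → Bool =>
      ∃ i, (1 / 2 + η) * M < ∑ j ∈ J, bit (w i j)).card : ℝ) ≤
      N * Real.exp (-(2 * η ^ 2 * M)) * ((2 : ℝ) ^ N) ^ N := by
  have hrow := row_bad_card N M hM J hJ η hη
  obtain ⟨Z, hZ⟩ : ∃ Z : Finset (Fin N → Bool), Z =
    univ.filter fun r : Fin N → Bool => (1 / 2 + η) * M < ∑ j ∈ J, bit (r j) := ⟨_, rfl⟩
  rw [← hZ] at hrow
  have hone : ∀ i : Fin N, ((univ.filter fun w : Fin N → Fin N → Bool => w i ∈ Z).card : ℝ) ≤
      Real.exp (-(2 * η ^ 2 * M)) * ((2 : ℝ) ^ N) ^ N := by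
    intro i
    have h1 : (univ.filter fun w : Fin N → Fin N → Bool => w i ∈ Z) =
        Fintype.piFinset fun k => if k = i then Z else univ := by
      ext w
      rw [mem_filter, Fintype.mem_piFinset]
      constructor
      · rintro ⟨-, hw⟩ k
        split_ifs with hk
        · rw [hk]
          exact hw
        · exact mem_univ _
      · intro hw
        refine ⟨mem_univ w, ?_⟩
        have := hw i
        rwa [if_pos rfl] at this
    have h2 : (Fintype.piFinset fun k : Fin N => if k = i then Z else univ).card =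
        Z.card * (2 ^ N) ^ (N - 1) := by
      rw [Fintype.card_piFinset, ← mul_prod_erase univ _ (mem_univ i), if_pos rfl]
      congr 1
      rw [prod_congr rfl (g := fun _ => 2 ^ N) fun k hk => by
        rw [if_neg (ne_of_mem_erase hk), card_univ, Fintype.card_fun, Fintype.card_bool,
          Fintype.card_fin]]
      rw [prod_const, card_erase_of_mem (mem_univ i), card_univ, Fintype.card_fin]
    have hN : 0 < N := i.pos
    rw [h1, h2, Nat.cast_mul]
    push_cast
    have h3 : ((2 : ℝ) ^ N) ^ N = (2 : ℝ) ^ N * ((2 : ℝ) ^ N) ^ (N - 1) := by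
      rw [← pow_succ']
      congr 1
      omega
    rw [h3, ← mul_assoc]
    exact mul_le_mul_of_nonneg_right hrow (by positivity)
  have hsub : (univ.filter fun w : Fin N → Fin N → Bool =>
      ∃ i, (1 / 2 + η) * M < ∑ j ∈ J, bit (w i j)) ⊆
      univ.biUnion fun i => univ.filter fun w : Fin N → Fin N → Bool => w i ∈ Z := by
    intro w hw
    obtain ⟨i, hi⟩ := (mem_filter.1 hw).2
    refine mem_biUnion.2 ⟨i, mem_univ i, mem_filter.2 ⟨mem_univ w, ?_⟩⟩
    rw [hZ]
    exact mem_filter.2 ⟨mem_univ _, hi⟩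
  calc ((univ.filter fun w : Fin N → Fin N → Bool =>
        ∃ i, (1 / 2 + η) * M < ∑ j ∈ J, bit (w i j)).card : ℝ)
      ≤ ((univ.biUnion fun i => univ.filter fun w : Fin N → Fin N → Bool => w i ∈ Z).card : ℝ) :=
        Nat.cast_le.2 (card_le_card hsub)
    _ ≤ ((∑ i : Fin N, (univ.filter fun w : Fin N → Fin N → Bool => w i ∈ Z).card : ℕ) : ℝ) :=
        Nat.cast_le.2 card_biUnion_le
    _ = ∑ i : Fin N, ((univ.filter fun w : Fin N → Fin N → Bool => w i ∈ Z).card : ℝ) :=
        Nat.cast_sum _ _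
    _ ≤ ∑ _i : Fin N, Real.exp (-(2 * η ^ 2 * M)) * ((2 : ℝ) ^ N) ^ N :=
        sum_le_sum fun i _ => hone i
    _ = N * Real.exp (-(2 * η ^ 2 * M)) * ((2 : ℝ) ^ N) ^ N := by
        rw [sum_const, card_univ, Fintype.card_fin, nsmul_eq_mul]
        ring

end Pool.Agent.KOB
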