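import Mathlib

/-!
# Parameters for the row player
-/

set_option autoImplicit false

noncomputable section

namespace Pool.Agent.KOB

/-- Parameters for the row player.

Proof. `L = log N`, `c0 = 1/100000`, `e₀ = 1/200`, `N₀ = ⌈exp 2000⌉₊` (so `L ≥ 2000`),
`c = c0/4`, `q = ⌊c0 L / e^2⌋₊`, `d = ⌈24 e q⌉₊`, `X = c0 L / e^2 ≥ 2`. Note `0 < e` and
`N^(-1/10) = exp (-L/10)`, so `e^8 ≥ exp (-8L/10)`, `1/e^2 ≤ exp (L/5)`.
* `X/2 ≤ X - 1 ≤ q ≤ X`. `e q ≥ c0 L/(2 e) ≥ 100 c0 L ≥ 1`, so `24 e q ≤ d ≤ 25 e q`;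
  `4 d ≤ 100 e q ≤ q`; `6 e ≤ d/(4q)`.
* `4 q ≤ 4 c0 L / e^2 ≤ L exp (L/5) ≤ exp (3L/10)` (`L ≤ (L/10)^2/2 ≤ exp (L/10)`), `≤ N`.
* `2 d^2/q ≤ 1250 e^2 q ≤ 1250 c0 L = L/80`.
* Union bound: `4 q ≤ L/e^2`, so `p := exp (-(2 d^2/q))/(4q) ≥ e^2 exp (-L/80)/L` and
  `e^2 p^2 N/8 ≥ e^6 exp (39L/40)/(8 L^2)`. The logarithm of `N^(4q) (2N+1)` is at most
  `4 q L + 2 L ≤ 4 c0 L^2/e^2 + 2 L < 2 L^2/e^2` (`log (2N+1) ≤ 2L`). It remains
  `e^8 exp (39L/40) ≥ exp (7L/40) ≥ 16 L^4`, by `(7L/40)^8/8! ≤ exp (7L/40)`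
  (`Real.pow_div_factorial_le_exp`) and `L ≥ 2000`.
* `(4q/N)^(2q) ≤ (exp (-7L/10))^(2q) ≤ exp (- q L)`, `2 * 2^(128 q) ≤ 2^(129 q) ≤ exp (129 q) ≤
  exp (q L/2)`. So the product is at most `exp (- q L/2) ≤ exp (- c0 L^2/(4 e^2))`. -/
theorem row_params : ∃ c e₀ : ℝ, ∃ N₀ : ℕ, 0 < c ∧ 0 < e₀ ∧ e₀ ≤ 1 ∧ 0 < N₀ ∧
    ∀ N : ℕ, N₀ ≤ N → ∀ e : ℝ, (N : ℝ) ^ (-(1 / 10 : ℝ)) ≤ e → e ≤ e₀ →
      ∃ q d : ℕ, 0 < q ∧ 4 * d ≤ q ∧ 4 * q ≤ N ∧ 6 * e ≤ (d : ℝ) / (4 * q) ∧
        (N : ℝ) ^ (4 * q) * (2 * N + 1) *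
          Real.exp (-(e ^ 2 * (Real.exp (-(2 * (d : ℝ) ^ 2 / q)) / (4 * q)) ^ 2 * N / 8)) < 1 ∧
        2 * ((2 : ℝ) ^ (128 * q) * (((4 * q : ℕ) : ℝ) / N) ^ (2 * q)) ≤
          Real.exp (-(c * Real.log N ^ 2 / e ^ 2)) := by
  refine ⟨1 / 400000, 1 / 200, ⌈Real.exp 2000⌉₊, by norm_num, by norm_num, by norm_num,
    Nat.ceil_pos.2 (Real.exp_pos _), fun N hN e he1 he2 => ?_⟩
  have hNr : Real.exp 2000 ≤ N := (Nat.le_ceil _).trans (by exact_mod_cast hN)
  have hN0 : (0 : ℝ) < N := (Real.exp_pos _).trans_le hNr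
  obtain ⟨L, hL⟩ : ∃ L, L = Real.log N := ⟨_, rfl⟩
  have hL1 : 2000 ≤ L := by
    rw [hL]
    exact (Real.le_log_iff_exp_le hN0).2 hNr
  have hL0 : 0 < L := by linarith
  have hNL : (N : ℝ) = Real.exp L := by rw [hL, Real.exp_log hN0]
  have heL : Real.exp (-(L / 10)) ≤ e := by
    refine le_trans (le_of_eq ?_) he1
    rw [hNL, ← Real.exp_mul]
    congr 1
    ring
  have he0 : 0 < e := (Real.exp_pos _).trans_le heL
  have he2' : Real.exp (-(L / 5)) ≤ e ^ 2 := by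
    calc Real.exp (-(L / 5)) = Real.exp (-(L / 10)) ^ 2 := by
          rw [← Real.exp_nat_mul]
          congr 1
          push_cast
          ring
      _ ≤ e ^ 2 := pow_le_pow_left₀ (Real.exp_pos _).le heL 2
  have he8 : Real.exp (-(4 * L / 5)) ≤ e ^ 8 := by
    calc Real.exp (-(4 * L / 5)) = Real.exp (-(L / 10)) ^ 8 := by
          rw [← Real.exp_nat_mul]
          congr 1
          push_cast
          ring
      _ ≤ e ^ 8 := pow_le_pow_left₀ (Real.exp_pos _).le heL 8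
  obtain ⟨X, hX⟩ : ∃ X, X = L / 100000 / e ^ 2 := ⟨_, rfl⟩
  have hXe : e ^ 2 * X = L / 100000 := by
    rw [hX]
    field_simp
  have hesq : e ^ 2 ≤ 1 / 40000 := by nlinarith
  have hX1 : 800 ≤ X := by
    rw [hX, le_div_iff₀ (by positivity)]
    nlinarith
  obtain ⟨q, hq⟩ : ∃ q, q = ⌊X⌋₊ := ⟨_, rfl⟩
  have hq1 : (q : ℝ) ≤ X := by
    rw [hq]
    exact Nat.floor_le (by linarith)
  have hq2 : X < q + 1 := by
    rw [hq]
    exact Nat.lt_floor_add_one X
  have hq3 : X / 2 ≤ q := by linarith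
  have hq0 : (0 : ℝ) < q := by linarith
  have hqe : e ^ 2 * q ≤ L / 100000 := by
    rw [← hXe]
    exact mul_le_mul_of_nonneg_left hq1 (by positivity)
  have heX : 4 ≤ e * X := by
    have h1 : e * (e * X) = L / 100000 := by
      rw [← hXe]
      ring
    have h2 : 0 < e * X := by positivity
    nlinarith
  have heq : 2 ≤ e * q := by
    have h1 := mul_le_mul_of_nonneg_left hq3 he0.le
    linarith
  obtain ⟨d, hd⟩ : ∃ d, d = ⌈24 * e * (q : ℝ)⌉₊ := ⟨_, rfl⟩
  have hd1 : 24 * e * (q : ℝ) ≤ d := by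
    rw [hd]
    exact Nat.le_ceil _
  have hd2 : (d : ℝ) < 24 * e * (q : ℝ) + 1 := by
    rw [hd]
    exact Nat.ceil_lt_add_one (by positivity)
  have hd3 : (d : ℝ) ≤ 25 * (e * q) := by linarith
  have hLexp : L ≤ Real.exp (L / 10) := by
    have h1 := Real.pow_div_factorial_le_exp (x := L / 10) (by positivity) 2
    have h2 : L ≤ (L / 10) ^ 2 / ((2 : ℕ).factorial : ℝ) := by
      rw [Nat.factorial_two]
      push_cast
      nlinarith
    exact h2.trans h1
  have h4q : 4 * (q : ℝ) ≤ Real.exp (3 * L / 10) := by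
    have h1 : X ≤ L / 100000 * Real.exp (L / 5) := by
      rw [hX, div_le_iff₀ (by positivity)]
      have h2 : 1 ≤ Real.exp (L / 5) * e ^ 2 := by
        calc (1 : ℝ) = Real.exp (L / 5) * Real.exp (-(L / 5)) := by
              rw [← Real.exp_add, add_neg_cancel, Real.exp_zero]
          _ ≤ _ := mul_le_mul_of_nonneg_left he2' (Real.exp_pos _).le
      have h3 := mul_le_mul_of_nonneg_left h2 (show 0 ≤ L / 100000 by positivity)
      linarith
    have h2 : L * Real.exp (L / 5) ≤ Real.exp (L / 10) * Real.exp (L / 5) :=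
      mul_le_mul_of_nonneg_right hLexp (Real.exp_pos _).le
    have h3 : Real.exp (L / 10) * Real.exp (L / 5) = Real.exp (3 * L / 10) := by
      rw [← Real.exp_add]
      congr 1
      ring
    have h4 : 0 ≤ L * Real.exp (L / 5) := by positivity
    rw [← h3]
    linarith
  refine ⟨q, d, by exact_mod_cast hq0, ?_, ?_, ?_, ?_, ?_⟩
  · have h1 : 4 * (d : ℝ) ≤ q := by nlinarith
    exact_mod_cast h1
  · have h1 : 4 * (q : ℝ) ≤ N := by
      rw [hNL]
      exact h4q.trans (Real.exp_le_exp.2 (by linarith))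
    exact_mod_cast h1
  · rw [le_div_iff₀ (by positivity)]
    linarith
  · have hD : 2 * (d : ℝ) ^ 2 / q ≤ L / 80 := by
      rw [div_le_iff₀ hq0]
      have h1 : (d : ℝ) ^ 2 ≤ (25 * (e * q)) ^ 2 := pow_le_pow_left₀ (Nat.cast_nonneg d) hd3 2
      have h2 := mul_le_mul_of_nonneg_right hqe hq0.le
      nlinarith
    obtain ⟨p, hp⟩ : ∃ p, p = Real.exp (-(2 * (d : ℝ) ^ 2 / q)) / (4 * (q : ℝ)) := ⟨_, rfl⟩
    have hp1 : e ^ 2 * Real.exp (-(L / 80)) / L ≤ p := by
      rw [hp, div_le_div_iff₀ hL0 (by positivity)]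
      have h1 : Real.exp (-(L / 80)) ≤ Real.exp (-(2 * (d : ℝ) ^ 2 / q)) :=
        Real.exp_le_exp.2 (by linarith)
      have h2 : e ^ 2 * (4 * (q : ℝ)) ≤ L := by linarith
      calc e ^ 2 * Real.exp (-(L / 80)) * (4 * (q : ℝ))
          = Real.exp (-(L / 80)) * (e ^ 2 * (4 * (q : ℝ))) := by ring
        _ ≤ Real.exp (-(2 * (d : ℝ) ^ 2 / q)) * L :=
            mul_le_mul h1 h2 (by positivity) (Real.exp_pos _).le
    have hp2 : (e ^ 2 * Real.exp (-(L / 80)) / L) ^ 2 ≤ p ^ 2 :=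
      pow_le_pow_left₀ (by positivity) hp1 2
    have h16 : 16 * L ^ 4 ≤ Real.exp (7 * L / 40) := by
      have h1 := Real.pow_div_factorial_le_exp (x := 7 * L / 40) (by positivity) 8
      refine le_trans ?_ h1
      have h2 : ((8 : ℕ).factorial : ℝ) = 40320 := by
        norm_num [Nat.factorial]
      rw [h2, le_div_iff₀ (by norm_num)]
      have h3 : (2000 : ℝ) ^ 4 ≤ L ^ 4 := pow_le_pow_left₀ (by norm_num) hL1 4
      have h4 : (7 * L / 40) ^ 8 = (7 / 40) ^ 8 * (L ^ 4 * L ^ 4) := by ring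
      rw [h4]
      have h5 : 0 ≤ L ^ 4 := by positivity
      have h6 := mul_le_mul_of_nonneg_right h3 h5
      norm_num at h6 ⊢
      nlinarith
    have hkey : 16 * L ^ 4 ≤ e ^ 8 * Real.exp (39 * L / 40) := by
      refine h16.trans ?_
      calc Real.exp (7 * L / 40) = Real.exp (-(4 * L / 5)) * Real.exp (39 * L / 40) := by
            rw [← Real.exp_add]
            congr 1
            ring
        _ ≤ _ := mul_le_mul_of_nonneg_right he8 (Real.exp_pos _).le
    have hbig : 2 * L ^ 2 / e ^ 2 ≤ e ^ 2 * p ^ 2 * N / 8 := by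
      have h1 : e ^ 2 * (e ^ 2 * Real.exp (-(L / 80)) / L) ^ 2 * Real.exp L / 8 =
          e ^ 8 * Real.exp (39 * L / 40) / (8 * L ^ 2 * e ^ 2) := by
        have h2 : Real.exp (-(L / 80)) ^ 2 * Real.exp L = Real.exp (39 * L / 40) := by
          rw [← Real.exp_nat_mul, ← Real.exp_add]
          congr 1
          push_cast
          ring
        rw [← h2]
        field_simp
      have h2 : e ^ 2 * (e ^ 2 * Real.exp (-(L / 80)) / L) ^ 2 * Real.exp L / 8 ≤
          e ^ 2 * p ^ 2 * N / 8 := by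
        rw [hNL]
        gcongr
      refine le_trans ?_ h2
      rw [h1, div_le_div_iff₀ (by positivity) (by positivity)]
      have h3 := mul_le_mul_of_nonneg_right hkey (show 0 ≤ e ^ 2 by positivity)
      nlinarith
    have hsmall : 4 * (q : ℝ) * L + 2 * L < 2 * L ^ 2 / e ^ 2 := by
      rw [lt_div_iff₀ (by positivity)]
      have h1 : (4 * (q : ℝ) * L + 2 * L) * e ^ 2 = 4 * L * (e ^ 2 * q) + 2 * L * e ^ 2 := by
        ring
      rw [h1]
      have h2 := mul_le_mul_of_nonneg_left hqe (show 0 ≤ 4 * L by positivity)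
      have h3 := mul_le_mul_of_nonneg_left hesq (show 0 ≤ 2 * L by positivity)
      nlinarith
    have hN2 : 2 * (N : ℝ) + 1 ≤ Real.exp (2 * L) := by
      have h1 : Real.exp (2 * L) = Real.exp L * Real.exp L := by
        rw [← Real.exp_add]
        congr 1
        ring
      rw [h1, hNL]
      have h2 : 3 ≤ Real.exp L := by
        have := Real.add_one_le_exp L
        linarith
      nlinarith
    have hNq : (N : ℝ) ^ (4 * q) = Real.exp (4 * (q : ℝ) * L) := by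
      rw [hNL, ← Real.exp_nat_mul]
      congr 1
      push_cast
      ring
    rw [← hp, hNq]
    calc Real.exp (4 * (q : ℝ) * L) * (2 * N + 1) *
          Real.exp (-(e ^ 2 * p ^ 2 * N / 8))
        ≤ Real.exp (4 * (q : ℝ) * L) * Real.exp (2 * L) *
          Real.exp (-(e ^ 2 * p ^ 2 * N / 8)) := by gcongr
      _ = Real.exp (4 * (q : ℝ) * L + 2 * L + -(e ^ 2 * p ^ 2 * N / 8)) := by
          rw [Real.exp_add, Real.exp_add]
      _ < 1 := by
          rw [← Real.exp_zero]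
          exact Real.exp_lt_exp.2 (by linarith)
  · have h1 : (((4 * q : ℕ) : ℝ) / N) ≤ Real.exp (-(7 * L / 10)) := by
      rw [div_le_iff₀ hN0, hNL, ← Real.exp_add]
      push_cast
      refine h4q.trans (le_of_eq ?_)
      congr 1
      ring
    have h2 : (((4 * q : ℕ) : ℝ) / N) ^ (2 * q) ≤ Real.exp (-(q * L)) := by
      calc (((4 * q : ℕ) : ℝ) / N) ^ (2 * q) ≤ Real.exp (-(7 * L / 10)) ^ (2 * q) :=
            pow_le_pow_left₀ (by positivity) h1 _
        _ = Real.exp (((2 * q : ℕ) : ℝ) * -(7 * L / 10)) := (Real.exp_nat_mul _ _).symm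
        _ ≤ Real.exp (-(q * L)) := by
            refine Real.exp_le_exp.2 ?_
            push_cast
            have h3 : 0 ≤ (q : ℝ) * L := by positivity
            nlinarith
    have h3 : (2 : ℝ) * 2 ^ (128 * q) ≤ Real.exp (q * L / 2) := by
      have h4 : (2 : ℝ) ≤ Real.exp 1 := by
        have := Real.add_one_le_exp (1 : ℝ)
        linarith
      have hq1' : 1 ≤ q := by exact_mod_cast hq0
      calc (2 : ℝ) * 2 ^ (128 * q) = 2 ^ (128 * q + 1) := by ring
        _ ≤ 2 ^ (129 * q) := pow_le_pow_right₀ (by norm_num) (by omega)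
        _ ≤ Real.exp 1 ^ (129 * q) := pow_le_pow_left₀ (by norm_num) h4 _
        _ = Real.exp (((129 * q : ℕ) : ℝ) * 1) := (Real.exp_nat_mul _ _).symm
        _ ≤ Real.exp (q * L / 2) := by
            refine Real.exp_le_exp.2 ?_
            push_cast
            nlinarith
    rw [← hL]
    calc 2 * ((2 : ℝ) ^ (128 * q) * (((4 * q : ℕ) : ℝ) / N) ^ (2 * q))
        = 2 * 2 ^ (128 * q) * (((4 * q : ℕ) : ℝ) / N) ^ (2 * q) := by ring
      _ ≤ Real.exp (q * L / 2) * Real.exp (-(q * L)) :=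
          mul_le_mul h3 h2 (by positivity) (Real.exp_pos _).le
      _ = Real.exp (-(q * L / 2)) := by
          rw [← Real.exp_add]
          congr 1
          ring
      _ ≤ Real.exp (-(1 / 400000 * L ^ 2 / e ^ 2)) := by
          refine Real.exp_le_exp.2 (neg_le_neg ?_)
          have h5 : 1 / 400000 * L ^ 2 / e ^ 2 = X / 2 * L / 2 := by
            rw [hX]
            field_simp
            norm_num
          rw [h5]
          have h6 := mul_le_mul_of_nonneg_right hq3 hL0.le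
          linarith

end Pool.Agent.KOB
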