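import Pool.Agent.KOB.Base

/-!
# The row player must spread over the hidden set
-/

set_option autoImplicit false

open Finset

noncomputable section

namespace Pool.Agent.KOB

variable {R C : Type} [Fintype R] [Fintype C] [DecidableEq R] [DecidableEq C]

omit [DecidableEq R] in
private theorem row_pay_col (A : R → C → ℝ) (x : R → ℝ) (j : C) :
    pay A x (Pi.single j 1) = ∑ i, x i * A i j := by
  unfold pay
  refine Finset.sum_congr rfl fun i _ => ?_
  rw [Finset.sum_eq_single j]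
  · simp
  · intro b _ hb
    rw [Pi.single_eq_of_ne hb]
    simp
  · simp

omit [DecidableEq R] in
private theorem row_pay_bonus (A : R → C → ℝ) (J : Finset C) (x : R → ℝ) (y : C → ℝ)
    (hx : ∑ i, x i = 1) (hy : ∑ j, y j = 1) :
    pay (bonus A J) x y = 1 / 2 * ∑ j ∈ J, y j + 1 / 2 * (1 - pay A x y) := by
  have e1 : ∀ i, ∑ j, x i * bonus A J i j * y j =
      x i * (1 / 2 * ∑ j ∈ J, y j) + 1 / 2 * (x i * ∑ j, y j) -
        1 / 2 * ∑ j, x i * A i j * y j := by
    intro i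
    have e2 : ∑ j ∈ J, y j = ∑ j, if j ∈ J then y j else 0 := by
      rw [Finset.sum_ite_mem, Finset.univ_inter]
    rw [e2, Finset.mul_sum, Finset.mul_sum, Finset.mul_sum, Finset.mul_sum, Finset.mul_sum,
      ← Finset.sum_add_distrib, ← Finset.sum_sub_distrib]
    refine Finset.sum_congr rfl fun j _ => ?_
    unfold bonus
    split_ifs <;> ring
  unfold pay
  rw [Finset.sum_congr rfl fun i _ => e1 i, Finset.sum_sub_distrib, Finset.sum_add_distrib,
    ← Finset.sum_mul, ← Finset.mul_sum, ← Finset.mul_sum, ← Finset.sum_mul, hx, hy]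
  ring

omit [DecidableEq R] in
/-- The column player does not lose against a pure strategy `j ∈ J`.

Proof. `h.col (Pi.single j 1)`: the payoff of the pure strategy is
`∑ i, x i * (1/2 + 1/2 (1 - A i j)) = 1/2 + 1/2 (1 - ∑ i, x i * A i j)` (as `∑ x = 1`), and
`pay (bonus A J) x y = 1/2 ∑_(j ∈ J) y j + 1/2 (1 - pay A x y)`. -/
theorem col_regret (A : R → C → ℝ) (e : ℝ) (J : Finset C) (x : R → ℝ) (y : C → ℝ)
    (h : IsNE A (bonus A J) e x y) (j : C) (hj : j ∈ J) :
    pay A x y + (1 - ∑ j ∈ J, y j) - 2 * e ≤ ∑ i, x i * A i j := by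
  have hx1 : ∑ i, x i = 1 := h.hx.2
  have hy1 : ∑ j, y j = 1 := h.hy.2
  have h1 := h.col (Pi.single j 1) (single_mem_stdSimplex ℝ j)
  rw [row_pay_col, row_pay_bonus A J x y hx1 hy1] at h1
  have e1 : ∑ i, x i * bonus A J i j = 1 - 1 / 2 * ∑ i, x i * A i j := by
    have e2 : ∀ i, x i * bonus A J i j = x i - 1 / 2 * (x i * A i j) := by
      intro i
      unfold bonus
      rw [if_pos hj]
      ring
    rw [Finset.sum_congr rfl fun i _ => e2 i, Finset.sum_sub_distrib, ← Finset.mul_sum, hx1]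
  rw [e1] at h1
  linarith

/-- The row player spreads over `S`.

Proof. Let `v0 = 1/2 + d/(4q) ≤ 1` and `z = 1 - ∑_(j ∈ J) y j ∈ [0, 1]`.
(1) `h.row` against the uniform strategy on `S` (value `1/(4q)` on `S`): its payoff is
`∑ j, y j * (∑_(i ∈ S) A i j)/(4q) ≥ ∑_(j ∈ J) y j * v0 = (1 - z) v0` (`A ≥ 0`, `hJS`), so
`pay A x y ≥ (1 - z) v0 - e`.
(2) `col_regret`: for `j ∈ J`: `∑ i, x i * A i j ≥ pay A x y + z - 2e ≥ v0 + z (1 - v0) - 3e ≥
v0 - 3e`.
(3) Suppose that fewer than `2q` elements `i` of `S` have `x i ≥ 1/(32q)`. Choose `H` with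
`{i ∈ S : x i ≥ 1/(32q)} ⊆ H ⊆ S`, `|H| = 2q` (`Finset.exists_subsuperset_card_eq`). Then
`∑_(i ∈ S \ H) x i ≤ 2q / (32q) = 1/16`. Take `J'` from `hH` and sum (2) over `J' ⊆ J`:
`(v0 - 3e) |J'| ≤ ∑ i, x i * ∑_(j ∈ J') A i j ≤ (1/2 + e) |J'| + (1/16) * 2 * (d/(4q)) * |J'|`,
so `d/(4q) - 3e ≤ e + (1/8) d/(4q)`, `(7/8) d/(4q) ≤ 4e`, which contradicts `6e ≤ d/(4q)`,
`e > 0`. -/
theorem row_spread (A : R → C → ℝ) (hA : ∀ i j, 0 ≤ A i j) (e : ℝ) (he : 0 < e) (q d : ℕ)
    (hq : 0 < q) (hd : d ≤ 2 * q) (hed : 6 * e ≤ (d : ℝ) / (4 * q)) (S : Finset R)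
    (hS : S.card = 4 * q) (J : Finset C)
    (hJS : ∀ j ∈ J, ∑ i ∈ S, A i j = 2 * q + d)
    (hH : ∀ H ⊆ S, H.card = 2 * q → ∃ J' ⊆ J, J'.Nonempty ∧
      (∀ i, i ∉ S \ H → ∑ j ∈ J', A i j ≤ (1 / 2 + e) * J'.card) ∧
      (∀ i ∈ S \ H, ∑ j ∈ J', A i j ≤ (1 / 2 + 2 * ((d : ℝ) / (4 * q)) + e) * J'.card))
    (x : R → ℝ) (y : C → ℝ) (h : IsNE A (bonus A J) e x y) :
    2 * q ≤ (S.filter fun i => 1 / (32 * (q : ℝ)) ≤ x i).card := by
  have hx0 : ∀ i, 0 ≤ x i := h.hx.1
  have hx1 : ∑ i, x i = 1 := h.hx.2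
  have hy0 : ∀ j, 0 ≤ y j := h.hy.1
  have hy1 : ∑ j, y j = 1 := h.hy.2
  have hq' : (0 : ℝ) < q := by exact_mod_cast hq
  have hd' : (d : ℝ) ≤ 2 * q := by exact_mod_cast hd
  set D : ℝ := (d : ℝ) / (4 * q) with hD
  set v : ℝ := (2 * q + d : ℝ) / (4 * q) with hv
  have hvD : v = 1 / 2 + D := by
    rw [hv, hD]
    field_simp
    ring
  have hD1 : D ≤ 1 / 2 := by
    rw [hD, div_le_iff₀ (by positivity)]
    linarith
  have hv1 : v ≤ 1 := by rw [hvD]; linarith
  set z : ℝ := 1 - ∑ j ∈ J, y j with hz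
  have hJle : ∑ j ∈ J, y j ≤ 1 := by
    rw [← hy1]
    exact Finset.sum_le_sum_of_subset_of_nonneg (Finset.subset_univ _) fun j _ _ => hy0 j
  have hz0 : 0 ≤ z := by rw [hz]; linarith
  -- the uniform strategy on `S`
  have h1 : (1 - z) * v - e ≤ pay A x y := by
    set u : R → ℝ := fun i => if i ∈ S then 1 / (4 * (q : ℝ)) else 0 with hu
    have hus : u ∈ stdSimplex ℝ R := by
      refine ⟨fun i => ?_, ?_⟩
      · rw [hu]
        dsimp only
        split_ifs
        · positivity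
        · exact le_rfl
      · rw [hu]
        dsimp only
        rw [Finset.sum_ite_mem, Finset.univ_inter, Finset.sum_const, hS, nsmul_eq_mul]
        push_cast
        field_simp
    have h2 := h.row u hus
    have h3 : pay A u y = ∑ j, y j * ((∑ i ∈ S, A i j) * (1 / (4 * q))) := by
      unfold pay
      rw [Finset.sum_comm]
      refine Finset.sum_congr rfl fun j _ => ?_
      have e2 : ∑ i ∈ S, A i j = ∑ i, if i ∈ S then A i j else 0 := by
        rw [Finset.sum_ite_mem, Finset.univ_inter]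
      rw [e2, Finset.sum_mul, Finset.mul_sum]
      refine Finset.sum_congr rfl fun i _ => ?_
      rw [hu]
      dsimp only
      split_ifs <;> ring
    have h4 : (1 - z) * v ≤ pay A u y := by
      rw [h3]
      have e3 : (1 - z) * v = ∑ j ∈ J, y j * ((∑ i ∈ S, A i j) * (1 / (4 * q))) := by
        have e4 : (1 - z) = ∑ j ∈ J, y j := by rw [hz]; ring
        rw [e4, Finset.sum_mul]
        refine Finset.sum_congr rfl fun j hj => ?_
        rw [hJS j hj, hv]
        ring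
      rw [e3]
      refine Finset.sum_le_sum_of_subset_of_nonneg (Finset.subset_univ _) fun j _ _ => ?_
      exact mul_nonneg (hy0 j) (mul_nonneg (Finset.sum_nonneg fun i _ => hA i j)
        (by positivity))
    linarith
  have h2 : ∀ j ∈ J, v - 3 * e ≤ ∑ i, x i * A i j := by
    intro j hj
    have h3 := col_regret A e J x y h j hj
    rw [← hz] at h3
    nlinarith [mul_nonneg hz0 (sub_nonneg.2 hv1)]
  by_contra hcon
  rw [not_le] at hcon
  obtain ⟨H, hH1, hH2, hH3⟩ := Finset.exists_subsuperset_card_eq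
    (Finset.filter_subset (fun i => 1 / (32 * (q : ℝ)) ≤ x i) S) hcon.le
    (by rw [hS]; omega)
  obtain ⟨J', hJ', hne, ha, hb⟩ := hH H hH2 hH3
  have hsmall : ∑ i ∈ S \ H, x i ≤ 1 / 16 := by
    have h3 : ∀ i ∈ S \ H, x i ≤ 1 / (32 * (q : ℝ)) := by
      intro i hi
      rw [Finset.mem_sdiff] at hi
      by_contra h4
      rw [not_le] at h4
      exact hi.2 (hH1 (Finset.mem_filter.2 ⟨hi.1, h4.le⟩))
    refine (Finset.sum_le_card_nsmul _ _ _ h3).trans ?_
    rw [Finset.card_sdiff_of_subset hH2, hS, hH3, nsmul_eq_mul]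
    have h5 : ((4 * q - 2 * q : ℕ) : ℝ) = 2 * q := by
      have : 4 * q - 2 * q = 2 * q := by omega
      rw [this]
      push_cast
      ring
    rw [h5, mul_one_div, div_le_div_iff₀ (by positivity) (by norm_num)]
    linarith
  have hc : (0 : ℝ) < J'.card := by
    exact_mod_cast Finset.card_pos.2 hne
  have h3 : (v - 3 * e) * J'.card ≤ ∑ i, x i * ∑ j ∈ J', A i j := by
    have h4 : ∑ i, x i * ∑ j ∈ J', A i j = ∑ j ∈ J', ∑ i, x i * A i j := by
      rw [Finset.sum_comm]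
      refine Finset.sum_congr rfl fun i _ => ?_
      rw [Finset.mul_sum]
    rw [h4, mul_comm, ← nsmul_eq_mul]
    exact Finset.card_nsmul_le_sum _ _ _ fun j hj => h2 j (hJ' hj)
  have hD0 : 0 ≤ D := by rw [hD]; positivity
  have h4 : ∑ i, x i * ∑ j ∈ J', A i j ≤
      (1 / 2 + e) * J'.card + 2 * D * J'.card * (1 / 16) := by
    have h5 : ∀ i, x i * ∑ j ∈ J', A i j ≤
        x i * ((1 / 2 + e) * J'.card) + (if i ∈ S \ H then x i else 0) * (2 * D * J'.card) := by
      intro i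
      by_cases hi : i ∈ S \ H
      · rw [if_pos hi, ← mul_add]
        refine mul_le_mul_of_nonneg_left ((hb i hi).trans (le_of_eq ?_)) (hx0 i)
        ring
      · rw [if_neg hi, zero_mul, add_zero]
        exact mul_le_mul_of_nonneg_left (ha i hi) (hx0 i)
    refine (Finset.sum_le_sum fun i _ => h5 i).trans ?_
    rw [Finset.sum_add_distrib, ← Finset.sum_mul, ← Finset.sum_mul, hx1, one_mul,
      Finset.sum_ite_mem, Finset.univ_inter]
    have h6 : (∑ i ∈ S \ H, x i) * (2 * D * J'.card) ≤ 1 / 16 * (2 * D * J'.card) :=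
      mul_le_mul_of_nonneg_right hsmall (by positivity)
    linarith
  have h5 : (v - 3 * e) * J'.card ≤ (1 / 2 + e + D / 8) * J'.card := by
    refine (h3.trans h4).trans (le_of_eq ?_)
    ring
  have h6 := le_of_mul_le_mul_right h5 hc
  rw [hvD] at h6
  linarith

end Pool.Agent.KOB
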