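import Pool.Agent.KOB.Pat
import Pool.Agent.KOB.Cols
import Pool.Agent.KOB.Row

/-!
# The row player must spread
-/

set_option autoImplicit false

open Finset

noncomputable section

namespace Pool.Agent.KOB

private theorem bit_nonneg (b : Bool) : 0 ≤ bit b := by
  unfold bit
  split_ifs
  · exact zero_le_one
  · exact le_rfl

private theorem sum_bit {N : ℕ} (S : Finset (Fin N)) (w : Fin N → Bool) :
    ∑ i ∈ S, bit (w i) = ((S.filter fun i => w i = true).card : ℝ) := by
  unfold bit
  rw [Finset.sum_ite, Finset.sum_const_zero, add_zero, Finset.sum_const, nsmul_eq_mul, mul_one]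

/-- from the averages over the columns -/
private theorem sum_le_of_sees {N : ℕ} {v : Fin N → Fin N → Bool}
    {F : Finset (Fin N → Bool)} {e : ℝ} (h : Sees v F e) {i : Fin N} {m : ℝ}
    (hm : mean F i = m) : ∑ j ∈ cols v F, bit (v j i) ≤ (m + e) * (cols v F).card := by
  have h1 := (abs_le.1 (h.2 i)).2
  rw [Finset.sum_sub_distrib, Finset.sum_const, nsmul_eq_mul, hm] at h1
  linarith

/-- The columns `v` give a matrix in which the row player must spread, for every set `S`.

Proof. `row_spread` with `A i j = bit (v j i)` and the given `J`. Its hypothesis `hH`: for `H ⊆ S`,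
`|H| = 2q` let `P = S \ H`, `|P| = 2q`, `F = pat H P q (q+d)`, `J' = cols v F`. For `j ∈ J'`:
`∑_(i ∈ S) A i j = q + (q + d)`, so `J' ⊆ J`. `Sees` gives `J'` nonempty and
`∑_(j ∈ J') A i j ≤ (mean F i + e) |J'|`. The means (`pat_mean_left`, `pat_mean_right`,
`pat_mean_off`; `F` is nonempty): `1/2` on `H`, `(q+d)/(2q) = 1/2 + 2 (d/(4q))` on `P = S \ H`,
`1/2` off `S`. -/
theorem cols_spread {N : ℕ} (q d : ℕ) (hq : 0 < q) (hd : 4 * d ≤ q) (e : ℝ) (he : 0 < e)
    (hed : 6 * e ≤ (d : ℝ) / (4 * q)) (v : Fin N → Fin N → Bool)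
    (hv : ∀ H P : Finset (Fin N), Disjoint H P → H.card = 2 * q → P.card = 2 * q →
      Sees v (pat H P q (q + d)) e) (S : Finset (Fin N)) (hS : S.card = 4 * q)
    (J : Finset (Fin N))
    (hJ : ∀ j, j ∈ J ↔ (S.filter fun i => v j i = true).card = 2 * q + d)
    (x y : Fin N → ℝ) (h : IsNE (fun i j => bit (v j i)) (bonus (fun i j => bit (v j i)) J) e x y) :
    2 * q ≤ (S.filter fun i => 1 / (32 * (q : ℝ)) ≤ x i).card := by
  have hq' : (0 : ℝ) < q := by exact_mod_cast hq
  refine row_spread (fun i j => bit (v j i)) (fun i j => bit_nonneg _) e he q d hq (by omega) hed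
    S hS J (fun j hj => ?_) (fun H hHS hHc => ?_) x y h
  · rw [sum_bit, (hJ j).1 hj]
    push_cast
    ring
  · have hPc : (S \ H).card = 2 * q := by
      rw [Finset.card_sdiff_of_subset hHS, hS, hHc]
      omega
    have hdis : Disjoint H (S \ H) := Finset.disjoint_sdiff
    have hsee := hv H (S \ H) hdis hHc hPc
    obtain ⟨j₀, hj₀⟩ := hsee.1
    have hF0 : (0 : ℝ) < (pat H (S \ H) q (q + d)).card := by
      have h1 : v j₀ ∈ pat H (S \ H) q (q + d) := (Finset.mem_filter.1 hj₀).2
      exact_mod_cast Finset.card_pos.2 ⟨_, h1⟩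
    have hmH : ∀ i ∈ H, mean (pat H (S \ H) q (q + d)) i = 1 / 2 := by
      intro i hi
      have h1 := pat_mean_left H (S \ H) hdis q (q + d) i hi
      rw [hHc] at h1
      push_cast at h1
      unfold mean
      rw [div_eq_iff hF0.ne']
      have h2 : (q : ℝ) * (∑ v ∈ pat H (S \ H) q (q + d), bit (v i)) =
          q * (1 / 2 * (pat H (S \ H) q (q + d)).card) := by linarith
      exact mul_left_cancel₀ hq'.ne' h2
    have hmP : ∀ i ∈ S \ H, mean (pat H (S \ H) q (q + d)) i =
        1 / 2 + 2 * ((d : ℝ) / (4 * q)) := by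
      intro i hi
      have h1 := pat_mean_right H (S \ H) hdis q (q + d) i hi
      rw [hPc] at h1
      push_cast at h1
      unfold mean
      rw [div_eq_iff hF0.ne']
      have h2 : (q : ℝ) * (∑ v ∈ pat H (S \ H) q (q + d), bit (v i)) =
          q * ((1 / 2 + 2 * ((d : ℝ) / (4 * q))) * (pat H (S \ H) q (q + d)).card) := by
        have h3 : (q : ℝ) * ((1 / 2 + 2 * ((d : ℝ) / (4 * q))) *
            (pat H (S \ H) q (q + d)).card) =
            (q + d) / 2 * (pat H (S \ H) q (q + d)).card := by
          field_simp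
          ring
        rw [h3]
        linarith
      exact mul_left_cancel₀ hq'.ne' h2
    have hmO : ∀ i, i ∉ H → i ∉ S \ H → mean (pat H (S \ H) q (q + d)) i = 1 / 2 := by
      intro i hi hi'
      have h1 := pat_mean_off H (S \ H) q (q + d) i hi hi'
      unfold mean
      rw [div_eq_iff hF0.ne']
      linarith
    refine ⟨cols v (pat H (S \ H) q (q + d)), ?_, hsee.1, ?_, ?_⟩
    · intro j hj
      have h1 : v j ∈ pat H (S \ H) q (q + d) := (Finset.mem_filter.1 hj).2
      obtain ⟨-, h2, h3⟩ := Finset.mem_filter.1 h1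
      refine (hJ j).2 ?_
      have h4 : (S.filter fun i => v j i = true) =
          (H.filter fun i => v j i = true) ∪ ((S \ H).filter fun i => v j i = true) := by
        rw [← Finset.filter_union, Finset.union_sdiff_of_subset hHS]
      rw [h4, Finset.card_union_of_disjoint (Finset.disjoint_filter_filter hdis), h2, h3]
      omega
    · intro i hi
      by_cases hiH : i ∈ H
      · exact sum_le_of_sees hsee (hmH i hiH)
      · exact sum_le_of_sees hsee (hmO i hiH hi)
    · intro i hi
      exact sum_le_of_sees hsee (hmP i hi)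

end Pool.Agent.KOB
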