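import Pool.Agent.KOB.RowA
import Pool.Agent.KOB.RowB
import Pool.Agent.KOB.Meas
import Pool.Agent.KOB.ParRow

/-!
# Matrices which hide the row strategy
-/

set_option autoImplicit false

open Finset MeasureTheory

noncomputable section

namespace Pool.Agent.KOB

/-- There are matrices which hide the row strategy.

Proof. Take `c e₀ N₀` from `row_params`, for `N`, `e` the numbers `q d` (`e > 0` as
`N^(-1/10) > 0`), `v` from `exists_cols`, `A i j = bit (v j i)`. For `μ` take `S` from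
`exists_light` with `m = 4q`, `h = 2q`, `K = 128 q`, `t = 1/(128 q)`, `𝒢` = all sets of size `4q`,
`J = {j | #{i ∈ S : v j i} = 2q + d}` and `B = bonus A J` (entries `0, 1/2, 1`). If `w` is in the
set of `RowHide` with `α`, `y`, then `x i = w i / α` is in the simplex, so `w i = α x i ≥ 0`,
`∑ w = α ≤ 1`, and by `cols_spread` at least `2q` elements `i ∈ S` have `x i ≥ 1/(32q)`, so
`w i ≥ 1/(128 q)`: `w ∈ Heavy S (2q) (1/(128q))`. Use `measure_mono` and monotonicity of
`ENNReal.ofReal`. -/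
theorem rowHide_exists : ∃ c e₀ : ℝ, ∃ N₀ : ℕ, 0 < c ∧ 0 < e₀ ∧ ∀ N : ℕ, N₀ ≤ N → ∀ e : ℝ,
    (N : ℝ) ^ (-(1 / 10 : ℝ)) ≤ e → e ≤ e₀ → ∃ A : Fin N → Fin N → ℝ,
      (∀ i j, A i j = 0 ∨ A i j = 1) ∧
      RowHide A e (Real.exp (-(c * Real.log N ^ 2 / e ^ 2))) := by
  classical
  obtain ⟨c, e₀, N₀, hc, he₀, he₀1, hN₀, H⟩ := row_params
  refine ⟨c, e₀, N₀, hc, he₀, ?_⟩
  intro N hN e hNe hee
  obtain ⟨q, d, hq, hd, hqN, hed, hsmall, hfin⟩ := H N hN e hNe hee
  have hNpos : 0 < N := lt_of_lt_of_le hN₀ hN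
  have he : 0 < e := lt_of_lt_of_le (Real.rpow_pos_of_pos (by exact_mod_cast hNpos) _) hNe
  obtain ⟨v, hv⟩ := exists_cols hNpos q d hq hd e he (hee.trans he₀1) hsmall
  have hq' : (0 : ℝ) < q := by exact_mod_cast hq
  refine ⟨fun i j => bit (v j i), fun i j => ?_, ?_⟩
  · by_cases h : v j i = true
    · exact Or.inr (by simp [bit, h])
    · exact Or.inl (by simp [bit, h])
  intro μ hμ
  obtain ⟨S, hS, hSμ⟩ := exists_light (N := N) (m := 4 * q) (h := 2 * q) (K := 128 * q)
    (1 / (128 * (q : ℝ))) (by positivity)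
    (by push_cast; rw [mul_one_div_cancel (by positivity)]) hNpos hqN
    (by omega) ((univ : Finset (Fin N)).powersetCard (4 * q)) (Finset.Subset.refl _)
    (by rw [Finset.card_powersetCard, Finset.card_univ, Fintype.card_fin]; omega) μ
  have hScard : S.card = 4 * q := (Finset.mem_powersetCard.1 hS).2
  refine ⟨bonus (fun i j => bit (v j i))
    (univ.filter fun j => (S.filter fun i => v j i = true).card = 2 * q + d), ?_, ?_⟩
  · intro i j
    have hb : (1 : ℝ) / 2 * (1 - bit (v j i)) = 0 ∨ (1 : ℝ) / 2 * (1 - bit (v j i)) = 1 / 2 := by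
      cases v j i <;> simp [bit]
    show (if j ∈ _ then (1 : ℝ) / 2 else 0) + 1 / 2 * (1 - bit (v j i)) = 0 ∨
      (if j ∈ _ then (1 : ℝ) / 2 else 0) + 1 / 2 * (1 - bit (v j i)) = 1 / 2 ∨
      (if j ∈ _ then (1 : ℝ) / 2 else 0) + 1 / 2 * (1 - bit (v j i)) = 1
    rcases hb with hb | hb <;> rw [hb] <;> split_ifs
    · exact Or.inr (Or.inl (by norm_num))
    · exact Or.inl (by norm_num)
    · exact Or.inr (Or.inr (by norm_num))
    · exact Or.inr (Or.inl (by norm_num))
  · refine (measure_mono ?_).trans (hSμ.trans (ENNReal.ofReal_le_ofReal ?_))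
    · rintro w ⟨α, hα1, hα2, y, hNE⟩
      have hα : (0 : ℝ) < α := by linarith
      have hw : ∀ i, w i = α * (w i / α) := fun i => by field_simp
      have hx0 : ∀ i, 0 ≤ w i / α := hNE.hx.1
      have hx1 : ∑ i, w i / α = 1 := hNE.hx.2
      refine ⟨fun i => ?_, ?_, ?_⟩
      · rw [hw i]
        exact mul_nonneg hα.le (hx0 i)
      · have : ∑ i, w i = α := by
          rw [Finset.sum_congr rfl fun i _ => hw i, ← Finset.mul_sum, hx1, mul_one]
        linarith
      · refine (cols_spread q d hq hd e he hed v hv S hScard _ (fun j => by simp) _ y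
          hNE).trans (Finset.card_le_card ?_)
        intro i hi
        rw [Finset.mem_filter] at hi ⊢
        refine ⟨hi.1, ?_⟩
        have h1 : 1 / (32 * (q : ℝ)) ≤ w i / α := hi.2
        rw [hw i]
        calc 1 / (128 * (q : ℝ)) = 1 / 4 * (1 / (32 * (q : ℝ))) := by
              field_simp; norm_num
          _ ≤ α * (w i / α) := mul_le_mul hα1 h1 (by positivity) hα.le
    · convert hfin using 1

end Pool.Agent.KOB
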