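import Pool.Agent.KOB.Combine
import Pool.Agent.KOB.RowEx
import Pool.Agent.KOB.ColEx

/-!
# The theorem
-/

set_option autoImplicit false

open Finset MeasureTheory

noncomputable section

namespace Pool.Agent.KOB

private theorem num_Main {c c₁ ε : ℝ} {N n : ℕ} (hc₁ : 0 < c₁) (hc : c ≤ c₁ / 4096)
    (hN : (n : ℝ) ≤ 3 * N) (hn : 9 ≤ n) (hε : (n : ℝ) ^ (-(1 / 10 : ℝ)) ≤ ε) :
    (N : ℝ) ^ (-(1 / 10 : ℝ)) ≤ 32 * ε ∧
      Real.exp (-(c₁ * Real.log N ^ 2 / (32 * ε) ^ 2)) ≤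
        Real.exp (-(c * Real.log n ^ 2 / ε ^ 2)) := by
  have hn9 : (9 : ℝ) ≤ n := by exact_mod_cast hn
  have hn0 : (0 : ℝ) < n := by linarith
  have hN0 : (0 : ℝ) < N := by linarith
  have hpos : 0 < (n : ℝ) ^ (-(1 / 10 : ℝ)) := Real.rpow_pos_of_pos hn0 _
  have hε0 : 0 < ε := lt_of_lt_of_le hpos hε
  refine ⟨?_, ?_⟩
  · have h1 : (N : ℝ) ^ (-(1 / 10 : ℝ)) ≤ ((n : ℝ) / 3) ^ (-(1 / 10 : ℝ)) :=
      Real.rpow_le_rpow_of_nonpos (by positivity) (by linarith) (by norm_num)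
    have h2 : ((n : ℝ) / 3) ^ (-(1 / 10 : ℝ)) =
        (n : ℝ) ^ (-(1 / 10 : ℝ)) / (3 : ℝ) ^ (-(1 / 10 : ℝ)) :=
      Real.div_rpow hn0.le (by norm_num) _
    have h3 : (1 : ℝ) / 32 ≤ (3 : ℝ) ^ (-(1 / 10 : ℝ)) := by
      calc (1 : ℝ) / 32 ≤ (3 : ℝ) ^ (-1 : ℝ) := by
            rw [Real.rpow_neg_one]
            norm_num
        _ ≤ (3 : ℝ) ^ (-(1 / 10 : ℝ)) :=
            Real.rpow_le_rpow_of_exponent_le (by norm_num) (by norm_num)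
    have h4 : (n : ℝ) ^ (-(1 / 10 : ℝ)) / (3 : ℝ) ^ (-(1 / 10 : ℝ)) ≤
        32 * (n : ℝ) ^ (-(1 / 10 : ℝ)) := by
      rw [div_le_iff₀ (by positivity)]
      nlinarith [mul_le_mul_of_nonneg_left h3 hpos.le]
    rw [h2] at h1
    linarith
  · have h5 : Real.log n ≤ 2 * Real.log N := by
      have h6 : (2 : ℝ) * Real.log N = Real.log ((N : ℝ) ^ 2) := by
        rw [Real.log_pow]
        norm_num
      rw [h6]
      exact Real.log_le_log hn0 (by nlinarith)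
    have h6 : 0 ≤ Real.log n := Real.log_nonneg (by linarith)
    have h7 : Real.log n ^ 2 ≤ 4 * Real.log N ^ 2 := by nlinarith
    have h8 := mul_le_mul_of_nonneg_right hc (sq_nonneg (Real.log n))
    have h9 : c * Real.log n ^ 2 * 1024 ≤ c₁ * Real.log N ^ 2 := by
      nlinarith [mul_le_mul_of_nonneg_left h7 hc₁.le]
    apply Real.exp_le_exp.2
    apply neg_le_neg
    rw [div_le_div_iff₀ (by positivity) (by positivity)]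
    nlinarith [mul_le_mul_of_nonneg_right h9 (sq_nonneg ε)]

/-- The theorem.

Proof. `c₁ e₁ N₁⁰` from `rowHide_exists`, `c₂ e₂ N₂⁰` from `colHide_exists`. `c = min c₁ c₂ / 4096`,
`ε₀ = min (1/64) (min e₁ e₂ / 32)`, `n₀ = 2 max(N₁⁰, N₂⁰) + 9`. For `n ≥ n₀`: `N₁ = n/2`,
`N₂ = n - n/2`, both `≥ n/3`, so `N_i^(-1/10) ≤ 3^(1/10) n^(-1/10) ≤ 32 n^(-1/10) ≤ 32 ε` and
`N_i ≥ n/3 ≥ √n`, so `log N_i ≥ (log n)/2`, and
`c_i (log N_i)^2/(32 ε)^2 ≥ c_i (log n)^2/(4096 ε^2)`. Use `combine_fin`. -/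
theorem main : ∃ c ε₀ : ℝ, ∃ n₀ : ℕ, 0 < c ∧ 0 < ε₀ ∧ ∀ n : ℕ, n₀ ≤ n → ∀ ε : ℝ,
    (n : ℝ) ^ (-(1 / 10 : ℝ)) ≤ ε → ε ≤ ε₀ → ∃ A : Fin n → Fin n → ℝ,
      (∀ i j, A i j = 0 ∨ A i j = 1 / 2 ∨ A i j = 1) ∧
      ∀ (μ ν : Measure (Fin n → ℝ)) [IsProbabilityMeasure μ] [IsProbabilityMeasure ν],
        ∃ B : Fin n → Fin n → ℝ,
          (∀ i j, B i j = 0 ∨ B i j = 1 / 2 ∨ B i j = 3 / 4 ∨ B i j = 1) ∧
          μ {x | ∃ y, IsNE A B ε x y} ≤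
            ENNReal.ofReal (Real.exp (-(c * Real.log n ^ 2 / ε ^ 2))) ∧
          ν {y | ∃ x, IsNE A B ε x y} ≤
            ENNReal.ofReal (Real.exp (-(c * Real.log n ^ 2 / ε ^ 2))) := by
  obtain ⟨c₁, e₁, M₁, hc₁, he₁, H₁⟩ := rowHide_exists
  obtain ⟨c₂, e₂, M₂, hc₂, he₂, H₂⟩ := colHide_exists
  refine ⟨min c₁ c₂ / 4096, min (1 / 64) (min e₁ e₂ / 32), 2 * max M₁ M₂ + 9,
    div_pos (lt_min hc₁ hc₂) (by norm_num),
    lt_min (by norm_num) (div_pos (lt_min he₁ he₂) (by norm_num)), fun n hn ε hε1 hε2 => ?_⟩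
  have hM₁ := le_max_left M₁ M₂
  have hM₂ := le_max_right M₁ M₂
  have hn9 : 9 ≤ n := by omega
  have hε0 : 0 ≤ ε := le_trans (Real.rpow_nonneg (Nat.cast_nonneg n) _) hε1
  have hε3 : ε ≤ 1 / 64 := hε2.trans (min_le_left _ _)
  have hε4 : ε ≤ min e₁ e₂ / 32 := hε2.trans (min_le_right _ _)
  have he₁' := min_le_left e₁ e₂
  have he₂' := min_le_right e₁ e₂
  have hc₁' := min_le_left c₁ c₂
  have hc₂' := min_le_right c₁ c₂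
  have hN₁ : (n : ℝ) ≤ 3 * ((n / 2 : ℕ) : ℝ) := by
    have h : n ≤ 3 * (n / 2) := by omega
    exact_mod_cast h
  have hN₂ : (n : ℝ) ≤ 3 * ((n - n / 2 : ℕ) : ℝ) := by
    have h : n ≤ 3 * (n - n / 2) := by omega
    exact_mod_cast h
  have k₁ := num_Main (c := min c₁ c₂ / 4096) hc₁ (by linarith) hN₁ hn9 hε1
  have k₂ := num_Main (c := min c₁ c₂ / 4096) hc₂ (by linarith) hN₂ hn9 hε1
  obtain ⟨A₁, hA₁, hr⟩ := H₁ (n / 2) (by omega) (32 * ε) k₁.1 (by linarith)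
  obtain ⟨A₂, hA₂, hc⟩ := H₂ (n - n / 2) (by omega) (32 * ε) k₂.1 (by linarith)
  obtain ⟨A, hA, H⟩ := combine_fin (n := n) (by omega) (by omega) (by omega) ε _ _ hε0 hε3
    A₁ A₂ hA₁ hA₂ hr hc
  refine ⟨A, hA, fun μ ν _ _ => ?_⟩
  obtain ⟨B, hB, h1, h2⟩ := H μ ν
  exact ⟨B, hB, h1.trans (ENNReal.ofReal_le_ofReal k₁.2),
    h2.trans (ENNReal.ofReal_le_ofReal k₂.2)⟩

end Pool.Agent.KOB
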