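import Pool.Agent.KOB.Bin
import Pool.Agent.KOB.Pat
import Pool.Agent.KOB.Cols

/-!
# Columns which see all the classes
-/

set_option autoImplicit false

open Finset

noncomputable section

namespace Pool.Agent.KOB

/-- The classes for the row player are large.

Proof. `pat_card` (`|P| = |H| = 2q`): `|pat| * 2^(4q) = C(2q, q) C(2q, q+d) 2^N`; `choose_lower`
with `0` and with `d`: `C(2q, q) C(2q, q+d) ≥ 16^q exp (-(2 d^2/q)) / (4 q)`. -/
theorem pat_large_row {N : ℕ} (q d : ℕ) (hq : 0 < q) (hd : 4 * d ≤ q) (H P : Finset (Fin N))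
    (hHP : Disjoint H P) (hH : H.card = 2 * q) (hP : P.card = 2 * q) :
    Real.exp (-(2 * (d : ℝ) ^ 2 / q)) / (4 * q) * (2 : ℝ) ^ (Fintype.card (Fin N)) ≤
      (pat H P q (q + d)).card := by
  have h := pat_card H P hHP q (q + d)
  rw [hH, hP] at h
  have h' : ((pat H P q (q + d)).card : ℝ) * (2 : ℝ) ^ (2 * q + 2 * q) =
      (Nat.choose (2 * q) q : ℝ) * (Nat.choose (2 * q) (q + d) : ℝ) *
        (2 : ℝ) ^ (Fintype.card (Fin N)) := by
    exact_mod_cast h
  have hq0 : (0 : ℝ) < q := by exact_mod_cast hq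
  have h0 : (4 : ℝ) ^ q ≤ 2 * Real.sqrt q * (Nat.choose (2 * q) q : ℝ) := by
    have := choose_lower q 0 hq (by omega)
    simpa using this
  have h1 := choose_lower q d hq hd
  have h16 : (2 : ℝ) ^ (2 * q + 2 * q) = (4 : ℝ) ^ q * (4 : ℝ) ^ q := by
    rw [pow_add, pow_mul]
    norm_num
  set E : ℝ := Real.exp (-(2 * (d : ℝ) ^ 2 / q)) with hE
  have hE0 : 0 < E := Real.exp_pos _
  have h2 : (4 : ℝ) ^ q * ((4 : ℝ) ^ q * E) ≤
      (2 * Real.sqrt q * (Nat.choose (2 * q) q : ℝ)) *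
        (2 * Real.sqrt q * (Nat.choose (2 * q) (q + d) : ℝ)) :=
    mul_le_mul h0 h1 (by positivity) (by positivity)
  have h3 : (2 * Real.sqrt q * (Nat.choose (2 * q) q : ℝ)) *
        (2 * Real.sqrt q * (Nat.choose (2 * q) (q + d) : ℝ)) =
      4 * q * ((Nat.choose (2 * q) q : ℝ) * (Nat.choose (2 * q) (q + d) : ℝ)) := by
    have h4 : Real.sqrt q * Real.sqrt q = q := Real.mul_self_sqrt hq0.le
    calc (2 * Real.sqrt q * (Nat.choose (2 * q) q : ℝ)) *
        (2 * Real.sqrt q * (Nat.choose (2 * q) (q + d) : ℝ))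
        = 4 * (Real.sqrt q * Real.sqrt q) *
          ((Nat.choose (2 * q) q : ℝ) * (Nat.choose (2 * q) (q + d) : ℝ)) := by ring
      _ = _ := by rw [h4]
  rw [h3] at h2
  have hpos : (0 : ℝ) < (2 : ℝ) ^ (2 * q + 2 * q) := by positivity
  have h5 : E / (4 * q) * (2 : ℝ) ^ (Fintype.card (Fin N)) * (2 : ℝ) ^ (2 * q + 2 * q) ≤
      ((pat H P q (q + d)).card : ℝ) * (2 : ℝ) ^ (2 * q + 2 * q) := by
    rw [h', h16]
    have h6 : E / (4 * q) * ((4 : ℝ) ^ q * (4 : ℝ) ^ q) ≤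
        (Nat.choose (2 * q) q : ℝ) * (Nat.choose (2 * q) (q + d) : ℝ) := by
      rw [div_mul_eq_mul_div, div_le_iff₀ (by positivity)]
      calc E * ((4 : ℝ) ^ q * (4 : ℝ) ^ q) = (4 : ℝ) ^ q * ((4 : ℝ) ^ q * E) := by ring
        _ ≤ _ := h2
        _ = _ := by ring
    calc E / (4 * q) * (2 : ℝ) ^ (Fintype.card (Fin N)) * ((4 : ℝ) ^ q * (4 : ℝ) ^ q)
        = E / (4 * q) * ((4 : ℝ) ^ q * (4 : ℝ) ^ q) * (2 : ℝ) ^ (Fintype.card (Fin N)) := by ring
      _ ≤ _ := mul_le_mul_of_nonneg_right h6 (by positivity)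
  exact le_of_mul_le_mul_right h5 hpos

open Classical in
/-- There are `N` columns which see all the classes.

Proof. `𝓒` = the image of the disjoint pairs in `powersetCard (2q) univ ×ˢ powersetCard (2q) univ`
under `(H, P) ↦ pat H P q (q + d)`; `|𝓒| ≤ C(N, 2q)^2 ≤ (N^(2q))^2` (`Nat.choose_le_pow`).
`bad_card` with `n = N`, `p = exp (..)/(4q)` (`pat_large_row`): the number of bad `v` is smaller
than the number `(2^N)^N` of all `v`. -/
theorem exists_cols {N : ℕ} (hN : 0 < N) (q d : ℕ) (hq : 0 < q) (hd : 4 * d ≤ q) (e : ℝ)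
    (he : 0 < e) (he1 : e ≤ 1)
    (hsmall : (N : ℝ) ^ (4 * q) * (2 * N + 1) *
      Real.exp (-(e ^ 2 * (Real.exp (-(2 * (d : ℝ) ^ 2 / q)) / (4 * q)) ^ 2 * N / 8)) < 1) :
    ∃ v : Fin N → Fin N → Bool, ∀ H P : Finset (Fin N), Disjoint H P → H.card = 2 * q →
      P.card = 2 * q → Sees v (pat H P q (q + d)) e := by
  set p : ℝ := Real.exp (-(2 * (d : ℝ) ^ 2 / q)) / (4 * q) with hp
  have hq0 : (0 : ℝ) < q := by exact_mod_cast hq
  have hp0 : 0 < p := by
    rw [hp]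
    positivity
  set S : Finset (Finset (Fin N) × Finset (Fin N)) :=
    (powersetCard (2 * q) univ ×ˢ powersetCard (2 * q) univ).filter
      (fun HP => Disjoint HP.1 HP.2) with hS
  set C : Finset (Finset (Fin N → Bool)) := S.image (fun HP => pat HP.1 HP.2 q (q + d)) with hC
  have hSmem : ∀ HP ∈ S, Disjoint HP.1 HP.2 ∧ HP.1.card = 2 * q ∧ HP.2.card = 2 * q := by
    intro HP hHP
    rw [hS, mem_filter, mem_product, mem_powersetCard, mem_powersetCard] at hHP
    exact ⟨hHP.2, hHP.1.1.2, hHP.1.2.2⟩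
  have hCcard : (C.card : ℝ) ≤ (N : ℝ) ^ (4 * q) := by
    have h1 : C.card ≤ N ^ (4 * q) := by
      calc C.card ≤ S.card := card_image_le
        _ ≤ (powersetCard (2 * q) (univ : Finset (Fin N)) ×ˢ
            powersetCard (2 * q) (univ : Finset (Fin N))).card := card_filter_le _ _
        _ = (N.choose (2 * q)) * (N.choose (2 * q)) := by
            rw [card_product, card_powersetCard, card_univ, Fintype.card_fin]
        _ ≤ N ^ (2 * q) * N ^ (2 * q) :=
            Nat.mul_le_mul (Nat.choose_le_pow N (2 * q)) (Nat.choose_le_pow N (2 * q))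
        _ = N ^ (4 * q) := by
            rw [← pow_add]
            congr 1
            ring
    exact_mod_cast h1
  have hF : ∀ F ∈ C, p * (2 : ℝ) ^ (Fintype.card (Fin N)) ≤ F.card := by
    intro F hF
    rw [hC, mem_image] at hF
    obtain ⟨HP, hHP, rfl⟩ := hF
    obtain ⟨h1, h2, h3⟩ := hSmem HP hHP
    exact pat_large_row q d hq hd HP.1 HP.2 h1 h2 h3
  have hbad := bad_card (R := Fin N) N hN C p e hp0 he he1 hF
  by_contra hcon
  push Not at hcon
  have hall : (univ.filter fun v : Fin N → Fin N → Bool => ∃ F ∈ C, ¬ Sees v F e) = univ := by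
    rw [filter_eq_self]
    intro v _
    obtain ⟨H, P, h1, h2, h3, h4⟩ := hcon v
    refine ⟨pat H P q (q + d), ?_, h4⟩
    rw [hC, mem_image]
    refine ⟨(H, P), ?_, rfl⟩
    rw [hS, mem_filter, mem_product, mem_powersetCard, mem_powersetCard]
    exact ⟨⟨⟨subset_univ _, h2⟩, ⟨subset_univ _, h3⟩⟩, h1⟩
  rw [hall] at hbad
  have hcardv : ((univ : Finset (Fin N → Fin N → Bool)).card : ℝ) =
      ((2 : ℝ) ^ (Fintype.card (Fin N))) ^ N := by
    rw [card_univ]
    simp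
  rw [hcardv] at hbad
  have hX : (0 : ℝ) < ((2 : ℝ) ^ (Fintype.card (Fin N))) ^ N := by positivity
  have h1 : (1 : ℝ) ≤ C.card * (2 * (Fintype.card (Fin N) : ℝ) + 1) *
      Real.exp (-(e ^ 2 * p ^ 2 * N / 8)) := by
    by_contra h2
    push Not at h2
    have := mul_lt_mul_of_pos_right h2 hX
    rw [one_mul] at this
    linarith
  rw [Fintype.card_fin] at h1
  have h2 : (C.card : ℝ) * (2 * (N : ℝ) + 1) * Real.exp (-(e ^ 2 * p ^ 2 * N / 8)) ≤
      (N : ℝ) ^ (4 * q) * (2 * N + 1) * Real.exp (-(e ^ 2 * p ^ 2 * N / 8)) := by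
    gcongr
  linarith

end Pool.Agent.KOB
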